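import Pool.Agent.LibNexp.Advice

/-!
Use of the oracle by a run.
-/

namespace Pool.Agent.LibNexp

open Function

/-- A run of `t` actions asks at most `t` strings, and persists for all oracles agreeing on them. -/
theorem run_use {O : List Bool → Bool} {p : Prog} : ∀ {t : ℕ} {σ σ' : State}, Run O p t σ σ' →
    ∃ Q : Finset (List Bool), Q.card ≤ t ∧ ∀ O' : List Bool → Bool, (∀ s ∈ Q, O' s = O s) →
      Run O' p t σ σ' := by
  classical
  induction p with
  | push r b => exact fun h => ⟨∅, by simp, fun _ _ => h⟩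
  | pop r b => exact fun h => ⟨∅, by simp, fun _ _ => h⟩
  | empty r => exact fun h => ⟨∅, by simp, fun _ _ => h⟩
  | query r b =>
    rintro t σ σ' ⟨rfl, h, rfl⟩
    exact ⟨{σ' r}, by simp, fun O' hO' => ⟨rfl, by rw [hO' _ (by simp)]; exact h, rfl⟩⟩
  | seq p q ihp ihq =>
    rintro t σ σ' ⟨t1, t2, τ, rfl, h1, h2⟩
    obtain ⟨Q1, c1, k1⟩ := ihp h1
    obtain ⟨Q2, c2, k2⟩ := ihq h2
    refine ⟨Q1 ∪ Q2, le_trans (Finset.card_union_le _ _) (by omega), fun O' hO' => ?_⟩
    exact ⟨t1, t2, τ, rfl, k1 O' fun s hs => hO' s (Finset.mem_union_left _ hs),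
      k2 O' fun s hs => hO' s (Finset.mem_union_right _ hs)⟩
  | alt p q ihp ihq =>
    rintro t σ σ' (h | h)
    · obtain ⟨Q, c, k⟩ := ihp h
      exact ⟨Q, c, fun O' hO' => Or.inl (k O' hO')⟩
    · obtain ⟨Q, c, k⟩ := ihq h
      exact ⟨Q, c, fun O' hO' => Or.inr (k O' hO')⟩
  | star p ih =>
    intro t σ σ' h
    change Iter (Run O p) t σ σ' at h
    induction h with
    | nil σ => exact ⟨∅, by simp, fun O' _ => Iter.nil σ⟩
    | @cons t t' σ τ σ' h1 _ ih' =>
      obtain ⟨Q1, c1, k1⟩ := ih h1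
      obtain ⟨Q2, c2, k2⟩ := ih'
      refine ⟨Q1 ∪ Q2, le_trans (Finset.card_union_le _ _) (by omega), fun O' hO' => ?_⟩
      exact Iter.cons (k1 O' fun s hs => hO' s (Finset.mem_union_left _ hs))
        (k2 O' fun s hs => hO' s (Finset.mem_union_right _ hs))

/-- A run depends only on the oracle on short strings. -/
theorem run_agree {O O' : List Bool → Bool} {M : ℕ} (hO : ∀ s, s.length ≤ M → O s = O' s)
    {p : Prog} : ∀ {t : ℕ} {σ σ' : State}, Run O p t σ σ' → (∀ r, (σ r).length + t ≤ M) →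
      Run O' p t σ σ' := by
  induction p with
  | push r b => exact fun h _ => h
  | pop r b => exact fun h _ => h
  | empty r => exact fun h _ => h
  | query r b =>
    rintro t σ σ' ⟨rfl, h, rfl⟩ hM
    exact ⟨rfl, by rw [← hO _ (by have := hM r; omega)]; exact h, rfl⟩
  | seq p q ihp ihq =>
    rintro t σ σ' ⟨t1, t2, τ, rfl, h1, h2⟩ hM
    refine ⟨t1, t2, τ, rfl, ihp h1 fun r => by have := hM r; omega, ihq h2 fun r => ?_⟩
    have := hM r
    have := run_len h1 r
    omega
  | alt p q ihp ihq =>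
    rintro t σ σ' (h | h) hM
    · exact Or.inl (ihp h hM)
    · exact Or.inr (ihq h hM)
  | star p ih =>
    intro t σ σ' h hM
    change Iter (Run O p) t σ σ' at h
    change Iter (Run O' p) t σ σ'
    induction h with
    | nil σ => exact Iter.nil σ
    | @cons t t' σ τ σ' h1 _ ih' =>
      refine Iter.cons (ih h1 fun r => by have := hM r; omega) (ih' fun r => ?_)
      have := hM r
      have := run_len h1 r
      omega

/-- `Acc O p T z`: the program `p` accepts the single input `z` in time `T`. -/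
def Acc (O : List Bool → Bool) (p : Prog) (T : ℕ) (z : List Bool) : Prop :=
  ∃ t σ', t ≤ T ∧ Run O p t (init fun _ : Fin 1 => z) σ'

theorem acc_use {O : List Bool → Bool} {p : Prog} {T : ℕ} {z : List Bool} (h : Acc O p T z) :
    ∃ Q : Finset (List Bool), Q.card ≤ T ∧ ∀ O' : List Bool → Bool, (∀ s ∈ Q, O' s = O s) →
      Acc O' p T z := by
  obtain ⟨t, σ', ht, h⟩ := h
  obtain ⟨Q, c, k⟩ := run_use h
  exact ⟨Q, le_trans c ht, fun O' hO' => ⟨t, σ', ht, k O' hO'⟩⟩

theorem acc_agree {O O' : List Bool → Bool} {p : Prog} {T : ℕ} {z : List Bool}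
    (hO : ∀ s, s.length ≤ z.length + T → O s = O' s) (h : Acc O p T z) : Acc O' p T z := by
  obtain ⟨t, σ', ht, h⟩ := h
  refine ⟨t, σ', ht, run_agree hO h fun r => ?_⟩
  have : (init (fun _ : Fin 1 => z) r).length ≤ z.length := by
    unfold init
    split_ifs <;> simp
  omega

theorem exists_prog {O : List Bool → Bool} {B : Lang} (hB : B ∈ NEXPLang O) :
    ∃ (p : Prog) (c : ℕ), ∀ z, z ∈ B ↔ Acc O p (2 ^ (z.length ^ c + c)) z := by
  obtain ⟨c, p, hp⟩ := hB
  refine ⟨p, c, fun z => ⟨fun hz => ?_, fun hz => ?_⟩⟩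
  · obtain ⟨t, σ', ht, h⟩ := (hp fun _ => z).2 hz
    have hs : size (fun _ : Fin 1 => z) = z.length := by simp [size]
    rw [hs] at ht
    exact ⟨t, σ', ht, h⟩
  · obtain ⟨t, σ', -, h⟩ := hz
    exact (hp fun _ => z).1 _ _ h

end Pool.Agent.LibNexp
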