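import Pool.Agent.LibNexp.Pow

/-!
A test language: strings with an exponentially long witness given by the oracle.
-/

namespace Pool.Agent.LibNexp

open Function

variable {O : List Bool → Bool}

/-- The class of languages recognised in nondeterministic time `2 ^ O(n)` with oracle `O`. -/
def NELang (O : List Bool → Bool) : Set Lang :=
  {L | NE O fun e : Fin 1 → List Bool => e 0 ∈ L}

/-- Strings `x` for which the oracle accepts some `xw` with `w` of length `2 ^ |x|`. -/
def WitLang (O : List Bool → Bool) : Lang :=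
  {x | ∃ w : List Bool, w.length = 2 ^ x.length ∧ O (x ++ w) = true}

/-- The number with binary digits `l`, least significant digit first. -/
def val : List Bool → ℕ
  | [] => 0
  | b :: l => b.toNat + 2 * val l

theorem val_false (k : ℕ) (l : List Bool) : val (List.replicate k false ++ l) = 2 ^ k * val l := by
  induction k with
  | zero => simp
  | succ k ih => simp only [List.replicate_succ, List.cons_append, val, ih, pow_succ]; simp; ring

theorem val_true (k : ℕ) (l : List Bool) :
    val (List.replicate k true ++ l) + 1 = 2 ^ k * (val l + 1) := by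
  induction k with
  | zero => simp
  | succ k ih =>
    simp only [List.replicate_succ, List.cons_append, val, pow_succ, Bool.toNat_true]
    have : 1 + 2 * val (List.replicate k true ++ l) + 1 =
      2 * (val (List.replicate k true ++ l) + 1) := by ring
    rw [this, ih]
    ring

theorem val_lt : ∀ l : List Bool, val l < 2 ^ l.length := by
  intro l
  induction l with
  | nil => simp [val]
  | cons b l ih =>
    simp only [val, List.length_cons, pow_succ]
    have := Bool.toNat_le b
    omega

theorem exists_false : ∀ {l : List Bool}, val l + 1 < 2 ^ l.length →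
    ∃ k l', l = List.replicate k true ++ false :: l' := by
  intro l
  induction l with
  | nil => intro h; simp [val] at h
  | cons b l ih =>
    intro h
    cases b with
    | false => exact ⟨0, l, rfl⟩
    | true =>
      simp only [val, List.length_cons, pow_succ, Bool.toNat_true] at h
      obtain ⟨k, l', rfl⟩ := ih (by omega)
      exact ⟨k + 1, l', rfl⟩

/-- Move copies of the letter `x` from `a`, pushing copies of `y` on `b`. -/
def mvc (a : ℕ) (x : Bool) (b : ℕ) (y : Bool) : Prog := .star (.seq (.pop a x) (.push b y))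

theorem mvc_sound {a b : ℕ} (hab : a ≠ b) {x y : Bool} {t : ℕ} {σ σ' : State}
    (h : Run O (mvc a x b y) t σ σ') : ∃ k, σ a = List.replicate k x ++ σ' a ∧
      σ' b = List.replicate k y ++ σ b ∧ ∀ r, r ≠ a → r ≠ b → σ' r = σ r := by
  change Iter _ t σ σ' at h
  induction h with
  | nil σ => exact ⟨0, rfl, rfl, fun _ _ _ => rfl⟩
  | @cons t t' σ τ σ' h1 _ ih =>
    obtain ⟨t1, t2, υ, -, ⟨-, l, h2, rfl⟩, -, rfl⟩ := h1
    obtain ⟨k, i1, i2, i3⟩ := ih
    rw [update_of_ne hab, update_self] at i1
    rw [update_self, update_of_ne (Ne.symm hab)] at i2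
    refine ⟨k + 1, ?_, ?_, ?_⟩
    · rw [h2, i1, List.replicate_succ]; rfl
    · rw [i2, List.replicate_succ']; simp
    · intro r h3 h4
      rw [i3 r h3 h4, update_of_ne h4, update_of_ne h3]

theorem mvc_complete {a b : ℕ} (hab : a ≠ b) {x y : Bool} : ∀ {k : ℕ} {l : List Bool} {σ : State},
    σ a = List.replicate k x ++ l → Run O (mvc a x b y) (2 * k) σ
      (update (update σ a l) b (List.replicate k y ++ σ b)) := by
  intro k
  induction k with
  | zero =>
    intro l σ h
    have e1 : update σ a l = σ := by rw [show l = σ a from h.symm]; simp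
    rw [e1]
    have e2 : update σ b (List.replicate 0 y ++ σ b) = σ := by simp
    rw [e2]
    exact Iter.nil σ
  | succ k ih =>
    intro l σ h
    have h1 : Run O (.seq (.pop a x) (.push b y)) 2 σ
        (update (update σ a (List.replicate k x ++ l)) b (y :: σ b)) :=
      ⟨1, 1, update σ a (List.replicate k x ++ l), rfl, ⟨rfl, _, by rw [h, List.replicate_succ]; rfl, rfl⟩, rfl, by
        rw [update_of_ne (Ne.symm hab)]⟩
    have h2 := ih (l := l) (σ := update (update σ a (List.replicate k x ++ l)) b (y :: σ b))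
      (by rw [update_of_ne hab, update_self])
    have h3 : Iter (Run O (.seq (.pop a x) (.push b y))) (2 + 2 * k) σ _ := Iter.cons h1 h2
    change Iter (Run O (.seq (.pop a x) (.push b y))) (2 * (k + 1)) σ _
    convert h3 using 1
    · ring
    · funext r
      by_cases hr : r = b
      · subst hr
        rw [update_self, update_self, update_self, List.replicate_succ']
        simp
      · by_cases hr' : r = a
        · subst hr'; simp [hr]
        · simp [hr, hr']

/-- Increment the binary counter on stack `2`, with scratch stack `4`. -/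
def inc : Prog := .seq (mvc 2 true 4 false) (.seq (.pop 2 false) (.seq (.push 2 true)
  (.seq (mvc 4 false 2 false) (.empty 4))))

theorem inc_sound {t : ℕ} {σ σ' : State} (h4 : σ 4 = []) (h : Run O inc t σ σ') :
    val (σ' 2) = val (σ 2) + 1 ∧ (σ' 2).length = (σ 2).length ∧ σ' 4 = [] ∧
      ∀ r, r ≠ 2 → r ≠ 4 → σ' r = σ r := by
  obtain ⟨t1, t2, τ1, -, h1, t3, t4, τ2, -, ⟨-, l, h2, rfl⟩, t5, t6, τ3, -, ⟨-, rfl⟩,
    t7, t8, τ4, -, h3, -, h5, rfl⟩ := h
  obtain ⟨k, a1, a2, a3⟩ := mvc_sound (by norm_num) h1
  obtain ⟨k', b1, b2, b3⟩ := mvc_sound (by norm_num) h3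
  have c1 : update (update τ1 2 l) 2 (true :: update τ1 2 l 2) 4 = List.replicate k false := by
    rw [update_of_ne (by norm_num), update_of_ne (by norm_num), a2, h4, List.append_nil]
  rw [c1, h5, List.append_nil] at b1
  have hk : k = k' := by simpa using congrArg List.length b1
  subst hk
  rw [update_self, update_self] at b2
  refine ⟨?_, ?_, h5, ?_⟩
  · rw [b2, a1, h2, val_false, val_true]
    simp only [val, Bool.toNat_true, Bool.toNat_false]
    ring
  · rw [b2, a1, h2]; simp
  · intro r hr2 hr4
    rw [b3 r hr4 hr2, update_of_ne hr2, update_of_ne hr2, a3 r hr2 hr4]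

theorem inc_complete {σ : State} (h4 : σ 4 = []) (h : val (σ 2) + 1 < 2 ^ (σ 2).length) :
    ∃ t σ', t ≤ 4 * (σ 2).length + 3 ∧ Run O inc t σ σ' := by
  obtain ⟨k, l, hl⟩ := exists_false h
  have h1 := mvc_complete (O := O) (a := 2) (b := 4) (by norm_num) (x := true) (y := false) hl
  rw [h4, List.append_nil] at h1
  set τ1 := update (update σ 2 (false :: l)) 4 (List.replicate k false) with hτ1
  have a1 : τ1 2 = false :: l := by rw [hτ1, update_of_ne (by norm_num), update_self]
  set τ2 := update τ1 2 l with hτ2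
  set τ3 := update τ2 2 (true :: τ2 2) with hτ3
  have a3 : τ3 4 = List.replicate k false ++ [] := by
    rw [hτ3, update_of_ne (by norm_num), hτ2, update_of_ne (by norm_num), hτ1, update_self,
      List.append_nil]
  have h3 := mvc_complete (O := O) (a := 4) (b := 2) (by norm_num) (x := false) (y := false) a3
  refine ⟨2 * k + (1 + (1 + (2 * k + 1))), _, ?_, _, _, _, rfl, h1, _, _, _, rfl, ⟨rfl, l, a1, rfl⟩,
    _, _, _, rfl, ⟨rfl, rfl⟩, _, _, _, rfl, h3, rfl, ?_, rfl⟩
  · rw [hl]; simp; omega
  · rw [update_of_ne (by norm_num), update_self]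

/-- Push a guessed bit on stack `3` and increment the counter. -/
def guessInc : Prog := .seq (.alt (.push 3 false) (.push 3 true)) inc

theorem guessInc_complete : ∀ (u : List Bool) (σ : State), σ 4 = [] →
    val (σ 2) + u.length < 2 ^ (σ 2).length → ∃ t σ', t ≤ u.length * (4 * (σ 2).length + 4) ∧
      Iter (Run O guessInc) t σ σ' ∧ σ' 3 = u ++ σ 3 ∧ val (σ' 2) = val (σ 2) + u.length ∧
      (σ' 2).length = (σ 2).length ∧ σ' 4 = [] ∧ ∀ r, r ≠ 2 → r ≠ 3 → r ≠ 4 → σ' r = σ r := by
  intro u
  induction u using List.reverseRecOn with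
  | nil => intro σ h4 _; exact ⟨0, σ, by simp, Iter.nil σ, by simp, by simp, rfl, h4, fun _ _ _ _ => rfl⟩
  | append_singleton u b ih =>
    intro σ h4 h
    rw [List.length_append, List.length_singleton] at h
    set τ := update σ 3 (b :: σ 3) with hτ
    have a2 : τ 2 = σ 2 := by rw [hτ, update_of_ne (by norm_num)]
    have a4 : τ 4 = [] := by rw [hτ, update_of_ne (by norm_num), h4]
    have a3 : τ 3 = b :: σ 3 := by rw [hτ, update_self]
    obtain ⟨t1, ρ, ht1, h1⟩ := inc_complete (O := O) (σ := τ) a4 (by rw [a2]; omega)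
    obtain ⟨b1, b2, b3, b4⟩ := inc_sound a4 h1
    have h2 : Run O (.alt (.push 3 false) (.push 3 true)) 1 σ τ := by
      cases b
      · exact Or.inl ⟨rfl, rfl⟩
      · exact Or.inr ⟨rfl, rfl⟩
    rw [a2] at b1 b2 ht1
    obtain ⟨t2, σ', ht2, h3, c1, c2, c3, c4, c5⟩ := ih ρ b3 (by rw [b1, b2]; omega)
    refine ⟨(1 + t1) + t2, σ', ?_, Iter.cons ⟨1, t1, τ, rfl, h2, h1⟩ h3, ?_, ?_, ?_, c4, ?_⟩
    · rw [b2] at ht2
      rw [List.length_append, List.length_singleton, Nat.succ_mul]
      omega
    · rw [c1, b4 3 (by norm_num) (by norm_num), a3]; simp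
    · rw [c2, b1, List.length_append, List.length_singleton]; ring
    · rw [c3, b2]
    · intro r hr2 hr3 hr4
      rw [c5 r hr2 hr3 hr4, b4 r hr2 hr4, hτ, update_of_ne hr3]

/-- Move a bit from stack `0` to stack `1` and push a zero on the counter. -/
def load : Prog := .alt (.seq (.pop 0 false) (.seq (.push 1 false) (.push 2 false)))
  (.seq (.pop 0 true) (.seq (.push 1 true) (.push 2 false)))

theorem run_load {t : ℕ} {σ σ' : State} : Run O load t σ σ' ↔ t = 3 ∧ ∃ b l, σ 0 = b :: l ∧
    σ' = update (update (update σ 0 l) 1 (b :: σ 1)) 2 (false :: σ 2) := by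
  have u1 : ∀ l, update σ 0 l 1 = σ 1 := fun l => update_of_ne (by norm_num) _ _
  have u2 : ∀ l l', update (update σ 0 l) 1 l' 2 = σ 2 := fun l l' => by
    rw [update_of_ne (by norm_num), update_of_ne (by norm_num)]
  constructor
  · rintro (⟨t1, t2, τ, rfl, ⟨rfl, l, h1, rfl⟩, t3, t4, τ', rfl, ⟨rfl, rfl⟩, rfl, rfl⟩ |
      ⟨t1, t2, τ, rfl, ⟨rfl, l, h1, rfl⟩, t3, t4, τ', rfl, ⟨rfl, rfl⟩, rfl, rfl⟩)
    · exact ⟨rfl, false, l, h1, by rw [u2, u1]⟩
    · exact ⟨rfl, true, l, h1, by rw [u2, u1]⟩
  · rintro ⟨rfl, b, l, h1, rfl⟩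
    cases b
    · exact Or.inl ⟨1, 2, _, rfl, ⟨rfl, l, h1, rfl⟩, 1, 1, _, rfl, ⟨rfl, rfl⟩, rfl, by rw [u2, u1]⟩
    · exact Or.inr ⟨1, 2, _, rfl, ⟨rfl, l, h1, rfl⟩, 1, 1, _, rfl, ⟨rfl, rfl⟩, rfl, by rw [u2, u1]⟩

theorem load_complete : ∀ (x : List Bool) (σ : State), σ 0 = x →
    Iter (Run O load) (3 * x.length) σ (update (update (update σ 0 []) 1 (x.reverse ++ σ 1)) 2
      (List.replicate x.length false ++ σ 2)) := by
  intro x
  induction x with
  | nil =>
    intro σ h
    have e1 : update σ 0 [] = σ := by rw [show [] = σ 0 from h.symm]; simp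
    rw [e1]
    simpa using Iter.nil σ
  | cons b x ih =>
    intro σ h
    have h1 : Run O load 3 σ (update (update (update σ 0 x) 1 (b :: σ 1)) 2 (false :: σ 2)) :=
      run_load.2 ⟨rfl, b, x, h, rfl⟩
    have h2 := ih (update (update (update σ 0 x) 1 (b :: σ 1)) 2 (false :: σ 2)) (by
      rw [update_of_ne (by norm_num), update_of_ne (by norm_num), update_self])
    have h3 := Iter.cons h1 h2
    convert h3 using 1
    · rw [List.length_cons]; ring
    · funext r
      by_cases hr2 : r = 2
      · subst hr2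
        rw [update_self, update_self, update_self, List.length_cons, List.replicate_succ']
        simp
      · by_cases hr1 : r = 1
        · subst hr1; simp
        · by_cases hr0 : r = 0
          · subst hr0; simp
          · simp [hr0, hr1, hr2]

/-- The program recognising the test language. -/
def witProg : Prog := .seq (.star load) (.seq (.empty 0) (.seq (.star guessInc)
  (.seq (.alt (.push 3 false) (.push 3 true)) (.seq (.star (.pop 2 true)) (.seq (.empty 2)
    (.seq (mv 1 3) (.query 3 true)))))))

theorem pops_sound {r : ℕ} {b : Bool} {t : ℕ} {σ σ' : State} (h : Run O (.star (.pop r b)) t σ σ') :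
    ∃ k, σ r = List.replicate k b ++ σ' r ∧ ∀ s, s ≠ r → σ' s = σ s := by
  change Iter _ t σ σ' at h
  induction h with
  | nil σ => exact ⟨0, rfl, fun _ _ => rfl⟩
  | @cons t t' σ τ σ' h1 _ ih =>
    obtain ⟨-, l, h2, rfl⟩ := h1
    obtain ⟨k, i1, i2⟩ := ih
    rw [update_self] at i1
    exact ⟨k + 1, by rw [h2, i1, List.replicate_succ]; rfl, fun s hs => by
      rw [i2 s hs, update_of_ne hs]⟩

theorem pops_complete {r : ℕ} {b : Bool} : ∀ (k : ℕ) (σ : State), σ r = List.replicate k b →
    Run O (.star (.pop r b)) k σ (update σ r []) := by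
  intro k
  induction k with
  | zero =>
    intro σ h
    have e1 : update σ r [] = σ := by rw [show [] = σ r from h.symm]; simp
    rw [e1]
    exact Iter.nil σ
  | succ k ih =>
    intro σ h
    have h1 : Iter _ k _ _ := ih (update σ r (List.replicate k b)) (by rw [update_self])
    rw [update_idem] at h1
    change Iter (Run O (.pop r b)) (k + 1) σ _
    rw [add_comm]
    exact Iter.cons (R := Run O (.pop r b)) ⟨rfl, _, h, rfl⟩ h1

theorem all_true : ∀ {l : List Bool}, val l + 1 = 2 ^ l.length → l = List.replicate l.length true := by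
  intro l
  induction l with
  | nil => intro _; rfl
  | cons b l ih =>
    intro h
    simp only [val, List.length_cons, pow_succ] at h
    have h1 := val_lt l
    cases b with
    | false => simp only [Bool.toNat_false] at h; omega
    | true =>
      simp only [Bool.toNat_true] at h
      rw [List.length_cons, List.replicate_succ, ← ih (by omega)]

theorem witLang_mem : WitLang O ∈ NELang O := by
  refine ⟨5, witProg, fun e => ⟨?_, ?_⟩⟩
  · rintro t σ' ⟨t1, t2, τ1, -, h1, t3, t4, τ2, -, ⟨-, h2, rfl⟩, t5, t6, τ3, -, h3,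
      t7, t8, τ4, -, h4, t9, t10, τ5, -, h5, t11, t12, τ6, -, ⟨-, h6, rfl⟩,
      t13, t14, τ7, -, h7, -, h8, rfl⟩
    -- after loading
    have hl := iter_inv (P := fun σ => e 0 = (σ 1).reverse ++ σ 0 ∧ (σ 2).length = (σ 1).length ∧
      val (σ 2) = 0 ∧ σ 3 = [] ∧ σ 4 = []) (by
        intro t σ τ h ⟨i1, i2, i3, i4, i5⟩
        obtain ⟨-, b, l, h9, rfl⟩ := run_load.1 h
        refine ⟨?_, ?_, ?_, ?_, ?_⟩
        · rw [update_of_ne (by norm_num), update_self, update_of_ne (by norm_num),
            update_of_ne (by norm_num), update_self, i1, h9]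
          simp
        · rw [update_self, update_of_ne (by norm_num), update_self, List.length_cons,
            List.length_cons, i2]
        · rw [update_self]
          simp only [val, i3, Bool.toNat_false]
        · rw [update_of_ne (by norm_num), update_of_ne (by norm_num), update_of_ne (by norm_num), i4]
        · rw [update_of_ne (by norm_num), update_of_ne (by norm_num), update_of_ne (by norm_num), i5])
      h1 ⟨by rw [init_ge e (r := 1) le_rfl, init0]; rfl,
        by rw [init_ge e (r := 1) le_rfl, init_ge e (r := 2) (by norm_num)],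
        by rw [init_ge e (r := 2) (by norm_num)]; rfl, init_ge e (by norm_num),
        init_ge e (by norm_num)⟩
    obtain ⟨i1, i2, i3, i4, i5⟩ := hl
    rw [h2, List.append_nil] at i1
    -- after guessing
    have hg := iter_inv (P := fun σ => σ 1 = τ2 1 ∧ (σ 2).length = (τ2 2).length ∧
      val (σ 2) = (σ 3).length ∧ σ 4 = []) (by
        rintro t σ τ ⟨t1, t2, υ, -, h9, h10⟩ ⟨j1, j2, j3, j4⟩
        obtain ⟨b, rfl⟩ : ∃ b, υ = update σ 3 (b :: σ 3) := by
          rcases h9 with ⟨-, rfl⟩ | ⟨-, rfl⟩
          · exact ⟨false, rfl⟩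
          · exact ⟨true, rfl⟩
        obtain ⟨k1, k2, k3, k4⟩ := inc_sound (by rw [update_of_ne (by norm_num)]; exact j4) h10
        rw [update_of_ne (by norm_num)] at k1 k2
        refine ⟨?_, by rw [k2, j2], ?_, k3⟩
        · rw [k4 1 (by norm_num) (by norm_num), update_of_ne (by norm_num), j1]
        · rw [k1, k4 3 (by norm_num) (by norm_num), update_self, List.length_cons, j3])
      h3 ⟨rfl, rfl, by rw [i3, i4]; rfl, i5⟩
    obtain ⟨j1, j2, j3, j4⟩ := hg
    obtain ⟨b, rfl⟩ : ∃ b, τ4 = update τ3 3 (b :: τ3 3) := by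
      rcases h4 with ⟨-, rfl⟩ | ⟨-, rfl⟩
      · exact ⟨false, rfl⟩
      · exact ⟨true, rfl⟩
    obtain ⟨k, k1, k2⟩ := pops_sound h5
    rw [update_of_ne (by norm_num), h6, List.append_nil] at k1
    have k3 : τ6 3 = b :: τ3 3 := by rw [k2 3 (by norm_num), update_self]
    have k4 : τ6 1 = τ2 1 := by rw [k2 1 (by norm_num), update_of_ne (by norm_num), j1]
    rw [run_mv (by norm_num)] at h7
    obtain ⟨-, rfl⟩ := h7
    rw [update_self, k4, k3, ← i1] at h8
    refine ⟨b :: τ3 3, ?_, h8⟩
    have e1 : (τ3 2).length = (e 0).length := by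
      rw [j2, i2, i1, List.length_reverse]
    have e2 : k = (e 0).length := by rw [← e1, k1, List.length_replicate]
    have e3 := val_true k []
    rw [List.append_nil, ← k1] at e3
    simp only [val, zero_add, mul_one] at e3
    rw [List.length_cons, ← j3, e3, e2]
  · rintro ⟨w, hw, hO⟩
    set x := e 0 with hx
    set n := x.length with hn
    obtain ⟨b, u, rfl⟩ : ∃ b u, w = b :: u := by
      cases w with
      | nil => have := Nat.two_pow_pos n; simp at hw; omega
      | cons b u => exact ⟨b, u, rfl⟩
    rw [List.length_cons] at hw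
    have h1 := load_complete (O := O) x (init e) (init0 e)
    rw [init_ge e (r := 1) le_rfl, init_ge e (r := 2) (by norm_num), List.append_nil,
      List.append_nil] at h1
    set τ1 := update (update (update (init e) 0 []) 1 x.reverse) 2 (List.replicate x.length false)
      with hτ1
    have a0 : τ1 0 = [] := by
      rw [hτ1, update_of_ne (by norm_num), update_of_ne (by norm_num), update_self]
    have a1 : τ1 1 = x.reverse := by rw [hτ1, update_of_ne (by norm_num), update_self]
    have a2 : τ1 2 = List.replicate n false := by rw [hτ1, update_self]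
    have a3 : τ1 3 = [] := by
      rw [hτ1, update_of_ne (by norm_num), update_of_ne (by norm_num), update_of_ne (by norm_num)]
      exact init_ge e (by norm_num)
    have a4 : τ1 4 = [] := by
      rw [hτ1, update_of_ne (by norm_num), update_of_ne (by norm_num), update_of_ne (by norm_num)]
      exact init_ge e (by norm_num)
    have a2v : val (τ1 2) = 0 := by
      rw [a2]
      have := val_false n []
      rw [List.append_nil] at this
      rw [this]; rfl
    have a2l : (τ1 2).length = n := by rw [a2, List.length_replicate]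
    obtain ⟨t2, τ3, ht2, h3, b1, b2, b3, b4, b5⟩ := guessInc_complete (O := O) u τ1 a4
      (by rw [a2v, a2l]; omega)
    rw [a2l] at ht2 b3
    rw [a2v, zero_add] at b2
    rw [a3, List.append_nil] at b1
    have b0 : τ3 1 = x.reverse := by rw [b5 1 (by norm_num) (by norm_num) (by norm_num), a1]
    set τ4 := update τ3 3 (b :: τ3 3) with hτ4
    have h4 : Run O (.alt (.push 3 false) (.push 3 true)) 1 τ3 τ4 := by
      cases b
      · exact Or.inl ⟨rfl, rfl⟩
      · exact Or.inr ⟨rfl, rfl⟩
    have c2 : τ4 2 = List.replicate n true := by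
      rw [hτ4, update_of_ne (by norm_num)]
      have := all_true (l := τ3 2) (by rw [b3, b2, hw])
      rwa [b3] at this
    have h5 := pops_complete (O := O) (r := 2) (b := true) n τ4 c2
    set τ5 := update τ4 2 [] with hτ5
    have d2 : τ5 2 = [] := by rw [hτ5, update_self]
    have d3 : τ5 3 = b :: u := by
      rw [hτ5, update_of_ne (by norm_num), hτ4, update_self, b1]
    have d1 : τ5 1 = x.reverse := by
      rw [hτ5, update_of_ne (by norm_num), hτ4, update_of_ne (by norm_num), b0]
    have h7 : Run O (mv 1 3) (2 * (τ5 1).length + 1) τ5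
        (update (update τ5 1 []) 3 ((τ5 1).reverse ++ τ5 3)) := (run_mv (by norm_num)).2 ⟨rfl, rfl⟩
    refine ⟨3 * x.length + (1 + (t2 + (1 + (n + (1 + ((2 * (τ5 1).length + 1) + 1)))))), _, ?_,
      _, _, _, rfl, h1, _, _, _, rfl, ⟨rfl, a0, rfl⟩, _, _, _, rfl, h3, _, _, _, rfl, h4,
      _, _, _, rfl, h5, _, _, _, rfl, ⟨rfl, d2, rfl⟩, _, _, _, rfl, h7, rfl, ?_, rfl⟩
    · have hs : size e = n := by simp [size, hn, hx]
      rw [hs, d1, List.length_reverse, ← hn]
      have e1 : u.length ≤ 2 ^ n := by omega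
      have e2 : n < 2 ^ n := Nat.lt_two_pow_self
      have e3 : t2 ≤ 2 ^ n * (4 * n + 4) := le_trans ht2 (Nat.mul_le_mul_right _ e1)
      have e4 : 2 ^ n * (4 * n + 4) ≤ 2 ^ n * (4 * 2 ^ n + 4) := Nat.mul_le_mul_left _ (by omega)
      have e5 : 2 ^ (5 * n + 5) = 32 * (2 ^ n) ^ 5 := by
        rw [pow_add, mul_comm 5 n, pow_mul]; ring
      have e6 : 1 ≤ 2 ^ n := Nat.one_le_two_pow
      have e7 : (2 ^ n) ^ 2 ≤ (2 ^ n) ^ 5 := Nat.pow_le_pow_right e6 (by norm_num)
      have e8 : 2 ^ n ≤ (2 ^ n) ^ 2 := Nat.le_self_pow (by norm_num) _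
      show _ ≤ 2 ^ (5 * n + 5)
      rw [e5]
      have e9 : 2 ^ n * (4 * 2 ^ n + 4) = 4 * (2 ^ n) ^ 2 + 4 * 2 ^ n := by ring
      omega
    · rw [update_self, d1, d3, List.reverse_reverse]
      exact hO

end Pool.Agent.LibNexp
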