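import Pool.Agent.LibNexp.Limit

/-!
Oracles for which exactly a given number of advice values is needed.
-/

namespace Pool.Agent.LibNexp

open Function Filter

variable {O : List Bool → Bool}

/-- Push a fixed word. -/
def pushW (r : ℕ) : List Bool → Prog
  | [] => skip
  | b :: l => .seq (pushW r l) (.push r b)

theorem pushW_sound {r : ℕ} : ∀ {l : List Bool} {t : ℕ} {σ σ' : State}, Run O (pushW r l) t σ σ' →
    σ' = update σ r (l ++ σ r) := by
  intro l
  induction l with
  | nil => intro t σ σ' h; rw [run_skip h]; simp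
  | cons b l ih =>
    rintro t σ σ' ⟨t1, t2, τ, -, h1, -, rfl⟩
    rw [ih h1]
    simp

theorem pushW_complete {r : ℕ} : ∀ (l : List Bool) (σ : State),
    Run O (pushW r l) l.length σ (update σ r (l ++ σ r)) := by
  intro l
  induction l with
  | nil => intro σ; simpa [pushW] using run_skip' σ
  | cons b l ih =>
    intro σ
    refine ⟨l.length, 1, _, by simp, ih σ, rfl, ?_⟩
    simp

theorem nexp_const (c : List Bool) {k : ℕ} (i : Fin k) :
    NEXP O fun e : Fin k → List Bool => e i = c := by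
  have h1 : NEXP O fun e : Fin 1 → List Bool => e 0 = c := by
    refine nexp_of_prog (.seq (popW 0 c) (.empty 0)) (T := fun _ => c.length + 1)
      (PolyB.const _) ?_ ?_
    · rintro e t σ' ⟨t1, t2, τ, -, h1, -, h2, rfl⟩
      have h3 := (popW_sound h1).1
      rw [init0, h2, List.append_nil] at h3
      exact h3
    · intro e he
      refine ⟨c.length + 1, _, le_rfl, c.length, 1, _, rfl,
        popW_complete (l := []) (by rw [init0, he, List.append_nil]), rfl, ?_, rfl⟩
      rw [update_self]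
  refine (h1.reindex ![i]).congr fun e => ?_
  simp

/-- The advice string for the tag `r`. -/
def tg (r : ℕ) : List Bool := List.replicate r true ++ [false]

theorem nexp_form (V : ℕ) : NEXP O fun e : Fin 1 → List Bool =>
    ∃ r ∈ Finset.range V, ∃ x, e 0 = pair x (tg r) := by
  refine NEXP.finite_exists _ fun r _ => ?_
  have h1 : NEXP O fun e : Fin 3 → List Bool => e 0 = pair (e 1) (e 2) ∧ e 2 = tg r :=
    (((nexp_pairRel (O := O)).reindex ![1, 2, 0]).congr (fun e => by simp)).and (nexp_const _ 2)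
  have h2 := NEXP.exists h1 (g := fun n => n) PolyB.id (by
    rintro e z ⟨h, -⟩
    simp only [(app2 e z).1, (app2 e z).2.1, (app2 e z).2.2] at h
    have e0 := len_le_size e 0
    rw [h, length_pair] at e0
    omega)
  have h3 := NEXP.exists h2 (g := fun n => n) PolyB.id (by
    rintro e z ⟨w, h, -⟩
    have a0 : app (app e z) w 0 = e 0 := rfl
    have a1 : app (app e z) w 1 = z := rfl
    have a2 : app (app e z) w 2 = w := rfl
    rw [a0, a1, a2] at h
    have e0 := len_le_size e 0
    rw [h, length_pair] at e0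
    omega)
  refine h3.congr fun e => ?_
  constructor
  · rintro ⟨x, t, h4, h5⟩
    have a0 : app (app e x) t 0 = e 0 := rfl
    have a1 : app (app e x) t 1 = x := rfl
    have a2 : app (app e x) t 2 = t := rfl
    rw [a0, a1, a2] at h4
    rw [a2] at h5
    exact ⟨x, by rw [h4, h5]⟩
  · rintro ⟨x, hx⟩
    exact ⟨x, tg r, hx, rfl⟩

/-- The string asked about `z` with witness `w`. -/
def ask (N : ℕ) (z w : List Bool) : List Bool :=
  false :: (List.replicate N true ++ false :: (z ++ w))

theorem ask_cd (N : ℕ) (x : List Bool) (r : ℕ) (w : List Bool) :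
    ask N (pair x (tg r)) w = cd N x r w := by
  unfold ask cd tg pair
  simp

/-- The language of all coded facts with tag below `V`. -/
def CodeLang (O : List Bool → Bool) (N V : ℕ) : Lang :=
  {z | (∃ r ∈ Finset.range V, ∃ x, z = pair x (tg r)) ∧ ∃ w, O (ask N z w) = true}

theorem codeLang_mem {en : ℕ → Prog × ℕ} (hcodes : ∀ s, O (false :: s) = true →
    IsCode en (false :: s)) (N V : ℕ) : CodeLang O N V ∈ NEXPLang O := by
  obtain ⟨T, hT, -, h1⟩ := isTest_nexp (nexp_form (O := O) V)
  obtain ⟨p, hp⟩ := h1 1 (fun j => j) (fun j => j.2)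
  show NEXP O _
  rw [nexp_iff]
  set c := (en N).2 with hc
  set pre : List Bool := false :: (List.replicate N true ++ [false]) with hpre
  have hask : ∀ z w, ask N z w = pre ++ (z ++ w) := by
    intro z w
    simp [ask, hpre]
  refine ⟨fun n => T n + ((n + 2 ^ (n ^ c + c)) + ((2 * n + 1) + ((2 * n + 1) + (pre.length + 1)))),
    hT.add (((EP.of_poly PolyB.id).add (EP.pow2 (PolyB.id.comp_pow c))).add
      (EP.of_poly ((((PolyB.const 2).mul PolyB.id).add (PolyB.const 1)).add
        ((((PolyB.const 2).mul PolyB.id).add (PolyB.const 1)).add (PolyB.const _))))),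
    .seq p (.seq (guess 1) (.seq (mv 0 2) (.seq (mv 2 1) (.seq (pushW 1 pre) (.query 1 true))))),
    fun e => ⟨?_, ?_⟩⟩
  · rintro t σ' ⟨t1, t2, τ, -, h2, t3, t4, τ2, -, h3, t5, t6, τ3, -, h4, t7, t8, τ4, -, h5,
      t9, t10, τ5, -, h6, -, h7, rfl⟩
    obtain ⟨rfl, h8⟩ := (hp _ (quiet_init e)).1 _ _ h2
    rw [run_guess] at h3
    obtain ⟨w, -, rfl⟩ := h3
    rw [run_mv (by norm_num)] at h4
    obtain ⟨-, rfl⟩ := h4
    rw [run_mv (by norm_num)] at h5
    obtain ⟨-, rfl⟩ := h5
    rw [pushW_sound h6] at h7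
    refine ⟨?_, w, ?_⟩
    · obtain ⟨r, hr, x, hx⟩ := h8
      exact ⟨r, hr, x, by rw [← hx]; exact (init0 e).symm⟩
    · rw [hask]
      rw [update_self, update_self, update_self, update_of_ne (by norm_num),
        update_of_ne (by norm_num), update_of_ne (by norm_num), update_of_ne (by norm_num),
        update_self, init0, init_ge e (r := 2) (by norm_num), init_ge e (r := 1) le_rfl] at h7
      simpa using h7
  · rintro ⟨hform, w, hw⟩
    obtain ⟨t1, ht1, h2⟩ := (hp _ (quiet_init e)).2 (by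
      obtain ⟨r, hr, x, hx⟩ := hform
      refine ⟨r, hr, x, ?_⟩
      rw [← hx]; exact init0 e)
    have hwl : w.length ≤ size e + 2 ^ (size e ^ c + c) := by
      obtain ⟨r, hr, x, hx⟩ := hform
      rw [hx, ask_cd] at hw
      obtain ⟨N', x', r', w', h3, h4⟩ := hcodes _ hw
      obtain ⟨rfl, rfl, rfl, rfl⟩ := cd_injective (show cd N x r w = cd N' x' r' w' from h3)
      have h5 : x.length ≤ size e := by
        have := len_le_size e 0
        rw [hx, length_pair] at this
        omega
      rw [h4]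
      unfold qlen
      rw [← hc]
      have h6 : x.length ^ c ≤ size e ^ c := Nat.pow_le_pow_left h5 c
      have h7 : 2 ^ (x.length ^ c + c) ≤ 2 ^ (size e ^ c + c) :=
        Nat.pow_le_pow_right (by norm_num) (by omega)
      omega
    have h3 : Run O (guess 1) w.length (init e) (update (init e) 1 (w ++ init e 1)) :=
      run_guess.2 ⟨w, rfl, rfl⟩
    set τ1 := update (init e) 1 (w ++ init e 1) with hτ1
    have a0 : τ1 0 = e 0 := by rw [hτ1, update_of_ne (by norm_num), init0]
    have a1 : τ1 1 = w := by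
      rw [hτ1, update_self, init_ge e (r := 1) le_rfl, List.append_nil]
    have a2 : τ1 2 = [] := by
      rw [hτ1, update_of_ne (by norm_num), init_ge e (r := 2) (by norm_num)]
    have h4 : Run O (mv 0 2) (2 * (e 0).length + 1) τ1
        (update (update τ1 0 []) 2 (e 0).reverse) :=
      (run_mv (by norm_num)).2 ⟨by rw [a0], by rw [a0, a2, List.append_nil]⟩
    set τ2 := update (update τ1 0 []) 2 (e 0).reverse with hτ2
    have b1 : τ2 1 = w := by
      rw [hτ2, update_of_ne (by norm_num), update_of_ne (by norm_num), a1]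
    have b2 : τ2 2 = (e 0).reverse := by rw [hτ2, update_self]
    have h5 : Run O (mv 2 1) (2 * (e 0).length + 1) τ2
        (update (update τ2 2 []) 1 (e 0 ++ w)) :=
      (run_mv (by norm_num)).2 ⟨by rw [b2, List.length_reverse], by
        rw [b2, b1, List.reverse_reverse]⟩
    set τ3 := update (update τ2 2 []) 1 (e 0 ++ w) with hτ3
    have c1 : τ3 1 = e 0 ++ w := by rw [hτ3, update_self]
    have h6 := pushW_complete (O := O) (r := 1) pre τ3
    refine ⟨t1 + (w.length + ((2 * (e 0).length + 1) + ((2 * (e 0).length + 1) +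
      (pre.length + 1)))), _, ?_, _, _, _, rfl, h2, _, _, _, rfl, h3, _, _, _, rfl, h4,
      _, _, _, rfl, h5, _, _, _, rfl, h6, rfl, ?_, rfl⟩
    · have e0 := len_le_size e 0
      have e1 : t1 ≤ T (size e) := by
        simp only [init_apply] at ht1
        exact ht1
      refine Nat.add_le_add e1 (Nat.add_le_add hwl ?_)
      omega
    · rw [update_self, c1, ← hask]
      exact hw

theorem census_lt {V : ℕ} (hV : 1 ≤ V) (O : List Bool → Bool) (n : ℕ) : census V O n < V := by
  classical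
  unfold census
  have := Finset.card_filter_le (Finset.range (V - 1)) (fun i => xs n i ∈ WitLang O)
  rw [Finset.card_range] at this
  omega

theorem tag_lt {V : ℕ} (hV : 1 ≤ V) {ν : ℕ → ℕ} (hmono : ∀ k, lev ν k < lev ν (k + 1))
    (O : List Bool → Bool) (M : ℕ) : tag V ν O M < V := by
  classical
  by_cases h : ∃ k, lev ν k ≤ M ∧ M < lev ν (k + 1)
  · obtain ⟨k, h1, h2⟩ := h
    rw [tag_eq hmono h1 h2]
    exact census_lt hV O _
  · push Not at h
    unfold tag
    rw [Finset.sum_eq_zero]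
    · omega
    · intro k _
      rw [if_neg]
      rintro ⟨h1, h2⟩
      have := h k h1
      omega

theorem suffices_values {en : ℕ → Prog × ℕ} (hen : Surjective en) {V : ℕ} (hV : 1 ≤ V) {ν : ℕ → ℕ}
    (hmono : ∀ k, lev ν k < lev ν (k + 1)) (hO : Good en V ν O) {A : Finset (List Bool)}
    (hA : V ≤ A.card) {L : Lang} (hL : L ∈ NEXPLang O) :
    Lᶜ ∈ WithAdvice (NEXPLang O) {f | ∀ n, f n ∈ A} := by
  classical
  obtain ⟨p, c, hp⟩ := exists_prog hL
  obtain ⟨N, hN⟩ := hen (p, c)
  have hLN : ∀ x, x ∈ L ↔ AccN en O N x := by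
    intro x
    rw [hp]
    unfold AccN
    rw [hN]
  obtain ⟨ι⟩ : Nonempty (Fin V ↪ A) := Function.Embedding.nonempty_of_card_le (by simpa using hA)
  set g : ℕ → List Bool := fun r => if h : r < V then (ι ⟨r, h⟩ : List Bool) else [] with hg
  have hg1 : ∀ r, r < V → g r ∈ A := fun r hr => by
    simp only [hg, dif_pos hr]
    exact (ι ⟨r, hr⟩).2
  have hg2 : ∀ r r', r < V → r' < V → g r = g r' → r = r' := by
    intro r r' hr hr' h
    simp only [hg, dif_pos hr, dif_pos hr'] at h
    have := ι.injective (Subtype.ext h)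
    simpa using this
  have hC : NEXP O fun e : Fin 2 → List Bool => ∃ r ∈ Finset.range V, e 1 = g r ∧
      pair (e 0) (tg r) ∈ CodeLang O N V := by
    refine NEXP.finite_exists _ fun r _ => (nexp_const _ 1).and ?_
    have h1 : NEXP O fun e : Fin 3 → List Bool => e 2 = tg r ∧ pair (e 0) (e 2) ∈ CodeLang O N V :=
      (nexp_const _ 2).and (nexp_pair_mem (codeLang_mem hO.codes N V) 0 2)
    refine (NEXP.exists h1 (g := fun _ => (tg r).length) (PolyB.const _) ?_).congr fun e => ?_
    · rintro e z ⟨h, -⟩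
      simp only [(app2 e z).2.2] at h
      rw [h]
    · simp only [fun z => (app2 e z).1, fun z => (app2 e z).2.2]
      constructor
      · rintro ⟨z, rfl, h⟩; exact h
      · intro h; exact ⟨_, rfl, h⟩
  obtain ⟨D, hD, hDC⟩ := rel_of_nexp (C := fun x b => ∃ r ∈ Finset.range V, b = g r ∧
      pair x (tg r) ∈ CodeLang O N V) hC
  refine ⟨D, hD, fun n => g (tag V ν O (qlen en N n)), fun n => hg1 _ (tag_lt hV hmono O _), ?_⟩
  ext x
  show x ∉ L ↔ pair x _ ∈ D
  rw [hDC, hLN]
  have hlt := tag_lt hV hmono O (qlen en N x.length)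
  constructor
  · intro h
    obtain ⟨w, -, hw⟩ := hO.complete N x h
    refine ⟨tag V ν O (qlen en N x.length), Finset.mem_range.2 hlt, rfl,
      ⟨_, Finset.mem_range.2 hlt, x, rfl⟩, w, ?_⟩
    rw [ask_cd]
    exact hw
  · rintro ⟨r, hr, h1, -, w, h2⟩
    have h3 := hg2 _ _ hlt (Finset.mem_range.1 hr) h1
    rw [ask_cd] at h2
    obtain ⟨N', x', r', w', h4, h5⟩ := hO.codes _ h2
    obtain ⟨rfl, rfl, rfl, rfl⟩ := cd_injective (show cd N x r w = cd N' x' r' w' from h4)
    exact hO.sound N x r w h5 h2 h3.symm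

theorem exists_prog' {B : Lang} (hB : B ∈ NEXPLang O) :
    ∃ (p : Prog) (c : ℕ), ∀ z T, 2 ^ (z.length ^ c + c) ≤ T → (z ∈ B ↔ Acc O p T z) := by
  obtain ⟨c, p, hp⟩ := hB
  refine ⟨p, c, fun z T hT => ⟨fun hz => ?_, fun hz => ?_⟩⟩
  · obtain ⟨t, σ', ht, h⟩ := (hp fun _ => z).2 hz
    have hs : size (fun _ : Fin 1 => z) = z.length := by simp [size]
    rw [hs] at ht
    exact ⟨t, σ', le_trans ht hT, h⟩
  · obtain ⟨t, σ', -, h⟩ := hz
    exact (hp fun _ => z).1 _ _ h

theorem exact_values {V : ℕ} (hV : 1 ≤ V) : ∃ O : List Bool → Bool, ∀ A : Finset (List Bool),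
    (V ≤ A.card → ∀ L ∈ NEXPLang O, Lᶜ ∈ WithAdvice (NEXPLang O) {f | ∀ n, f n ∈ A}) ∧
    (A.card < V → (WitLang O)ᶜ ∉ WithAdvice (NEXPLang O) {f | ∀ n, f n ∈ A}) := by
  classical
  have : Nonempty Prog := ⟨skip⟩
  obtain ⟨en, hen⟩ := exists_surjective_nat (Prog × ℕ)
  have : Nonempty {q : Prog × ℕ × Finset (List Bool) // q.2.2.card < V} :=
    ⟨⟨(skip, 0, ∅), by rw [Finset.card_empty]; omega⟩⟩
  obtain ⟨rq, hrq⟩ := exists_surjective_nat {q : Prog × ℕ × Finset (List Bool) // q.2.2.card < V}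
  obtain ⟨ν, hν, hT, hS⟩ := exists_lengths V (fun k => (rq k).1.2.1)
    (fun k => (rq k).1.2.2.sup List.length)
  obtain ⟨O, hO, hreq⟩ := exists_oracle en (fun k => (rq k).1.2.1)
    (fun k => (rq k).1.2.2.sup List.length) ν (fun k => (rq k).1.1) (fun k => (rq k).1.2.2)
    (fun k => (rq k).2) (fun k a ha => Finset.le_sup (f := List.length) ha) hν hT hS
  refine ⟨O, fun A => ⟨fun hA L hL => suffices_values hen hV (lev_lt hS) hO hA hL, fun hA => ?_⟩⟩
  rintro ⟨B, hB, f, hf, h⟩
  obtain ⟨p, c, hp⟩ := exists_prog' hB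
  obtain ⟨k, hk⟩ := hrq ⟨(p, c, A), hA⟩
  have h1 := hreq k (f (ν k)) (by rw [hk]; exact hf _)
  rw [hk] at h1
  obtain ⟨x, hx, h2⟩ := h1
  refine h2 ?_
  have h3 := Set.ext_iff.1 h x
  rw [Set.mem_compl_iff] at h3
  have h3' : x ∉ WitLang O ↔ pair x (f (ν k)) ∈ B := by rw [← hx]; exact h3
  rw [h3']
  refine hp _ _ ?_
  unfold tb
  refine Nat.pow_le_pow_right (by norm_num) (Nat.add_le_add_right (Nat.pow_le_pow_left ?_ c) c)
  rw [length_pair, hx]
  have h4 : (f (ν k)).length ≤ A.sup List.length := Finset.le_sup (f := List.length) (hf _)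
  show _ ≤ 2 * ν k + 2 + A.sup List.length
  omega

end Pool.Agent.LibNexp
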