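import Pool.Agent.LibNexp.Use
import Pool.Agent.LibNexp.Witness

/-!
Generic oracles: the census advice cannot be shortened.
-/

namespace Pool.Agent.LibNexp

open Function Filter Topology

/-- Strings of length `m`. -/
def strs (m : ℕ) : Finset (List Bool) :=
  (Finset.univ : Finset (Fin m → Bool)).image List.ofFn

theorem mem_strs {m : ℕ} {x : List Bool} : x ∈ strs m ↔ x.length = m := by
  unfold strs
  rw [Finset.mem_image]
  constructor
  · rintro ⟨v, -, rfl⟩
    simp
  · intro h
    subst h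
    exact ⟨x.get, Finset.mem_univ _, List.ofFn_get x⟩

theorem card_strs (m : ℕ) : (strs m).card = 2 ^ m := by
  unfold strs
  rw [Finset.card_image_of_injective _ List.ofFn_injective, Finset.card_univ]
  simp

/-- The advice `a` is wrong for complementing the test language at length `n`. -/
def Wrong (O : List Bool → Bool) (p : Prog) (T n : ℕ) (a : List Bool) : Prop :=
  ∃ x : List Bool, x.length = n ∧ ¬ (x ∉ WitLang O ↔ Acc O p T (pair x a))

theorem chain {O₀ : List Bool → Bool} {p : Prog} {T n : ℕ} (hT : 2 ^ n * T < 2 ^ (2 ^ n))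
    (hcon : ∀ O : List Bool → Bool, (∀ s, s.length ≠ n + 2 ^ n → O s = O₀ s) →
      ∃ a : List Bool, a.length = n ∧ ¬ Wrong O p T n a) (j : ℕ) (hj : j ≤ 2 ^ n) :
    ∃ (O : List Bool → Bool) (X Q A : Finset (List Bool)),
      (∀ s, s.length ≠ n + 2 ^ n → O s = O₀ s) ∧ X ⊆ strs n ∧ X.card = j ∧
      Q.card ≤ j * T ∧ A ⊆ strs n ∧ A.card = j ∧
      (∀ x : List Bool, x.length = n → (x ∈ WitLang O ↔ x ∈ X)) ∧
      (∀ O' : List Bool → Bool, (∀ s ∈ Q, O' s = O s) → (∀ x ∈ X, x ∈ WitLang O') →
        ∀ a ∈ A, Wrong O' p T n a) := by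
  classical
  induction j with
  | zero =>
    refine ⟨fun s => if s.length = n + 2 ^ n then false else O₀ s, ∅, ∅, ∅, ?_, by simp, by simp,
      by simp, by simp, by simp, ?_, by simp⟩
    · intro s hs
      show (if s.length = n + 2 ^ n then false else O₀ s) = O₀ s
      rw [if_neg hs]
    · intro x hx
      constructor
      · rintro ⟨w, hw, h⟩
        beta_reduce at h
        rw [if_pos (by rw [List.length_append, hw, hx])] at h
        simp at h
      · intro h; simp at h
  | succ j ih =>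
    obtain ⟨O, X, Q, A, h1, h2, h3, h4, h5, h6, h7, h8⟩ := ih (by omega)
    obtain ⟨a, ha, hwa⟩ := hcon O h1
    have haA : a ∉ A := fun h => hwa (h8 O (fun _ _ => rfl) (fun x hx =>
      (h7 x (mem_strs.1 (h2 hx))).2 hx) a h)
    obtain ⟨x, hx, hxX⟩ : ∃ x ∈ strs n, x ∉ X := by
      by_contra hcon2
      push Not at hcon2
      have := Finset.card_le_card hcon2
      rw [card_strs, h3] at this
      omega
    have hxn := mem_strs.1 hx
    have hacc : Acc O p T (pair x a) := by
      by_contra hna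
      refine hwa ⟨x, hxn, fun h => hna (h.1 ?_)⟩
      rw [h7 x hxn]
      exact hxX
    obtain ⟨Q', hQ', hQ'2⟩ := acc_use hacc
    obtain ⟨w, hw, hwQ⟩ : ∃ w ∈ strs (2 ^ n), x ++ w ∉ Q ∪ Q' := by
      by_contra hcon2
      push Not at hcon2
      have hc := Finset.card_le_card_of_injOn (fun w => x ++ w) hcon2
        (fun w _ w' _ h => List.append_cancel_left h)
      rw [card_strs] at hc
      have hc2 := Finset.card_union_le Q Q'
      have hc3 : (j + 1) * T ≤ 2 ^ n * T := Nat.mul_le_mul_right _ hj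
      rw [Nat.succ_mul] at hc3
      omega
    have hwn := mem_strs.1 hw
    refine ⟨update O (x ++ w) true, insert x X, Q ∪ Q', insert a A, ?_, ?_, ?_, ?_, ?_, ?_, ?_, ?_⟩
    · intro s hs
      rw [update_of_ne, h1 s hs]
      rintro rfl
      exact hs (by rw [List.length_append, hxn, hwn])
    · exact Finset.insert_subset hx h2
    · rw [Finset.card_insert_of_notMem hxX, h3]
    · refine le_trans (Finset.card_union_le _ _) ?_
      rw [Nat.succ_mul]
      omega
    · exact Finset.insert_subset (mem_strs.2 ha) h5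
    · rw [Finset.card_insert_of_notMem haA, h6]
    · intro y hy
      rw [Finset.mem_insert]
      constructor
      · rintro ⟨v, hv, hO⟩
        by_cases hyx : y ++ v = x ++ w
        · left
          exact (List.append_inj hyx (by rw [hy, hxn])).1
        · rw [update_of_ne hyx] at hO
          exact Or.inr ((h7 y hy).1 ⟨v, hv, hO⟩)
      · rintro (rfl | hyX)
        · exact ⟨w, by rw [hwn, hy], by rw [update_self]⟩
        · obtain ⟨v, hv, hO⟩ := (h7 y hy).2 hyX
          refine ⟨v, hv, ?_⟩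
          by_cases hyx : y ++ v = x ++ w
          · rw [hyx, update_self]
          · rw [update_of_ne hyx, hO]
    · intro O' hO' hX' b hb
      have hag : ∀ s ∈ Q ∪ Q', O' s = O s := by
        intro s hs
        rw [hO' s hs, update_of_ne]
        rintro rfl
        exact hwQ hs
      rw [Finset.mem_insert] at hb
      rcases hb with rfl | hb
      · refine ⟨x, hxn, fun h => ?_⟩
        have h9 : Acc O' p T (pair x b) :=
          hQ'2 O' fun s hs => hag s (Finset.mem_union_right _ hs)
        exact h.2 h9 (hX' x (Finset.mem_insert_self _ _))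
      · exact h8 O' (fun s hs => hag s (Finset.mem_union_left _ hs))
          (fun y hy => hX' y (Finset.mem_insert_of_mem hy)) b hb

/-- Some oracle, changed only at one length, makes all advice wrong. -/
theorem exists_bad (O₀ : List Bool → Bool) (p : Prog) {T n : ℕ} (hT : 2 ^ n * T < 2 ^ (2 ^ n)) :
    ∃ O : List Bool → Bool, (∀ s, s.length ≠ n + 2 ^ n → O s = O₀ s) ∧
      ∀ a : List Bool, a.length = n → Wrong O p T n a := by
  classical
  by_contra hcon
  push Not at hcon
  obtain ⟨O, X, Q, A, h1, h2, h3, h4, h5, h6, h7, h8⟩ := chain hT hcon (2 ^ n) le_rfl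
  have hA : A = strs n := Finset.eq_of_subset_of_card_le h5 (by rw [card_strs, h6])
  obtain ⟨a, ha, hwa⟩ := hcon O h1
  exact hwa (h8 O (fun _ _ => rfl) (fun x hx => (h7 x (mem_strs.1 (h2 hx))).2 hx) a
    (by rw [hA]; exact mem_strs.2 ha))

theorem isOpen_of_agree {φ : (List Bool → Bool) → Prop} {M : ℕ}
    (h : ∀ O O' : List Bool → Bool, (∀ s, s.length ≤ M → O s = O' s) → φ O → φ O') :
    IsOpen {O | φ O} := by
  rw [isOpen_iff_forall_mem_open]
  intro O hO
  have hfin : {s : List Bool | s.length ≤ M}.Finite := List.finite_length_le Bool M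
  refine ⟨{s : List Bool | s.length ≤ M}.pi fun s => {O s}, ?_,
    isOpen_set_pi hfin fun _ _ => isOpen_discrete _, fun s _ => rfl⟩
  intro O' hO'
  exact h O O' (fun s hs => (hO' s hs).symm) hO

theorem wrong_agree {O O' : List Bool → Bool} {p : Prog} {T n : ℕ} {a : List Bool}
    (ha : a.length = n) (hO : ∀ s, s.length ≤ (n + 2 ^ n) + (3 * n + 2 + T) → O s = O' s)
    (h : Wrong O p T n a) : Wrong O' p T n a := by
  obtain ⟨x, hx, h⟩ := h
  refine ⟨x, hx, fun h' => h ?_⟩
  have hlen : (pair x a).length = 3 * n + 2 := by rw [length_pair, hx, ha]; ring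
  have e1 : x ∈ WitLang O ↔ x ∈ WitLang O' := by
    constructor
    · rintro ⟨w, hw, h1⟩
      exact ⟨w, hw, by rw [← hO _ (by rw [List.length_append, hw, hx]; omega)]; exact h1⟩
    · rintro ⟨w, hw, h1⟩
      exact ⟨w, hw, by rw [hO _ (by rw [List.length_append, hw, hx]; omega)]; exact h1⟩
  have e2 : Acc O p T (pair x a) ↔ Acc O' p T (pair x a) :=
    ⟨acc_agree fun s hs => hO s (le_trans hs (by rw [hlen]; exact Nat.le_add_left _ _)),
      acc_agree fun s hs => (hO s (le_trans hs (by rw [hlen]; exact Nat.le_add_left _ _))).symm⟩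
  rw [e1, e2]
  exact h'

theorem eventually_large (c : ℕ) : ∀ᶠ n : ℕ in atTop, n + (3 * n + 2) ^ c + c < 2 ^ n := by
  have h1 := (isLittleO_pow_const_const_pow_of_one_lt (R := ℝ) (c + 1) (r := 2) (by norm_num)).def
    (c := 1 / (4 ^ c + 3)) (by positivity)
  filter_upwards [h1, eventually_ge_atTop (c + 2)] with n h2 h3
  have h4 : (n : ℝ) ^ (c + 1) ≤ 1 / (4 ^ c + 3) * 2 ^ n := by
    have := h2
    rw [Real.norm_of_nonneg (by positivity), Real.norm_of_nonneg (by positivity)] at this
    exact this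
  have h5 : ((4 : ℝ) ^ c + 3) * (n : ℝ) ^ (c + 1) ≤ 2 ^ n := by
    rw [one_div, inv_mul_eq_div, le_div_iff₀ (by positivity)] at h4
    linarith
  have h6 : (4 ^ c + 3) * n ^ (c + 1) ≤ 2 ^ n := by exact_mod_cast h5
  have h7 : (3 * n + 2) ^ c ≤ 4 ^ c * n ^ (c + 1) := by
    calc (3 * n + 2) ^ c ≤ (4 * n) ^ c := Nat.pow_le_pow_left (by omega) c
      _ = 4 ^ c * n ^ c := mul_pow _ _ _
      _ ≤ 4 ^ c * n ^ (c + 1) := Nat.mul_le_mul_left _ (Nat.pow_le_pow_right (by omega) (by omega))
  have h8 : n ≤ n ^ (c + 1) := Nat.le_self_pow (by omega) _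
  have h9 : (4 ^ c + 3) * n ^ (c + 1) = 4 ^ c * n ^ (c + 1) + 3 * n ^ (c + 1) := by ring
  omega

/-- The requirement met by generic oracles. -/
def Req (p : Prog) (c m : ℕ) (O : List Bool → Bool) : Prop :=
  ∃ n, m ≤ n ∧ ∀ a : List Bool, a.length = n → Wrong O p (2 ^ ((3 * n + 2) ^ c + c)) n a

theorem isOpen_req (p : Prog) (c m : ℕ) : IsOpen {O | Req p c m O} := by
  have : {O | Req p c m O} = ⋃ n, ⋃ (_ : m ≤ n), {O | ∀ a : List Bool, a.length = n →
      Wrong O p (2 ^ ((3 * n + 2) ^ c + c)) n a} := by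
    ext O
    simp [Req]
  rw [this]
  refine isOpen_iUnion fun n => isOpen_iUnion fun _ => ?_
  exact isOpen_of_agree fun O O' hO h a ha => wrong_agree ha hO (h a ha)

theorem dense_req (p : Prog) (c m : ℕ) : Dense {O | Req p c m O} := by
  rw [dense_iff_inter_open]
  rintro U hU ⟨O₀, hO₀⟩
  obtain ⟨I, u, h1, h2⟩ := isOpen_pi_iff.1 hU O₀ hO₀
  obtain ⟨M, hM⟩ : ∃ M, ∀ s ∈ I, s.length ≤ M :=
    ⟨I.sup List.length, fun s hs => Finset.le_sup (f := List.length) hs⟩
  obtain ⟨n, hn, hnm, hnM⟩ := ((eventually_large c).and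
    ((eventually_ge_atTop m).and (eventually_gt_atTop M))).exists
  have hT : 2 ^ n * 2 ^ ((3 * n + 2) ^ c + c) < 2 ^ (2 ^ n) := by
    rw [← pow_add]
    exact Nat.pow_lt_pow_right (by norm_num) (by omega)
  obtain ⟨O, hO1, hO2⟩ := exists_bad O₀ p hT
  refine ⟨O, h2 fun s hs => ?_, n, hnm, hO2⟩
  rw [hO1 s (by have := hM s hs; have := Nat.two_pow_pos n; omega)]
  exact (h1 s hs).2

theorem eventually_req : ∀ᶠ O in residual (List Bool → Bool), ∀ p c m, Req p c m O := by
  rw [eventually_countable_forall]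
  intro p
  rw [eventually_countable_forall]
  intro c
  rw [eventually_countable_forall]
  intro m
  exact residual_of_dense_open (isOpen_req p c m) (dense_req p c m)

theorem generic_main : ∀ᶠ O in residual (List Bool → Bool), ∀ B ∈ NEXPLang O,
    ∃ᶠ n in atTop, ∀ a : List Bool, a.length = n →
      ∃ x : List Bool, x.length = n ∧ ¬ (x ∉ WitLang O ↔ pair x a ∈ B) := by
  filter_upwards [eventually_req] with O hO B hB
  obtain ⟨p, c, hp⟩ := exists_prog hB
  rw [frequently_atTop]
  intro m
  obtain ⟨n, hmn, hn⟩ := hO p c m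
  refine ⟨n, hmn, fun a ha => ?_⟩
  obtain ⟨x, hx, h⟩ := hn a ha
  refine ⟨x, hx, fun h' => h ?_⟩
  rw [hp, length_pair, hx, ha] at h'
  have e1 : 2 * n + n + 2 = 3 * n + 2 := by ring
  rwa [e1] at h'

end Pool.Agent.LibNexp
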