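import Pool.Agent.LibNexp.Advice

/-!
Shrinking the advice that is needed to complement nondeterministic exponential time.
-/

namespace Pool.Agent.LibNexp

open Function

variable {O : List Bool → Bool}

/-- Advice functions of length at most `s`. -/
def AtMost (s : ℕ → ℕ) : Set (ℕ → List Bool) := {f | ∀ n, (f n).length ≤ s n}

/-- Advice functions of length exactly `s`. -/
def Exactly (s : ℕ → ℕ) : Set (ℕ → List Bool) := {f | ∀ n, (f n).length = s n}

/-- Padded advice. -/
def padded (B : Lang) (y a' : List Bool) : Prop :=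
  ∃ a, (∃ z, (∃ j, z = true :: List.replicate j false) ∧ a' = a ++ z) ∧ pair y a ∈ B

theorem nexp_padded {B : Lang} (hB : B ∈ NEXPLang O) :
    NEXP O fun e : Fin 2 → List Bool => padded B (e 0) (e 1) := by
  have h1 : NEXP O fun e : Fin 3 → List Bool =>
      ∃ z, (∃ j, app e z 3 = true :: List.replicate j false) ∧ app e z 1 = app e z 2 ++ app e z 3 := by
    refine NEXP.exists (R := fun e : Fin 4 → List Bool =>
      (∃ j, e 3 = true :: List.replicate j false) ∧ e 1 = e 2 ++ e 3)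
      (((nexp_pad (O := O)).reindex ![3]).congr (fun e => ?_) |>.and
        (((nexp_cat (O := O)).reindex ![2, 3, 1]).congr fun e => ?_)) (g := fun n => n) PolyB.id ?_
    · simp
    · simp
    · rintro e z ⟨-, h⟩
      simp only [(app3 e z).2.1, (app3 e z).2.2.1, (app3 e z).2.2.2] at h
      have e0 := len_le_size e 1
      rw [h, List.length_append] at e0
      omega
  have h2 : NEXP O fun e : Fin 3 → List Bool =>
      (∃ z, (∃ j, z = true :: List.replicate j false) ∧ e 1 = e 2 ++ z) ∧ pair (e 0) (e 2) ∈ B :=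
    (h1.congr (R' := fun e => ∃ z, (∃ j, z = true :: List.replicate j false) ∧ e 1 = e 2 ++ z)
      (fun e => Iff.rfl)).and (nexp_pair_mem hB 0 2)
  refine (NEXP.exists h2 (g := fun n => n) PolyB.id ?_).congr (fun e => Iff.rfl)
  rintro e a ⟨⟨z, -, h⟩, -⟩
  have e1 : app e a 1 = e 1 := rfl
  have e2 : app e a 2 = a := rfl
  rw [e1, e2] at h
  have e0 := len_le_size e 1
  rw [h, List.length_append] at e0
  omega

theorem padded_iff {B : Lang} {y a : List Bool} {j : ℕ} :
    padded B y (a ++ true :: List.replicate j false) ↔ pair y a ∈ B := by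
  constructor
  · rintro ⟨a', ⟨z, ⟨j', rfl⟩, h1⟩, h2⟩
    rw [pad_injective h1]
    exact h2
  · intro h
    exact ⟨a, ⟨_, ⟨j, rfl⟩, rfl⟩, h⟩

/-- One step of shrinking. -/
theorem shrink_step {L : Lang} (hL : L ∈ NEXPLang O) {p q c : ℕ} (hp : 1 ≤ p) (hq : 1 ≤ q)
    (h1 : Lᶜ ∈ WithAdvice (NEXPLang O) {f | ∀ n, q * (f n).length ≤ p * n + c})
    {s : ℕ → ℕ} (hs : Monotone s)
    (h2 : ∀ U ∈ NEXPLang O, ∃ c : ℕ, Uᶜ ∈ WithAdvice (NEXPLang O) (AtMost fun n => s n + c)) :
    ∃ c : ℕ, Lᶜ ∈ WithAdvice (NEXPLang O) (AtMost fun n => s (p * (n / q) + c) + c) := by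
  obtain ⟨B, hB, f, hf, hfB⟩ := h1
  have hfB' : ∀ x, x ∉ L ↔ pair x (f x.length) ∈ B := fun x => by
    have := Set.ext_iff.1 hfB x
    simpa using this
  set K := p + c + 1 with hK
  -- the length relation
  have hlen : ∀ r, NEXP O fun e : Fin 2 → List Bool =>
      ∃ k, (e 0).length = q * k + r ∧ (e 1).length = p * k + K := fun r => nexp_len q p r K
  have hU : ∀ r, {a | ∃ y, (∃ k, y.length = q * k + r ∧ a.length = p * k + K) ∧
      y ∈ L ∧ padded B y a} ∈ NEXPLang O := by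
    intro r
    refine (NEXP.exists (R := fun e : Fin 2 → List Bool =>
      (∃ k, (e 1).length = q * k + r ∧ (e 0).length = p * k + K) ∧ e 1 ∈ L ∧ padded B (e 1) (e 0))
      (((hlen r).reindex ![1, 0]).congr (fun e => ?_) |>.and
        ((nexp_mem hL 1).and (((nexp_padded hB).reindex ![1, 0]).congr fun e => ?_)))
      (g := fun n => q * n + r) (((PolyB.const q).mul PolyB.id).add (PolyB.const r)) ?_).congr
      fun e => Iff.rfl
    · simp
    · simp
    · rintro e z ⟨⟨k, h3, h4⟩, -⟩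
      simp only [(app1 e z).1, (app1 e z).2] at h3 h4
      have e0 := len_le_size e 0
      have e1 : k ≤ p * k := Nat.le_mul_of_pos_left _ hp
      have e2 : q * k ≤ q * size e := Nat.mul_le_mul_left _ (by omega)
      show _ ≤ q * size e + r
      omega
  choose c' B' hB' f' hf' hfB1 using fun r => h2 _ (hU r)
  have hfB1' : ∀ r a, (¬ ∃ y, (∃ k, y.length = q * k + r ∧ a.length = p * k + K) ∧
      y ∈ L ∧ padded B y a) ↔ pair a (f' r a.length) ∈ B' r := fun r a => by
    have := Set.ext_iff.1 (hfB1 r) a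
    simpa using this
  -- the new advice relation
  have hC : NEXP O fun e : Fin 2 → List Bool => ∃ r ∈ Finset.range q,
      ∃ z, (∃ k, (e 0).length = q * k + r ∧ z.length = p * k + K) ∧
      padded B (e 0) z ∧ pair z (e 1) ∈ B' r := by
    refine NEXP.finite_exists _ fun r _ => ?_
    refine (NEXP.exists (R := fun e : Fin 3 → List Bool =>
      (∃ k, (e 0).length = q * k + r ∧ (e 2).length = p * k + K) ∧ padded B (e 0) (e 2) ∧
        pair (e 2) (e 1) ∈ B' r)
      (((hlen r).reindex ![0, 2]).congr (fun e => ?_) |>.and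
        ((((nexp_padded hB).reindex ![0, 2]).congr fun e => ?_).and (nexp_pair_mem (hB' r) 2 1)))
      (g := fun n => p * n + K) (((PolyB.const p).mul PolyB.id).add (PolyB.const K)) ?_).congr
      fun e => Iff.rfl
    · simp
    · simp
    · rintro e z ⟨⟨k, h3, h4⟩, -⟩
      simp only [(app2 e z).1, (app2 e z).2.2] at h3 h4
      have e0 := len_le_size e 0
      have e1 : k ≤ q * k := Nat.le_mul_of_pos_left _ hq
      have e2 : p * k ≤ p * size e := Nat.mul_le_mul_left _ (by omega)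
      show _ ≤ p * size e + K
      omega
  obtain ⟨D, hD, hDC⟩ := rel_of_nexp (C := fun x b => ∃ r ∈ Finset.range q,
      ∃ z, (∃ k, x.length = q * k + r ∧ z.length = p * k + K) ∧
      padded B x z ∧ pair z b ∈ B' r) hC
  refine ⟨K + ∑ r ∈ Finset.range q, c' r, D, hD,
    fun n => f' (n % q) (p * (n / q) + K), fun n => ?_, ?_⟩
  · have h3 : (f' (n % q) (p * (n / q) + K)).length ≤ s (p * (n / q) + K) + c' (n % q) := hf' _ _
    have h4 : c' (n % q) ≤ ∑ r ∈ Finset.range q, c' r :=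
      Finset.single_le_sum (f := c') (fun _ _ => Nat.zero_le _)
        (Finset.mem_range.2 (Nat.mod_lt _ hq))
    have h5 : s (p * (n / q) + K) ≤ s (p * (n / q) + (K + ∑ r ∈ Finset.range q, c' r)) :=
      hs (by omega)
    show (f' (n % q) (p * (n / q) + K)).length ≤
      s (p * (n / q) + (K + ∑ r ∈ Finset.range q, c' r)) + (K + ∑ r ∈ Finset.range q, c' r)
    omega
  · ext x
    show x ∉ L ↔ pair x _ ∈ D
    rw [hDC]
    constructor
    · intro hx
      have hpx := (hfB' x).1 hx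
      set n := x.length with hn
      set k := n / q with hk
      set r := n % q with hr
      have hnk : n = q * k + r := (Nat.div_add_mod n q).symm
      have hrq : r < q := Nat.mod_lt _ hq
      have hfn : (f n).length ≤ p * k + p + c := by
        have h3 : q * (f n).length ≤ p * n + c := hf n
        have h4 : p * n + c ≤ q * (p * k + p + c) := by
          rw [hnk]
          have : p * r ≤ p * q := Nat.mul_le_mul_left _ hrq.le
          have : c ≤ q * c := Nat.le_mul_of_pos_left _ hq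
          nlinarith
        exact Nat.le_of_mul_le_mul_left (le_trans h3 h4) hq
      refine ⟨r, Finset.mem_range.2 hrq,
        f n ++ true :: List.replicate (p * k + p + c - (f n).length) false,
        ⟨k, hnk, ?_⟩, padded_iff.2 hpx, ?_⟩
      · simp only [List.length_append, List.length_cons, List.length_replicate, hK]
        omega
      · have hl : (f n ++ true :: List.replicate (p * k + p + c - (f n).length) false).length =
            p * k + K := by
          simp only [List.length_append, List.length_cons, List.length_replicate, hK]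
          omega
        have h3 := (hfB1' r (f n ++ true :: List.replicate (p * k + p + c - (f n).length) false)).1
          (by
            rintro ⟨y, ⟨k', hk1, hk2⟩, hyL, hy⟩
            rw [hl] at hk2
            have hkk : k' = k := Nat.eq_of_mul_eq_mul_left hp (by omega)
            subst hkk
            have hyn : y.length = n := by omega
            rw [padded_iff, ← hyn, ← hfB'] at hy
            exact hy hyL)
        rwa [hl] at h3
    · rintro ⟨r, hr, z, ⟨k, hk1, hk2⟩, hz1, hz2⟩ hx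
      rw [Finset.mem_range] at hr
      have e1 : x.length % q = r := by
        rw [hk1, Nat.mul_add_mod, Nat.mod_eq_of_lt hr]
      have e2 : x.length / q = k := by
        rw [hk1, Nat.mul_add_div hq, Nat.div_eq_of_lt hr, add_zero]
      simp only [e1, e2] at hz2
      rw [← hk2] at hz2
      exact (hfB1' r z).2 hz2 ⟨x, ⟨k, hk1, hk2⟩, hx, hz1⟩

/-- `η n + O(1)` bits of advice suffice to complement. -/
def Lin (O : List Bool → Bool) (η : ℝ) : Prop :=
  ∀ L ∈ NEXPLang O, ∃ c : ℝ, Lᶜ ∈ WithAdvice (NEXPLang O) {f | ∀ n : ℕ, ((f n).length : ℝ) ≤ η * n + c}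

theorem WithAdvice.mono {𝒞 : Set Lang} {ℱ ℱ' : Set (ℕ → List Bool)} {A : Lang}
    (h : ∀ f, f ∈ ℱ → f ∈ ℱ') (hA : A ∈ WithAdvice 𝒞 ℱ) : A ∈ WithAdvice 𝒞 ℱ' := by
  obtain ⟨B, hB, f, hf, h1⟩ := hA
  exact ⟨B, hB, f, h f hf, h1⟩

theorem Lin.mono {η η' : ℝ} (h : Lin O η) (hη : η ≤ η') : Lin O η' := by
  intro L hL
  obtain ⟨c, hc⟩ := h L hL
  refine ⟨c, WithAdvice.mono (fun f hf n => ?_) hc⟩
  have := hf n
  have h3 : η * n ≤ η' * n := mul_le_mul_of_nonneg_right hη (Nat.cast_nonneg n)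
  linarith

theorem Lin.step {q : ℕ} (hq : 2 ≤ q) {η : ℝ} (hη : 0 ≤ η) (h1 : Lin O (((q : ℝ) - 1) / q))
    (h2 : Lin O η) : Lin O (η * (((q : ℝ) - 1) / q)) := by
  intro L hL
  obtain ⟨c, hc⟩ := h1 L hL
  have hq0 : (0 : ℝ) < q := by exact_mod_cast (by omega : 0 < q)
  have hcast : (((q - 1 : ℕ)) : ℝ) = (q : ℝ) - 1 := by
    rw [Nat.cast_sub (by omega)]; simp
  have h3 : Lᶜ ∈ WithAdvice (NEXPLang O)
      {f | ∀ n, q * (f n).length ≤ (q - 1) * n + ⌈(q : ℝ) * |c|⌉₊} := by
    refine WithAdvice.mono (fun f hf n => ?_) hc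
    have h4 : ((f n).length : ℝ) ≤ ((q : ℝ) - 1) / q * n + c := hf n
    have h5 : (q : ℝ) * (f n).length ≤ ((q : ℝ) - 1) * n + q * |c| := by
      have : (q : ℝ) * (f n).length ≤ q * (((q : ℝ) - 1) / q * n + c) :=
        mul_le_mul_of_nonneg_left h4 hq0.le
      have e1 : (q : ℝ) * (((q : ℝ) - 1) / q * n + c) = ((q : ℝ) - 1) * n + q * c := by
        field_simp
      rw [e1] at this
      have h6 : q * c ≤ q * |c| := mul_le_mul_of_nonneg_left (le_abs_self c) hq0.le
      linarith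
    have h6 : (q : ℝ) * |c| ≤ ⌈(q : ℝ) * |c|⌉₊ := Nat.le_ceil _
    have h7 : ((q * (f n).length : ℕ) : ℝ) ≤ (((q - 1) * n + ⌈(q : ℝ) * |c|⌉₊ : ℕ) : ℝ) := by
      push_cast
      rw [hcast]
      linarith
    exact_mod_cast h7
  obtain ⟨c1, hc1⟩ := shrink_step (O := O) hL (p := q - 1) (q := q) (by omega) (by omega) h3
    (s := fun n => ⌊η * n⌋₊) (fun a b hab => Nat.floor_mono
      (mul_le_mul_of_nonneg_left (by exact_mod_cast hab) hη)) (fun U hU => by
      obtain ⟨c2, hc2⟩ := h2 U hU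
      refine ⟨⌈|c2|⌉₊ + 1, WithAdvice.mono (fun f hf n => ?_) hc2⟩
      have h4 : ((f n).length : ℝ) ≤ η * n + c2 := hf n
      have h5 : η * n < ⌊η * n⌋₊ + 1 := Nat.lt_floor_add_one _
      have h6 : |c2| ≤ ⌈|c2|⌉₊ := Nat.le_ceil _
      have h7 : ((f n).length : ℝ) < ((⌊η * n⌋₊ + (⌈|c2|⌉₊ + 1) : ℕ) : ℝ) := by
        push_cast
        have := le_abs_self c2
        linarith
      show (f n).length ≤ ⌊η * n⌋₊ + (⌈|c2|⌉₊ + 1)
      exact_mod_cast h7.le)
  refine ⟨η * c1 + c1, WithAdvice.mono (fun f hf n => ?_) hc1⟩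
  have h4 : (f n).length ≤ ⌊η * ((q - 1) * (n / q) + c1 : ℕ)⌋₊ + c1 := hf n
  have h5 : (⌊η * ((q - 1) * (n / q) + c1 : ℕ)⌋₊ : ℝ) ≤ η * ((q - 1) * (n / q) + c1 : ℕ) :=
    Nat.floor_le (mul_nonneg hη (Nat.cast_nonneg _))
  have h6 : ((n / q : ℕ) : ℝ) ≤ n / q := Nat.cast_div_le
  have h7 : (((q - 1) * (n / q) + c1 : ℕ) : ℝ) ≤ ((q : ℝ) - 1) * (n / q) + c1 := by
    push_cast
    rw [hcast]
    have : (0 : ℝ) ≤ (q : ℝ) - 1 := by
      have : (2 : ℝ) ≤ q := by exact_mod_cast hq
      linarith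
    have := mul_le_mul_of_nonneg_left h6 this
    linarith
  have h8 : ((f n).length : ℝ) ≤ η * ((q - 1) * (n / q) + c1 : ℕ) + c1 := by
    have : ((f n).length : ℝ) ≤ ⌊η * ((q - 1) * (n / q) + c1 : ℕ)⌋₊ + c1 := by exact_mod_cast h4
    linarith
  have h9 : η * ((q - 1) * (n / q) + c1 : ℕ) ≤ η * (((q : ℝ) - 1) * (n / q) + c1) :=
    mul_le_mul_of_nonneg_left h7 hη
  have e2 : η * (((q : ℝ) - 1) * (n / q) + c1) = η * (((q : ℝ) - 1) / q) * n + η * c1 := by
    field_simp
  show ((f n).length : ℝ) ≤ η * (((q : ℝ) - 1) / q) * n + (η * c1 + c1)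
  linarith

theorem Lin.law {δ : ℝ} (hδ : δ < 1) (h : Lin O δ) {ε : ℝ} (hε : 0 < ε) : Lin O ε := by
  obtain ⟨q, hq⟩ : ∃ q : ℕ, 2 ≤ q ∧ δ ≤ ((q : ℝ) - 1) / q := by
    obtain ⟨m, hm⟩ := exists_nat_gt (1 / (1 - δ))
    refine ⟨m + 2, by omega, ?_⟩
    have h1 : 0 < 1 - δ := by linarith
    have h2 : (0 : ℝ) < ((m + 2 : ℕ) : ℝ) := by positivity
    rw [le_div_iff₀ h2]
    have h3 : 1 < m * (1 - δ) := by rwa [div_lt_iff₀ h1] at hm
    push_cast
    nlinarith
  set ρ : ℝ := ((q : ℝ) - 1) / q with hρ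
  have hq0 : (2 : ℝ) ≤ q := by exact_mod_cast hq.1
  have hρ0 : 0 ≤ ρ := div_nonneg (by linarith) (by linarith)
  have hρ1 : ρ < 1 := by rw [hρ, div_lt_one (by linarith)]; linarith
  have h1 : Lin O ρ := h.mono hq.2
  have h2 : ∀ j, Lin O (ρ ^ (j + 1)) := by
    intro j
    induction j with
    | zero => simpa using h1
    | succ j ih =>
      rw [pow_succ]
      exact Lin.step hq.1 (pow_nonneg hρ0 _) h1 ih
  obtain ⟨j, hj⟩ := exists_pow_lt_of_lt_one hε hρ1
  exact (h2 j).mono (le_trans (pow_le_pow_of_le_one hρ0 hρ1.le (Nat.le_succ j)) hj.le)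

/-- The general form of the law. -/
theorem general_law {s : ℕ → ℕ} (hs : Monotone s) {δ c : ℝ} (hδ : δ < 1)
    (hsδ : ∀ n : ℕ, (s n : ℝ) ≤ δ * n + c)
    (h : ∀ L ∈ NEXPLang O, ∃ c : ℕ, Lᶜ ∈ WithAdvice (NEXPLang O) (AtMost fun n => s n + c))
    {N : ℕ} (hN : 1 ≤ N) : ∀ L ∈ NEXPLang O, ∃ c : ℕ,
      Lᶜ ∈ WithAdvice (NEXPLang O) (AtMost fun n => s (n / N + c) + c) := by
  have h1 : Lin O δ := by
    intro L hL
    obtain ⟨c1, hc1⟩ := h L hL
    refine ⟨c + c1, WithAdvice.mono (fun f hf n => ?_) hc1⟩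
    have h2 : (f n).length ≤ s n + c1 := hf n
    have h3 : ((f n).length : ℝ) ≤ s n + c1 := by exact_mod_cast h2
    have := hsδ n
    show ((f n).length : ℝ) ≤ δ * n + (c + c1)
    linarith
  have hN0 : (0 : ℝ) < N := by exact_mod_cast hN
  have h2 : Lin O (1 / N) := h1.law hδ (by positivity)
  intro L hL
  obtain ⟨c1, hc1⟩ := h2 L hL
  have h3 : Lᶜ ∈ WithAdvice (NEXPLang O) {f | ∀ n, N * (f n).length ≤ 1 * n + ⌈(N : ℝ) * |c1|⌉₊} := by
    refine WithAdvice.mono (fun f hf n => ?_) hc1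
    have h4 : ((f n).length : ℝ) ≤ 1 / N * n + c1 := hf n
    have h5 : (N : ℝ) * (f n).length ≤ n + N * |c1| := by
      have : (N : ℝ) * (f n).length ≤ N * (1 / N * n + c1) := mul_le_mul_of_nonneg_left h4 hN0.le
      have e1 : (N : ℝ) * (1 / N * n + c1) = n + N * c1 := by field_simp
      rw [e1] at this
      have h6 : N * c1 ≤ N * |c1| := mul_le_mul_of_nonneg_left (le_abs_self c1) hN0.le
      linarith
    have h6 : (N : ℝ) * |c1| ≤ ⌈(N : ℝ) * |c1|⌉₊ := Nat.le_ceil _
    have h7 : ((N * (f n).length : ℕ) : ℝ) ≤ ((1 * n + ⌈(N : ℝ) * |c1|⌉₊ : ℕ) : ℝ) := by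
      push_cast
      linarith
    exact_mod_cast h7
  obtain ⟨c2, hc2⟩ := shrink_step (O := O) hL (p := 1) (q := N) le_rfl hN h3 hs h
  exact ⟨c2, by simpa only [one_mul] using hc2⟩

end Pool.Agent.LibNexp
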