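import Pool.Agent.LibNexp.Growth

/-!
Elementary relations on strings and on their lengths recognised by simple programs.
-/

namespace Pool.Agent.LibNexp

open Function

variable {O : List Bool → Bool}

/-- A program doing nothing. -/
def skip : Prog := .star (.empty 0)

theorem run_skip {t : ℕ} {σ σ' : State} (h : Run O skip t σ σ') : σ' = σ := run_star_empty h

theorem run_skip' (σ : State) : Run O skip 0 σ σ := Iter.nil σ

theorem iter_back {R : ℕ → State → State → Prop} {J : State → Prop}
    (h : ∀ t σ τ, R t σ τ → J τ → J σ) {t : ℕ} {σ σ' : State} (hi : Iter R t σ σ') (hJ : J σ') :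
    J σ := by
  induction hi with
  | nil σ => exact hJ
  | cons h1 _ ih => exact h _ _ _ h1 (ih hJ)

/-- Pop `n` bits. -/
def popN (r : ℕ) : ℕ → Prog
  | 0 => skip
  | n + 1 => .seq (popAny r) (popN r n)

theorem popN_sound {r : ℕ} : ∀ {n t : ℕ} {σ σ' : State}, Run O (popN r n) t σ σ' →
    (σ r).length = (σ' r).length + n ∧ ∀ s, s ≠ r → σ' s = σ s := by
  intro n
  induction n with
  | zero => intro t σ σ' h; rw [run_skip h]; simp
  | succ n ih =>
    rintro t σ σ' ⟨t1, t2, τ, rfl, h1, h2⟩
    obtain ⟨b, l, h3, -, rfl⟩ := run_popAny.1 h1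
    obtain ⟨h4, h5⟩ := ih h2
    rw [update_self] at h4
    refine ⟨by rw [h3, List.length_cons, h4]; omega, fun s hs => ?_⟩
    rw [h5 s hs, update_of_ne hs]

theorem popN_complete {r : ℕ} : ∀ {n : ℕ} {σ : State}, n ≤ (σ r).length →
    Run O (popN r n) n σ (update σ r ((σ r).drop n)) := by
  intro n
  induction n with
  | zero =>
    intro σ _
    rw [List.drop_zero, update_eq_self]
    exact run_skip' σ
  | succ n ih =>
    intro σ h
    obtain ⟨b, l, hl⟩ : ∃ b l, σ r = b :: l := by
      cases h1 : σ r with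
      | nil => rw [h1] at h; simp at h
      | cons b l => exact ⟨b, l, rfl⟩
    have h2 := ih (σ := update σ r l) (by rw [update_self]; rw [hl] at h; simpa using h)
    rw [update_self, update_idem] at h2
    exact ⟨1, n, _, by omega, run_popAny.2 ⟨b, l, hl, rfl, rfl⟩, by rw [hl]; exact h2⟩

/-- Pop a fixed word. -/
def popW (r : ℕ) : List Bool → Prog
  | [] => skip
  | b :: w => .seq (.pop r b) (popW r w)

theorem popW_sound {r : ℕ} : ∀ {w : List Bool} {t : ℕ} {σ σ' : State}, Run O (popW r w) t σ σ' →
    σ r = w ++ σ' r ∧ ∀ s, s ≠ r → σ' s = σ s := by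
  intro w
  induction w with
  | nil => intro t σ σ' h; rw [run_skip h]; simp
  | cons b w ih =>
    rintro t σ σ' ⟨t1, t2, τ, rfl, ⟨-, l, h3, rfl⟩, h2⟩
    obtain ⟨h4, h5⟩ := ih h2
    rw [update_self] at h4
    refine ⟨by rw [h3, h4]; rfl, fun s hs => ?_⟩
    rw [h5 s hs, update_of_ne hs]

theorem popW_complete {r : ℕ} : ∀ {w l : List Bool} {σ : State}, σ r = w ++ l →
    Run O (popW r w) w.length σ (update σ r l) := by
  intro w
  induction w with
  | nil =>
    intro l σ h
    have : update σ r l = σ := by rw [show l = σ r from h.symm]; simp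
    rw [this]
    exact run_skip' σ
  | cons b w ih =>
    intro l σ h
    have h2 := ih (l := l) (σ := update σ r (w ++ l)) (by rw [update_self])
    rw [update_idem] at h2
    exact ⟨1, w.length, _, by simp; omega, ⟨rfl, _, h, rfl⟩, h2⟩

/-- Read `x` completely and pop its image under a substitution from `z`. -/
def matching (x z : ℕ) (c : Bool → List Bool) : Prog :=
  .seq (.star (.alt (.seq (.pop x false) (popW z (c false)))
    (.seq (.pop x true) (popW z (c true))))) (.empty x)

theorem matching_sound {x z : ℕ} (hxz : x ≠ z) {c : Bool → List Bool} {t : ℕ} {σ σ' : State}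
    (h : Run O (matching x z c) t σ σ') :
    σ z = (σ x).flatMap c ++ σ' z ∧ σ' x = [] ∧ ∀ s, s ≠ x → s ≠ z → σ' s = σ s := by
  obtain ⟨t1, t2, τ, -, h1, -, h2, rfl⟩ := h
  suffices H : ∀ ρ : State, Iter (Run O (.alt (.seq (.pop x false) (popW z (c false)))
      (.seq (.pop x true) (popW z (c true))))) t1 ρ σ' →
      (ρ z = (ρ x).flatMap c ++ σ' z) ∧ ∀ s, s ≠ x → s ≠ z → σ' s = ρ s from
    ⟨(H σ h1).1, h2, (H σ h1).2⟩
  intro ρ hρ
  refine iter_back (J := fun ρ => (ρ z = (ρ x).flatMap c ++ σ' z) ∧
    ∀ s, s ≠ x → s ≠ z → σ' s = ρ s) ?_ hρ ⟨by rw [h2]; simp, fun _ _ _ => rfl⟩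
  have key : ∀ b t ρ τ, Run O (.seq (.pop x b) (popW z (c b))) t ρ τ →
      ((τ z = (τ x).flatMap c ++ σ' z) ∧ ∀ s, s ≠ x → s ≠ z → σ' s = τ s) →
      ((ρ z = (ρ x).flatMap c ++ σ' z) ∧ ∀ s, s ≠ x → s ≠ z → σ' s = ρ s) := by
    rintro b t ρ τ ⟨t1, t2, υ, -, ⟨-, l, h3, rfl⟩, h4⟩ ⟨h5, h6⟩
    obtain ⟨h7, h8⟩ := popW_sound h4
    rw [update_of_ne (Ne.symm hxz)] at h7
    have h9 : τ x = l := by rw [h8 x hxz, update_self]
    constructor
    · rw [h7, h5, h9, h3]
      simp
    · intro s hs1 hs2
      rw [h6 s hs1 hs2, h8 s hs2, update_of_ne hs1]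
  rintro t ρ τ (h | h)
  · exact key _ _ _ _ h
  · exact key _ _ _ _ h

theorem matching_complete {x z : ℕ} (hxz : x ≠ z) {c : Bool → List Bool} {K : ℕ}
    (hc : ∀ b, (c b).length ≤ K) {l : List Bool} {σ : State}
    (h : σ z = (σ x).flatMap c ++ l) :
    ∃ t, t ≤ (K + 1) * (σ x).length + 1 ∧
      Run O (matching x z c) t σ (update (update σ x []) z l) := by
  suffices H : ∀ (w : List Bool) (ρ : State), ρ x = w → ρ z = w.flatMap c ++ l →
      ∃ t, t ≤ (K + 1) * w.length ∧
        Iter (Run O (.alt (.seq (.pop x false) (popW z (c false)))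
      (.seq (.pop x true) (popW z (c true))))) t ρ (update (update ρ x []) z l) by
    obtain ⟨t, ht, h1⟩ := H (σ x) σ rfl h
    refine ⟨t + 1, by omega, t, 1, _, rfl, h1, rfl, ?_, rfl⟩
    rw [update_of_ne hxz, update_self]
  intro w
  induction w with
  | nil =>
    intro ρ h1 h2
    have : update (update ρ x []) z l = ρ := by
      have e1 : update ρ x [] = ρ := by rw [← h1]; simp
      rw [e1, show l = ρ z from h2.symm]
      simp
    rw [this]
    exact ⟨0, by simp, Iter.nil _⟩
  | cons b w ih =>
    intro ρ h1 h2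
    rw [List.flatMap_cons, List.append_assoc] at h2
    obtain ⟨t, ht, h3⟩ := ih (update (update ρ x w) z (w.flatMap c ++ l))
      (by rw [update_of_ne hxz, update_self]) (by rw [update_self])
    have h4 : Run O (.seq (.pop x b) (popW z (c b))) (1 + (c b).length) ρ
        (update (update ρ x w) z (w.flatMap c ++ l)) :=
      ⟨1, (c b).length, _, rfl, ⟨rfl, w, h1, rfl⟩, popW_complete (by
        rw [update_of_ne (Ne.symm hxz)]; exact h2)⟩
    have h5 : Run O (.alt (.seq (.pop x false) (popW z (c false)))
      (.seq (.pop x true) (popW z (c true)))) (1 + (c b).length) ρ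
        (update (update ρ x w) z (w.flatMap c ++ l)) := by
      cases b
      · exact Or.inl h4
      · exact Or.inr h4
    refine ⟨1 + (c b).length + t, ?_, ?_⟩
    · have := hc b
      rw [List.length_cons, mul_add]
      omega
    · have h6 := Iter.cons h5 h3
      convert h6 using 1
      funext s
      by_cases hs : s = z
      · subst hs; simp
      · by_cases hs' : s = x
        · subst hs'; simp [hs]
        · simp [hs, hs']

/-- Membership from a program and a polynomial time bound. -/
theorem nexp_of_prog {k : ℕ} {R : (Fin k → List Bool) → Prop} (p : Prog) {T : ℕ → ℕ}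
    (hT : PolyB T) (h1 : ∀ e t σ', Run O p t (init e) σ' → R e)
    (h2 : ∀ e, R e → ∃ t σ', t ≤ T (size e) ∧ Run O p t (init e) σ') : NEXP O R :=
  nexp_iff.2 ⟨T, EP.of_poly hT, p, fun e => ⟨h1 e, h2 e⟩⟩

theorem len_le_size {k : ℕ} (e : Fin k → List Bool) (j : Fin k) : (e j).length ≤ size e :=
  Finset.single_le_sum (f := fun i => (e i).length) (fun _ _ => Nat.zero_le _)
      (Finset.mem_univ _)

theorem init0 {k : ℕ} (e : Fin (k + 1) → List Bool) : init e 0 = e 0 := by
  simpa using init_apply e (0 : Fin (k + 1))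

theorem init1 {k : ℕ} (e : Fin (k + 2) → List Bool) : init e 1 = e 1 := by
  simpa using init_apply e (1 : Fin (k + 2))

theorem init2 {k : ℕ} (e : Fin (k + 3) → List Bool) : init e 2 = e 2 := by
  have := init_apply e (2 : Fin (k + 3))
  have h2 : ((2 : Fin (k + 3)) : ℕ) = 2 := by
    rw [Fin.val_two]
  rwa [h2] at this

/-- Substitution into a marked pair: `z` is the image of `x`, then the word `w`, then the
image of `y`. -/
theorem nexp_subst (c d : Bool → List Bool) (w : List Bool) :
    NEXP O fun e : Fin 3 → List Bool => e 2 = (e 0).flatMap c ++ w ++ (e 1).flatMap d := by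
  obtain ⟨K, hK⟩ : ∃ K, ∀ b, (c b).length ≤ K ∧ (d b).length ≤ K := by
    refine ⟨(c false).length + (c true).length + (d false).length + (d true).length, fun b => ?_⟩
    cases b
    · constructor <;> omega
    · constructor <;> omega
  refine nexp_of_prog (.seq (matching 0 2 c) (.seq (popW 2 w) (.seq (matching 1 2 d) (.empty 2))))
    (T := fun n => (2 * (K + 1)) * n + (w.length + 3))
    (((PolyB.const _).mul PolyB.id).add (PolyB.const _)) ?_ ?_
  · rintro e t σ' ⟨t1, t2, τ1, -, h1, t3, t4, τ2, -, h2, t5, t6, τ3, -, h3, -, h4, rfl⟩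
    obtain ⟨a1, a2, a3⟩ := matching_sound (by norm_num) h1
    obtain ⟨b1, b2⟩ := popW_sound h2
    obtain ⟨c1, c2, c3⟩ := matching_sound (by norm_num) h3
    rw [init2, init0, b1, c1, h4, List.append_nil, b2 1 (by norm_num),
      a3 1 (by norm_num) (by norm_num), init1] at a1
    rw [a1, List.append_assoc]
  · intro e he
    have h0 : init e 2 = (init e 0).flatMap c ++ (w ++ (e 1).flatMap d) := by
      rw [init2, init0, he, List.append_assoc]
    obtain ⟨t1, ht1, h1⟩ := matching_complete (O := O) (by norm_num) (fun b => (hK b).1) h0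
    have h2 := popW_complete (O := O) (r := 2) (w := w) (l := (e 1).flatMap d)
      (σ := update (update (init e) 0 []) 2 (w ++ (e 1).flatMap d)) (by rw [update_self])
    rw [update_idem] at h2
    obtain ⟨t3, ht3, h3⟩ := matching_complete (O := O) (x := 1) (z := 2) (by norm_num)
      (fun b => (hK b).2) (l := []) (σ := update (update (init e) 0 []) 2 ((e 1).flatMap d))
      (by rw [update_self, update_of_ne (by norm_num), update_of_ne (by norm_num), init1,
        List.append_nil])
    have h4 : Run O (.seq (matching 0 2 c) (.seq (popW 2 w) (.seq (matching 1 2 d) (.empty 2))))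
        (t1 + (w.length + (t3 + 1))) (init e) _ :=
      ⟨_, _, _, rfl, h1, _, _, _, rfl, h2, _, _, _, rfl, h3, rfl, by rw [update_self], rfl⟩
    refine ⟨_, _, ?_, h4⟩
    rw [init0] at ht1
    rw [update_of_ne (by norm_num), update_of_ne (by norm_num), init1] at ht3
    have e1 := len_le_size e 0
    have e2 := len_le_size e 1
    have e3 : (K + 1) * (e 0).length ≤ (K + 1) * size e := Nat.mul_le_mul_left _ e1
    have e4 : (K + 1) * (e 1).length ≤ (K + 1) * size e := Nat.mul_le_mul_left _ e2
    have e5 : 2 * (K + 1) * size e = (K + 1) * size e + (K + 1) * size e := by ring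
    omega

/-- A relation between two lengths. -/
theorem nexp_len (p q r s : ℕ) : NEXP O fun e : Fin 2 → List Bool =>
    ∃ k, (e 0).length = p * k + r ∧ (e 1).length = q * k + s := by
  refine nexp_of_prog (.seq (.star (.seq (popN 0 p) (popN 1 q))) (.seq (popN 0 r)
    (.seq (popN 1 s) (.seq (.empty 0) (.empty 1)))))
    (T := fun n => 2 * (n + 1)) ((PolyB.const _).mul PolyB.id.succ) ?_ ?_
  · rintro e t σ' ⟨t1, t2, τ1, -, h1, t3, t4, τ2, -, h2, t5, t6, τ3, -, h3, t7, t8, τ4, -,
      ⟨-, h4, rfl⟩, -, h5, rfl⟩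
    obtain ⟨a1, a2⟩ := popN_sound h2
    obtain ⟨b1, b2⟩ := popN_sound h3
    have c1 : (τ1 0).length = r := by
      rw [a1, ← b2 0 (by norm_num), h4]; simp
    have c2 : (τ1 1).length = s := by
      rw [← a2 1 (by norm_num), b1, h5]; simp
    have := iter_back (J := fun σ => ∃ k, (σ 0).length = p * k + r ∧
      (σ 1).length = q * k + s) (by
        rintro t σ τ ⟨t1, t2, υ, -, h6, h7⟩ ⟨k, h8, h9⟩
        obtain ⟨d1, d2⟩ := popN_sound h6
        obtain ⟨f1, f2⟩ := popN_sound h7
        refine ⟨k + 1, ?_, ?_⟩
        · rw [d1, ← f2 0 (by norm_num), h8]; ring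
        · rw [← d2 1 (by norm_num), f1, h9]; ring) h1 ⟨0, by simpa using c1, by simpa using c2⟩
    rwa [init0, init1] at this
  · rintro e ⟨k, hk0, hk1⟩
    suffices H : ∀ (k : ℕ) (σ : State), (σ 0).length = p * k + r → (σ 1).length = q * k + s →
        (∃ t, t ≤ p * k + q * k ∧ Iter (Run O (.seq (popN 0 p) (popN 1 q))) t σ
          (update (update σ 0 ((σ 0).drop (p * k))) 1 ((σ 1).drop (q * k)))) by
      obtain ⟨t, ht, h1⟩ := H k (init e) (by rw [init0]; exact hk0) (by rw [init1]; exact hk1)
      rw [init0, init1] at h1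
      set τ1 := update (update (init e) 0 (List.drop (p * k) (e 0))) 1 (List.drop (q * k) (e 1))
        with hτ1
      have l0 : (τ1 0).length = r := by
        rw [hτ1, update_of_ne (by norm_num), update_self, List.length_drop, hk0]; omega
      have l1 : (τ1 1).length = s := by
        rw [hτ1, update_self, List.length_drop, hk1]; omega
      have h2 := popN_complete (O := O) (r := 0) (n := r) (σ := τ1) (by omega)
      set τ2 := update τ1 0 (List.drop r (τ1 0)) with hτ2
      have l2 : (τ2 1).length = s := by rw [hτ2, update_of_ne (by norm_num), l1]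
      have h3 := popN_complete (O := O) (r := 1) (n := s) (σ := τ2) (by omega)
      set τ3 := update τ2 1 (List.drop s (τ2 1)) with hτ3
      have l3 : τ3 1 = [] := by
        rw [hτ3, update_self]; exact List.drop_eq_nil_of_le (by omega)
      have l4 : τ3 0 = [] := by
        rw [hτ3, update_of_ne (by norm_num), hτ2, update_self]
        exact List.drop_eq_nil_of_le (by omega)
      refine ⟨t + (r + (s + (1 + 1))), τ3, ?_, _, _, _, rfl, h1, _, _, _, rfl, h2, _, _, _, rfl, h3,
        _, _, _, rfl, ⟨rfl, l4, rfl⟩, rfl, l3, rfl⟩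
      have e0 := len_le_size e 0
      have e1 := len_le_size e 1
      show _ ≤ 2 * (size e + 1)
      omega
    intro k
    induction k with
    | zero => intro σ _ _; exact ⟨0, by simp, by simpa using Iter.nil _⟩
    | succ k ih =>
      intro σ h0 h1
      rw [mul_add, mul_one] at h0 h1
      have a1 := popN_complete (O := O) (r := 0) (n := p) (σ := σ) (by omega)
      set τ1 := update σ 0 (List.drop p (σ 0)) with hτ1
      have a2 := popN_complete (O := O) (r := 1) (n := q) (σ := τ1) (by
        rw [hτ1, update_of_ne (by norm_num)]; omega)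
      set τ2 := update τ1 1 (List.drop q (τ1 1)) with hτ2
      have b0 : τ2 0 = List.drop p (σ 0) := by
        rw [hτ2, update_of_ne (by norm_num), hτ1, update_self]
      have b1 : τ2 1 = List.drop q (σ 1) := by
        rw [hτ2, update_self, hτ1, update_of_ne (by norm_num)]
      obtain ⟨t, ht, h3⟩ := ih τ2 (by rw [b0, List.length_drop]; omega)
        (by rw [b1, List.length_drop]; omega)
      refine ⟨p + q + t, by rw [mul_add, mul_add, mul_one, mul_one]; omega, ?_⟩
      have h4 := Iter.cons (R := Run O (.seq (popN 0 p) (popN 1 q))) ⟨p, q, τ1, rfl, a1, a2⟩ h3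
      convert h4 using 1
      rw [b0, b1, List.drop_drop, List.drop_drop]
      funext s
      by_cases hs : s = 1
      · subst hs
        rw [update_self, update_self]
        congr 1
        ring
      · rw [update_of_ne hs, update_of_ne hs]
        by_cases hs' : s = 0
        · subst hs'
          rw [update_self, update_self]
          congr 1
          ring
        · rw [update_of_ne hs', update_of_ne hs', hτ2, update_of_ne hs, hτ1, update_of_ne hs']

/-- The padding of strings. -/
theorem nexp_pad : NEXP O fun e : Fin 1 → List Bool =>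
    ∃ j, e 0 = true :: List.replicate j false := by
  refine nexp_of_prog (.seq (.pop 0 true) (.seq (.star (.pop 0 false)) (.empty 0)))
    (T := fun n => n + 1) PolyB.id.succ ?_ ?_
  · rintro e t σ' ⟨t1, t2, τ1, -, ⟨-, l, h1, rfl⟩, t3, t4, τ2, -, h2, -, h3, rfl⟩
    have := iter_back (J := fun σ => ∃ j, σ 0 = List.replicate j false) (by
      rintro t σ τ ⟨-, l, h4, rfl⟩ ⟨j, h5⟩
      rw [update_self] at h5
      exact ⟨j + 1, by rw [h4, h5]; rfl⟩) h2 ⟨0, h3⟩
    obtain ⟨j, hj⟩ := this
    rw [update_self] at hj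
    rw [init0] at h1
    exact ⟨j, by rw [h1, hj]⟩
  · rintro e ⟨j, hj⟩
    suffices H : ∀ (j : ℕ) (σ : State), σ 0 = List.replicate j false →
        Iter (Run O (.pop 0 false)) j σ (update σ 0 []) by
      have h1 := H j (update (init e) 0 (List.replicate j false)) (by rw [update_self])
      refine ⟨1 + (j + 1), _, ?_, 1, j + 1, _, rfl, ⟨rfl, _, by rw [init0, hj], rfl⟩, j, 1, _, rfl,
        h1, rfl, by rw [update_self], rfl⟩
      have := len_le_size e 0
      rw [hj] at this
      simp only [List.length_cons, List.length_replicate] at this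
      show _ ≤ size e + 1
      omega
    intro j
    induction j with
    | zero =>
      intro σ h
      have : update σ 0 [] = σ := by rw [show [] = σ 0 from h.symm]; simp
      rw [this]
      exact Iter.nil _
    | succ j ih =>
      intro σ h
      have h1 := ih (update σ 0 (List.replicate j false)) (by rw [update_self])
      rw [update_idem] at h1
      rw [add_comm]
      exact Iter.cons (R := Run O (.pop 0 false)) ⟨rfl, _, h, rfl⟩ h1

end Pool.Agent.LibNexp
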