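import Pool.Agent.LibNexp.Advice

/-!
Multiplication and powers of lengths.
-/

namespace Pool.Agent.LibNexp

open Function

variable {O : List Bool → Bool}

theorem iter_inv {R : ℕ → State → State → Prop} {P : State → Prop}
    (h : ∀ t σ τ, R t σ τ → P σ → P τ) {t : ℕ} {σ σ' : State} (hi : Iter R t σ σ') (hP : P σ) :
    P σ' := by
  induction hi with
  | nil σ => exact hP
  | cons h1 _ ih => exact ih (h _ _ _ h1 hP)

theorem init_ge {k : ℕ} (e : Fin k → List Bool) {r : ℕ} (hr : k ≤ r) : init e r = [] :=
  quiet_init e r hr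

/-- Pop the same number of bits from two stacks. -/
def pop2 (r s : ℕ) : Prog := .seq (popAny r) (popAny s)

theorem iter_pop2_sound {r s : ℕ} (hrs : r ≠ s) {t : ℕ} {σ σ' : State}
    (h : Iter (Run O (pop2 r s)) t σ σ') :
    (σ r).length + (σ' s).length = (σ' r).length + (σ s).length ∧
      ∀ u, u ≠ r → u ≠ s → σ' u = σ u := by
  induction h with
  | nil σ => simp
  | @cons t t' σ τ σ' h1 _ ih =>
    obtain ⟨t1, t2, υ, -, h2, h3⟩ := h1
    obtain ⟨b, l, h4, -, rfl⟩ := run_popAny.1 h2
    obtain ⟨b', l', h5, -, rfl⟩ := run_popAny.1 h3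
    rw [update_of_ne (Ne.symm hrs)] at h5
    obtain ⟨i1, i2⟩ := ih
    rw [update_self, update_of_ne hrs, update_self] at i1
    constructor
    · rw [h4, h5, List.length_cons, List.length_cons]; omega
    · intro u hu1 hu2
      rw [i2 u hu1 hu2, update_of_ne hu2, update_of_ne hu1]

theorem iter_pop2_complete {r s : ℕ} (hrs : r ≠ s) : ∀ (n : ℕ) (σ : State),
    (σ r).length = n → (σ s).length = n →
    Iter (Run O (pop2 r s)) (2 * n) σ (update (update σ r []) s []) := by
  intro n
  induction n with
  | zero =>
    intro σ h1 h2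
    have e1 : update σ r [] = σ := by rw [show [] = σ r from (List.length_eq_zero_iff.1 h1).symm]; simp
    have e2 : update σ s [] = σ := by rw [show [] = σ s from (List.length_eq_zero_iff.1 h2).symm]; simp
    rw [e1, e2]
    exact Iter.nil _
  | succ n ih =>
    intro σ h1 h2
    obtain ⟨b, l, hl⟩ : ∃ b l, σ r = b :: l := by
      cases h : σ r with
      | nil => rw [h] at h1; simp at h1
      | cons b l => exact ⟨b, l, rfl⟩
    obtain ⟨b', l', hl'⟩ : ∃ b l, σ s = b :: l := by
      cases h : σ s with
      | nil => rw [h] at h2; simp at h2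
      | cons b l => exact ⟨b, l, rfl⟩
    have h3 := ih (update (update σ r l) s l')
      (by rw [update_of_ne hrs, update_self]; rw [hl] at h1; simpa using h1)
      (by rw [update_self]; rw [hl'] at h2; simpa using h2)
    have h4 : Run O (pop2 r s) 2 σ (update (update σ r l) s l') :=
      ⟨1, 1, _, rfl, run_popAny.2 ⟨b, l, hl, rfl, rfl⟩,
        run_popAny.2 ⟨b', l', by rw [update_of_ne (Ne.symm hrs)]; exact hl', rfl, rfl⟩⟩
    have h5 := Iter.cons h4 h3
    convert h5 using 1
    · ring
    · funext u
      by_cases hu : u = s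
      · subst hu; simp
      · by_cases hu' : u = r
        · subst hu'; simp [hu]
        · simp [hu, hu']

/-- Multiplication of lengths. -/
theorem nexp_mul : NEXP O fun e : Fin 3 → List Bool =>
    (e 2).length = (e 0).length * (e 1).length := by
  refine nexp_of_prog (.seq (.star (.seq (popAny 0) (copy 1 3 4))) (.seq (.empty 0)
    (.seq (.star (pop2 2 3)) (.seq (.empty 2) (.empty 3)))))
    (T := fun n => n * (5 * n + 3) + (2 * n + 3))
    ((PolyB.id.mul (((PolyB.const 5).mul PolyB.id).add (PolyB.const 3))).add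
      (((PolyB.const 2).mul PolyB.id).add (PolyB.const 3))) ?_ ?_
  · rintro e t σ' ⟨t1, t2, τ1, -, h1, t3, t4, τ2, -, ⟨-, h2, rfl⟩, t5, t6, τ3, -, h3,
      t7, t8, τ4, -, ⟨-, h4, rfl⟩, -, h5, rfl⟩
    have hinv := iter_inv (P := fun σ => σ 4 = [] ∧ σ 1 = e 1 ∧ σ 2 = e 2 ∧
      (σ 3).length + (σ 0).length * (e 1).length = (e 0).length * (e 1).length) (by
        rintro t σ τ ⟨t1, t2, υ, -, h6, h7⟩ ⟨i1, i2, i3, i4⟩
        obtain ⟨b, l, h8, -, rfl⟩ := run_popAny.1 h6
        rw [run_copy (by norm_num) (by norm_num) (by norm_num)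
          (by rw [update_of_ne (by norm_num)]; exact i1)] at h7
        obtain ⟨-, rfl⟩ := h7
        have u0 : update σ 0 l 1 = σ 1 := update_of_ne (by norm_num) _ _
        have u1 : update σ 0 l 3 = σ 3 := update_of_ne (by norm_num) _ _
        rw [u0, u1]
        refine ⟨?_, ?_, ?_, ?_⟩
        · rw [update_of_ne (by norm_num), update_of_ne (by norm_num)]; exact i1
        · rw [update_of_ne (by norm_num), u0]; exact i2
        · rw [update_of_ne (by norm_num), update_of_ne (by norm_num)]; exact i3
        · rw [update_self, update_of_ne (by norm_num), update_self, List.length_append, i2]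
          rw [h8, List.length_cons] at i4
          rw [← i4]
          ring) h1 ⟨init_ge e (by norm_num), init1 e, init2 e, by
            rw [init0, init_ge e (r := 3) le_rfl]; simp⟩
    obtain ⟨i1, i2, i3, i4⟩ := hinv
    obtain ⟨j1, -⟩ := iter_pop2_sound (by norm_num) h3
    rw [h4, h5, i3] at j1
    rw [h2] at i4
    simp only [List.length_nil, zero_mul, add_zero, zero_add] at i4 j1
    rw [j1, i4]
  · intro e he
    suffices H : ∀ (w : List Bool) (σ : State), σ 0 = w → σ 4 = [] → ∃ s : List Bool,
        s.length = w.length * (σ 1).length + (σ 3).length ∧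
        Iter (Run O (.seq (popAny 0) (copy 1 3 4))) (w.length * (5 * (σ 1).length + 3)) σ
          (update (update σ 0 []) 3 s) by
      obtain ⟨s, hs, h1⟩ := H (e 0) (init e) (init0 e) (init_ge e (by norm_num))
      rw [init1, init_ge e (r := 3) le_rfl, List.length_nil, add_zero] at hs
      rw [init1] at h1
      set τ1 := update (update (init e) 0 []) 3 s with hτ1
      have a0 : τ1 0 = [] := by rw [hτ1, update_of_ne (by norm_num), update_self]
      have a2 : τ1 2 = e 2 := by
        rw [hτ1, update_of_ne (by norm_num), update_of_ne (by norm_num), init2]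
      have a3 : τ1 3 = s := by rw [hτ1, update_self]
      have h2 := iter_pop2_complete (O := O) (r := 2) (s := 3) (by norm_num) (e 2).length τ1
        (by rw [a2]) (by rw [a3, hs, he])
      set τ2 := update (update τ1 2 []) 3 [] with hτ2
      have b2 : τ2 2 = [] := by rw [hτ2, update_of_ne (by norm_num), update_self]
      have b3 : τ2 3 = [] := by rw [hτ2, update_self]
      refine ⟨(e 0).length * (5 * (e 1).length + 3) + (1 + (2 * (e 2).length + (1 + 1))), τ2, ?_,
        _, _, _, rfl, h1, _, _, _, rfl, ⟨rfl, a0, rfl⟩, _, _, _, rfl, h2, _, _, _, rfl,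
        ⟨rfl, b2, rfl⟩, rfl, b3, rfl⟩
      have e0 := len_le_size e 0
      have e1 := len_le_size e 1
      have e2 := len_le_size e 2
      have e3 : (e 0).length * (5 * (e 1).length + 3) ≤ size e * (5 * size e + 3) :=
        Nat.mul_le_mul e0 (by omega)
      show _ ≤ size e * (5 * size e + 3) + (2 * size e + 3)
      omega
    intro w
    induction w with
    | nil =>
      intro σ h0 h4
      refine ⟨σ 3, by simp, ?_⟩
      have e1 : update σ 0 [] = σ := by rw [← h0]; simp
      rw [e1]
      simpa using Iter.nil σ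
    | cons b w ih =>
      intro σ h0 h4
      have h5 : Run O (popAny 0) 1 σ (update σ 0 w) := run_popAny.2 ⟨b, w, h0, rfl, rfl⟩
      have u0 : update σ 0 w 1 = σ 1 := update_of_ne (by norm_num) _ _
      have u1 : update σ 0 w 3 = σ 3 := update_of_ne (by norm_num) _ _
      have u2 : update σ 0 w 4 = [] := by rw [update_of_ne (by norm_num)]; exact h4
      have h6 : Run O (copy 1 3 4) (5 * (σ 1).length + 2) (update σ 0 w)
          (update (update σ 0 w) 3 (σ 1 ++ σ 3)) := by
        rw [run_copy (by norm_num) (by norm_num) (by norm_num) u2, u0, u1]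
        exact ⟨rfl, rfl⟩
      obtain ⟨s, hs, h7⟩ := ih (update (update σ 0 w) 3 (σ 1 ++ σ 3))
        (by rw [update_of_ne (by norm_num), update_self])
        (by rw [update_of_ne (by norm_num)]; exact u2)
      have v1 : update (update σ 0 w) 3 (σ 1 ++ σ 3) 1 = σ 1 := by
        rw [update_of_ne (by norm_num), u0]
      rw [v1, update_self, List.length_append] at hs
      rw [v1] at h7
      refine ⟨s, by rw [hs, List.length_cons]; ring, ?_⟩
      have h8 : Run O (.seq (popAny 0) (copy 1 3 4)) (1 + (5 * (σ 1).length + 2)) σ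
          (update (update σ 0 w) 3 (σ 1 ++ σ 3)) := ⟨_, _, _, rfl, h5, h6⟩
      have h9 := Iter.cons h8 h7
      convert h9 using 1
      · rw [List.length_cons]; ring
      · funext u
        by_cases hu : u = 3
        · subst hu; simp
        · by_cases hu' : u = 0
          · subst hu'; simp
          · simp [hu, hu']

/-- Powers of lengths. -/
theorem nexp_pow (K : ℕ) : NEXP O fun e : Fin 2 → List Bool =>
    (e 1).length = (e 0).length ^ K := by
  induction K with
  | zero =>
    refine ((nexp_len (O := O) 0 0 1 1).reindex ![1, 1]).congr fun e => ?_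
    simp
  | succ K ih =>
    refine (NEXP.exists (R := fun e : Fin 3 → List Bool => (e 2).length = (e 0).length ^ K ∧
      (e 1).length = (e 2).length * (e 0).length)
      (((ih.reindex ![0, 2]).congr fun e => ?_).and
        (((nexp_mul (O := O)).reindex ![2, 0, 1]).congr fun e => ?_))
      (g := fun n => n ^ K) (PolyB.id.pow K) ?_).congr fun e => ?_
    · simp
    · simp
    · rintro e z ⟨h, -⟩
      simp only [(app2 e z).1, (app2 e z).2.2] at h
      rw [h]
      exact Nat.pow_le_pow_left (len_le_size e 0) K
    · simp only [fun z => (app2 e z).1, fun z => (app2 e z).2.1, fun z => (app2 e z).2.2]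
      constructor
      · rintro ⟨z, h1, h2⟩
        rw [h2, h1, pow_succ]
      · intro h
        refine ⟨List.replicate ((e 0).length ^ K) true, by simp, ?_⟩
        rw [h, List.length_replicate, pow_succ]

/-- Comparison of lengths. -/
theorem nexp_le : NEXP O fun e : Fin 2 → List Bool => (e 0).length ≤ (e 1).length := by
  refine nexp_of_prog (.seq (.star (pop2 0 1)) (.seq (.empty 0) (.star (popAny 1))))
    (T := fun n => 2 * n + 1) (((PolyB.const 2).mul PolyB.id).add (PolyB.const 1)) ?_ ?_
  · rintro e t σ' ⟨t1, t2, τ1, -, h1, t3, t4, τ2, -, ⟨-, h2, rfl⟩, -⟩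
    obtain ⟨h3, -⟩ := iter_pop2_sound (by norm_num) h1
    rw [init0, init1, h2] at h3
    simp only [List.length_nil, zero_add] at h3
    omega
  · intro e he
    suffices H : ∀ (n : ℕ) (σ : State), (σ 0).length = n → n ≤ (σ 1).length →
        ∃ σ', Iter (Run O (pop2 0 1)) (2 * n) σ σ' ∧ σ' 0 = [] by
      obtain ⟨σ', h1, h2⟩ := H (e 0).length (init e) (by rw [init0]) (by rw [init1]; exact he)
      refine ⟨2 * (e 0).length + (1 + 0), σ', ?_, _, _, _, rfl, h1, _, _, _, rfl,
        ⟨rfl, h2, rfl⟩, Iter.nil _⟩
      have := len_le_size e 0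
      show _ ≤ 2 * size e + 1
      omega
    intro n
    induction n with
    | zero =>
      intro σ h1 _
      exact ⟨σ, Iter.nil _, List.length_eq_zero_iff.1 h1⟩
    | succ n ih =>
      intro σ h1 h2
      obtain ⟨b, l, hl⟩ : ∃ b l, σ 0 = b :: l := by
        cases h : σ 0 with
        | nil => rw [h] at h1; simp at h1
        | cons b l => exact ⟨b, l, rfl⟩
      obtain ⟨b', l', hl'⟩ : ∃ b l, σ 1 = b :: l := by
        cases h : σ 1 with
        | nil => rw [h] at h2; simp at h2
        | cons b l => exact ⟨b, l, rfl⟩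
      obtain ⟨σ', h3, h4⟩ := ih (update (update σ 0 l) 1 l')
        (by rw [update_of_ne (by norm_num), update_self]; rw [hl] at h1; simpa using h1)
        (by rw [update_self]; rw [hl'] at h2; simpa using h2)
      refine ⟨σ', ?_, h4⟩
      have h5 : Run O (pop2 0 1) 2 σ (update (update σ 0 l) 1 l') :=
        ⟨1, 1, _, rfl, run_popAny.2 ⟨b, l, hl, rfl, rfl⟩,
          run_popAny.2 ⟨b', l', by rw [update_of_ne (by norm_num)]; exact hl', rfl, rfl⟩⟩
      have h6 := Iter.cons h5 h3
      convert h6 using 1
      ring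

end Pool.Agent.LibNexp
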