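import Pool.Agent.LibNexp.Law
import Pool.Agent.LibNexp.Pow

/-!
Shrinking the advice below any power.
-/

namespace Pool.Agent.LibNexp

open Function

variable {O : List Bool → Bool}

theorem app4 (e : Fin 4 → List Bool) (z : List Bool) :
    app e z 0 = e 0 ∧ app e z 1 = e 1 ∧ app e z 2 = e 2 ∧ app e z 3 = e 3 ∧ app e z 4 = z :=
  ⟨rfl, rfl, rfl, rfl, rfl⟩

/-- `z` is a padding string. -/
def IsPad (z : List Bool) : Prop := ∃ j, z = true :: List.replicate j false

/-- Lengths `t ^ K` and `c t ^ K' + d`. -/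
def PowRel (K K' c d : ℕ) (y a : List Bool) : Prop :=
  ∃ t, y.length = t ^ K ∧ a.length = c * t ^ K' + d

theorem nexp_powRel {K K' c : ℕ} (hK : 1 ≤ K) (d : ℕ) :
    NEXP O fun e : Fin 2 → List Bool => PowRel K K' c d (e 0) (e 1) := by
  have h1 : NEXP O fun e : Fin 4 → List Bool => (e 0).length = (e 2).length ^ K ∧
      (e 3).length = (e 2).length ^ K' ∧
      ∃ k, (e 3).length = 1 * k + 0 ∧ (e 1).length = c * k + d := by
    refine ((((nexp_pow (O := O) K).reindex ![2, 0]).congr fun e => ?_)).and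
      ((((nexp_pow (O := O) K').reindex ![2, 3]).congr fun e => ?_).and
        (((nexp_len (O := O) 1 c 0 d).reindex ![3, 1]).congr fun e => ?_))
    · simp
    · simp
    · simp
  have h2 := NEXP.exists h1 (g := fun n => n ^ K') (PolyB.id.pow K') (by
    rintro e z ⟨-, h, -⟩
    simp only [(app3 e z).2.2.1, (app3 e z).2.2.2] at h
    rw [h]
    exact Nat.pow_le_pow_left (len_le_size e 2) K')
  have h3 := NEXP.exists h2 (g := fun n => n) PolyB.id (by
    rintro e z ⟨w, h, -⟩
    have a0 : app (app e z) w 0 = e 0 := rfl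
    have a2 : app (app e z) w 2 = z := rfl
    rw [a0, a2] at h
    have := len_le_size e 0
    calc z.length ≤ z.length ^ K := Nat.le_self_pow (by omega) _
      _ = (e 0).length := h.symm
      _ ≤ size e := this)
  refine h3.congr fun e => ?_
  constructor
  · rintro ⟨z, w, h4, h5, k, h6, h7⟩
    have a0 : app (app e z) w 0 = e 0 := rfl
    have a1 : app (app e z) w 1 = e 1 := rfl
    have a2 : app (app e z) w 2 = z := rfl
    have a3 : app (app e z) w 3 = w := rfl
    rw [a0, a2] at h4
    rw [a2, a3] at h5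
    rw [a3] at h6
    rw [a1] at h7
    refine ⟨z.length, h4, ?_⟩
    rw [h7, ← h5, h6]
    ring
  · rintro ⟨t, h4, h5⟩
    refine ⟨List.replicate t true, List.replicate (t ^ K') true, ?_, ?_, t ^ K', ?_, ?_⟩
    · show (e 0).length = (List.replicate t true).length ^ K
      rw [List.length_replicate, h4]
    · show (List.replicate (t ^ K') true).length = (List.replicate t true).length ^ K'
      rw [List.length_replicate, List.length_replicate]
    · show (List.replicate (t ^ K') true).length = 1 * t ^ K' + 0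
      rw [List.length_replicate]; ring
    · exact h5

/-- `y` is `x` padded to the next length which is a power. -/
def PadTo (K : ℕ) (x y : List Bool) : Prop :=
  (∃ z, IsPad z ∧ y = x ++ z) ∧ ∃ t, y.length = (t + 1) ^ K ∧ t ^ K ≤ x.length

theorem nexp_isPad {k : ℕ} (i : Fin k) : NEXP O fun e : Fin k → List Bool => IsPad (e i) := by
  refine ((nexp_pad (O := O)).reindex ![i]).congr fun e => ?_
  simp [IsPad]

theorem nexp_catPad : NEXP O fun e : Fin 2 → List Bool => ∃ z, IsPad z ∧ e 1 = e 0 ++ z := by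
  have h1 : NEXP O fun e : Fin 3 → List Bool => IsPad (e 2) ∧ e 1 = e 0 ++ e 2 := by
    refine (nexp_isPad 2).and (((nexp_cat (O := O)).reindex ![0, 2, 1]).congr fun e => ?_)
    simp
  refine (NEXP.exists h1 (g := fun n => n) PolyB.id ?_).congr fun e => Iff.rfl
  rintro e z ⟨-, h⟩
  simp only [(app2 e z).1, (app2 e z).2.1, (app2 e z).2.2] at h
  have := len_le_size e 1
  rw [h, List.length_append] at this
  omega

theorem nexp_padTo {K : ℕ} (hK : 1 ≤ K) :
    NEXP O fun e : Fin 2 → List Bool => PadTo K (e 0) (e 1) := by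
  refine NEXP.and nexp_catPad ?_
  have h1 : NEXP O fun e : Fin 5 → List Bool => (e 4).length = (e 2).length ^ K ∧
      (e 4).length ≤ (e 0).length ∧ (e 1).length = (e 3).length ^ K ∧
      ∃ k, (e 2).length = 1 * k + 0 ∧ (e 3).length = 1 * k + 1 := by
    refine ((((nexp_pow (O := O) K).reindex ![2, 4]).congr fun e => ?_)).and
      ((((nexp_le (O := O)).reindex ![4, 0]).congr fun e => ?_).and
        ((((nexp_pow (O := O) K).reindex ![3, 1]).congr fun e => ?_).and
          (((nexp_len (O := O) 1 1 0 1).reindex ![2, 3]).congr fun e => ?_)))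
    · simp
    · simp
    · simp
    · simp
  have h2 := NEXP.exists h1 (g := fun n => n) PolyB.id (by
    rintro e z ⟨-, h, -⟩
    simp only [(app4 e z).1, (app4 e z).2.2.2.2] at h
    exact le_trans h (len_le_size e 0))
  have h3 := NEXP.exists h2 (g := fun n => n) PolyB.id (by
    rintro e z ⟨w, -, -, h, -⟩
    have a1 : app (app e z) w 1 = e 1 := rfl
    have a3 : app (app e z) w 3 = z := rfl
    rw [a1, a3] at h
    calc z.length ≤ z.length ^ K := Nat.le_self_pow (by omega) _
      _ = (e 1).length := h.symm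
      _ ≤ size e := len_le_size e 1)
  have h4 := NEXP.exists h3 (g := fun n => n) PolyB.id (by
    rintro e z ⟨w, v, -, -, h, k, h5, h6⟩
    have a1 : app (app (app e z) w) v 1 = e 1 := rfl
    have a2 : app (app (app e z) w) v 2 = z := rfl
    have a3 : app (app (app e z) w) v 3 = w := rfl
    rw [a1, a3] at h
    rw [a2] at h5
    rw [a3] at h6
    calc z.length ≤ w.length := by omega
      _ ≤ w.length ^ K := Nat.le_self_pow (by omega) _
      _ = (e 1).length := h.symm
      _ ≤ size e := len_le_size e 1)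
  refine h4.congr fun e => ?_
  constructor
  · rintro ⟨z, w, v, h5, h6, h7, k, h8, h9⟩
    have a0 : app (app (app e z) w) v 0 = e 0 := rfl
    have a1 : app (app (app e z) w) v 1 = e 1 := rfl
    have a2 : app (app (app e z) w) v 2 = z := rfl
    have a3 : app (app (app e z) w) v 3 = w := rfl
    have a4 : app (app (app e z) w) v 4 = v := rfl
    rw [a4, a2] at h5
    rw [a4, a0] at h6
    rw [a1, a3] at h7
    rw [a2] at h8
    rw [a3] at h9
    refine ⟨z.length, ?_, by rw [← h5]; exact h6⟩
    rw [h7]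
    congr 1
    omega
  · rintro ⟨t, h5, h6⟩
    refine ⟨List.replicate t true, List.replicate (t + 1) true, List.replicate (t ^ K) true,
      ?_, ?_, ?_, t, ?_, ?_⟩
    · show (List.replicate (t ^ K) true).length = (List.replicate t true).length ^ K
      simp
    · show (List.replicate (t ^ K) true).length ≤ (e 0).length
      simpa using h6
    · show (e 1).length = (List.replicate (t + 1) true).length ^ K
      simpa using h5
    · show (List.replicate t true).length = 1 * t + 0
      simp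
    · show (List.replicate (t + 1) true).length = 1 * t + 1
      simp

theorem nat_pow_inj {a b K : ℕ} (hK : 1 ≤ K) (h : a ^ K = b ^ K) : a = b :=
  Nat.pow_left_injective (n := K) (by omega) h

theorem pow_step {L : Lang} (hL : L ∈ NEXPLang O) {K K' : ℕ} (hK : 1 ≤ K) (hK' : 1 ≤ K')
    (h1 : ∀ L ∈ NEXPLang O, ∃ c : ℕ, Lᶜ ∈ WithAdvice (NEXPLang O)
      {f | ∀ t, (f (t ^ K)).length ≤ c * t ^ K' + c})
    {𝒮 : Set (ℕ → ℕ)} (hs : ∀ s ∈ 𝒮, Monotone s)
    (h2 : ∀ U ∈ NEXPLang O, ∃ s ∈ 𝒮, Uᶜ ∈ WithAdvice (NEXPLang O) (AtMost s)) :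
    ∃ s ∈ 𝒮, ∃ c : ℕ, Lᶜ ∈ WithAdvice (NEXPLang O)
      {f | ∀ n t, n < t ^ K → (f n).length ≤ s (c * t ^ K' + c)} := by
  classical
  set Lp : Lang := {w | ∃ x, (∃ z, IsPad z ∧ w = x ++ z) ∧ x ∈ L} with hLp
  have hLpN : Lp ∈ NEXPLang O := by
    refine (NEXP.exists (R := fun e : Fin 2 → List Bool => (∃ z, IsPad z ∧ e 0 = e 1 ++ z) ∧ e 1 ∈ L)
      ((((nexp_catPad (O := O)).reindex ![1, 0]).congr fun e => ?_).and (nexp_mem hL 1))
      (g := fun n => n) PolyB.id ?_).congr fun e => Iff.rfl
    · simp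
    · rintro e z ⟨⟨w, -, h⟩, -⟩
      simp only [(app1 e z).1, (app1 e z).2] at h
      have := len_le_size e 0
      rw [h, List.length_append] at this
      omega
  have hLpx : ∀ x z, IsPad z → (x ++ z ∈ Lp ↔ x ∈ L) := by
    rintro x z ⟨j, rfl⟩
    constructor
    · rintro ⟨x', ⟨z', ⟨j', rfl⟩, h⟩, hx'⟩
      rw [pad_injective h]
      exact hx'
    · intro h
      exact ⟨x, ⟨_, ⟨j, rfl⟩, rfl⟩, h⟩
  obtain ⟨c0, B, hB, f, hf0, hfB⟩ := h1 Lp hLpN
  have hfB' : ∀ x, x ∉ Lp ↔ pair x (f x.length) ∈ B := fun x => by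
    have := Set.ext_iff.1 hfB x
    simpa using this
  obtain ⟨c, hc1, hf⟩ : ∃ c, 1 ≤ c ∧ ∀ t, (f (t ^ K)).length ≤ c * t ^ K' + c := by
    refine ⟨c0 + 1, by omega, fun t => ?_⟩
    have h3 : (f (t ^ K)).length ≤ c0 * t ^ K' + c0 := hf0 t
    have : (c0 + 1) * t ^ K' = c0 * t ^ K' + t ^ K' := by ring
    omega
  have hG := nexp_powRel (O := O) (K := K) (K' := K') (c := c) hK (c + 1)
  have hU : {a | ∃ y, PowRel K K' c (c + 1) y a ∧ y ∈ Lp ∧ padded B y a} ∈ NEXPLang O := by
    refine (NEXP.exists (R := fun e : Fin 2 → List Bool =>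
      PowRel K K' c (c + 1) (e 1) (e 0) ∧ e 1 ∈ Lp ∧ padded B (e 1) (e 0))
      ((hG.reindex ![1, 0]).congr (fun e => ?_) |>.and
        ((nexp_mem hLpN 1).and (((nexp_padded hB).reindex ![1, 0]).congr fun e => ?_)))
      (g := fun n => n ^ K) (PolyB.id.pow K) ?_).congr
      fun e => Iff.rfl
    · simp
    · simp
    · rintro e z ⟨⟨t, h3, h4⟩, -⟩
      simp only [(app1 e z).1, (app1 e z).2] at h3 h4
      have e0 := len_le_size e 0
      have e1 : t ≤ t ^ K' := Nat.le_self_pow (by omega) _
      have e2 : t ^ K' ≤ c * t ^ K' := Nat.le_mul_of_pos_left _ hc1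
      rw [h3]
      exact Nat.pow_le_pow_left (by omega) K
  obtain ⟨s, hsS, B1, hB1, g, hg0, hgB⟩ := h2 _ hU
  have hg : ∀ n, (g n).length ≤ s n := hg0
  have hgB' : ∀ a, (¬ ∃ y, PowRel K K' c (c + 1) y a ∧ y ∈ Lp ∧ padded B y a) ↔
      pair a (g a.length) ∈ B1 := fun a => by
    have := Set.ext_iff.1 hgB a
    simpa using this
  have hC : NEXP O fun e : Fin 2 → List Bool => ∃ y a, PadTo K (e 0) y ∧ PowRel K K' c (c + 1) y a ∧
      padded B y a ∧ pair a (e 1) ∈ B1 := by
    have h3 : NEXP O fun e : Fin 4 → List Bool => PadTo K (e 0) (e 2) ∧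
        PowRel K K' c (c + 1) (e 2) (e 3) ∧ padded B (e 2) (e 3) ∧ pair (e 3) (e 1) ∈ B1 := by
      refine (((nexp_padTo (O := O) hK).reindex ![0, 2]).congr fun e => ?_).and
        (((hG.reindex ![2, 3]).congr fun e => ?_).and
        ((((nexp_padded hB).reindex ![2, 3]).congr fun e => ?_).and (nexp_pair_mem hB1 3 1)))
      · simp
      · simp
      · simp
    have h4 := NEXP.exists h3 (g := fun n => c * n ^ K' + (c + 1))
      (((PolyB.const c).mul (PolyB.id.pow K')).add (PolyB.const (c + 1))) (by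
        rintro e z ⟨-, ⟨t, h5, h6⟩, -⟩
        simp only [(app3 e z).2.2.1, (app3 e z).2.2.2] at h5 h6
        rw [h6]
        have e0 := len_le_size e 2
        have e1 : t ≤ t ^ K := Nat.le_self_pow (by omega) _
        have e2 : t ^ K' ≤ size e ^ K' := Nat.pow_le_pow_left (by omega) K'
        have e3 : c * t ^ K' ≤ c * size e ^ K' := Nat.mul_le_mul_left _ e2
        show _ ≤ c * size e ^ K' + (c + 1)
        omega)
    refine (NEXP.exists h4 (g := fun n => (n + 1) ^ K) (PolyB.id.succ.pow K) ?_).congr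
      fun e => Iff.rfl
    rintro e z ⟨w, ⟨-, t, h5, h6⟩, -⟩
    have a0 : app (app e z) w 0 = e 0 := rfl
    have a2 : app (app e z) w 2 = z := rfl
    rw [a2] at h5
    rw [a0] at h6
    rw [h5]
    have e1 : t ≤ t ^ K := Nat.le_self_pow (by omega) _
    have e0 := len_le_size e 0
    exact Nat.pow_le_pow_left (by omega) K
  obtain ⟨D, hD, hDC⟩ := rel_of_nexp (C := fun x b => ∃ y a, PadTo K x y ∧
    PowRel K K' c (c + 1) y a ∧ padded B y a ∧ pair a b ∈ B1) hC
  have hex : ∀ n : ℕ, ∃ t, n < (t + 1) ^ K := fun n =>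
    ⟨n, lt_of_lt_of_le (Nat.lt_succ_self n) (Nat.le_self_pow (by omega) _)⟩
  refine ⟨s, hsS, c + 1, D, hD, fun n => g (c * (Nat.find (hex n) + 1) ^ K' + (c + 1)), ?_, ?_⟩
  · intro n t hnt
    have h3 : Nat.find (hex n) + 1 ≤ t := by
      rcases Nat.eq_zero_or_pos t with rfl | ht
      · rw [zero_pow (by omega)] at hnt
        omega
      · have : Nat.find (hex n) ≤ t - 1 := Nat.find_min' (hex n) (by
          rw [Nat.sub_add_cancel ht]; exact hnt)
        omega
    refine le_trans (hg _) (hs s hsS ?_)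
    have e1 : (Nat.find (hex n) + 1) ^ K' ≤ t ^ K' := Nat.pow_le_pow_left h3 K'
    have e2 : c * (Nat.find (hex n) + 1) ^ K' ≤ c * t ^ K' := Nat.mul_le_mul_left _ e1
    have e3 : (c + 1) * t ^ K' = c * t ^ K' + t ^ K' := by ring
    omega
  · ext x
    show x ∉ L ↔ pair x _ ∈ D
    rw [hDC]
    set t := Nat.find (hex x.length) with ht
    have ht1 : x.length < (t + 1) ^ K := Nat.find_spec (hex x.length)
    constructor
    · intro hx
      have ht2 : t ^ K ≤ x.length := by
        rcases Nat.eq_zero_or_pos t with h0 | h0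
        · rw [h0, zero_pow (by omega)]; omega
        · have := Nat.find_min (hex x.length) (m := t - 1) (by omega)
          rw [Nat.sub_add_cancel h0] at this
          omega
      set z : List Bool := true :: List.replicate ((t + 1) ^ K - x.length - 1) false with hz
      have hzp : IsPad z := ⟨_, rfl⟩
      have hy : (x ++ z).length = (t + 1) ^ K := by
        rw [hz, List.length_append, List.length_cons, List.length_replicate]; omega
      have hyL : x ++ z ∉ Lp := by rw [hLpx x z hzp]; exact hx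
      rw [hfB', hy] at hyL
      have hfl := hf (t + 1)
      set a := f ((t + 1) ^ K) with ha
      have hal : (a ++ true :: List.replicate (c * (t + 1) ^ K' + c - a.length) false).length =
          c * (t + 1) ^ K' + (c + 1) := by
        rw [List.length_append, List.length_cons, List.length_replicate]; omega
      refine ⟨x ++ z, a ++ true :: List.replicate (c * (t + 1) ^ K' + c - a.length) false,
        ⟨⟨z, hzp, rfl⟩, t, hy, ht2⟩, ⟨t + 1, hy, hal⟩, padded_iff.2 hyL, ?_⟩
      have h3 := (hgB' (a ++ true :: List.replicate (c * (t + 1) ^ K' + c - a.length) false)).1 (by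
        rintro ⟨y', ⟨t', h4, h5⟩, h6, h7⟩
        rw [hal] at h5
        have h8 : c * t' ^ K' = c * (t + 1) ^ K' := by omega
        have h9 : t' = t + 1 := nat_pow_inj hK' (Nat.eq_of_mul_eq_mul_left hc1 h8)
        rw [h9] at h4
        rw [padded_iff, ha, ← h4, ← hfB'] at h7
        exact h7 h6)
      rwa [hal] at h3
    · rintro ⟨y, a, ⟨⟨z, hz, rfl⟩, t', h3, h4⟩, ⟨t'', h5, h6⟩, h7, h8⟩ hx
      have hzl : 1 ≤ z.length := by
        obtain ⟨j, rfl⟩ := hz
        simp
      have h9 : x.length < (t' + 1) ^ K := by rw [← h3, List.length_append]; omega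
      have h10 : t = t' := by
        refine le_antisymm (Nat.find_min' _ h9) ?_
        by_contra hlt
        push Not at hlt
        have : (t + 1) ^ K ≤ t' ^ K := Nat.pow_le_pow_left (by omega) K
        omega
      have h11 : t'' = t' + 1 := nat_pow_inj hK (by rw [← h5, h3])
      have h12 : a.length = c * (t + 1) ^ K' + (c + 1) := by rw [h6, h11, h10]
      simp only at h8
      rw [← h12] at h8
      exact (hgB' a).2 h8 ⟨x ++ z, ⟨t'', h5, h6⟩, (hLpx x z hz).2 hx, h7⟩

end Pool.Agent.LibNexp
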