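import Pool.Agent.LibNexp.Closure
import Pool.Agent.LibNexp.Rel

/-!
Languages, pairing of strings, and classes with advice.
-/

namespace Pool.Agent.LibNexp

open Function

variable {O : List Bool → Bool}

/-- Languages over the alphabet of two letters. -/
abbrev Lang := Set (List Bool)

/-- The class of languages recognised in nondeterministic exponential time (exponent
polynomial in the length) with oracle `O`. -/
def NEXPLang (O : List Bool → Bool) : Set Lang :=
  {L | NEXP O fun e : Fin 1 → List Bool => e 0 ∈ L}

/-- The pairing function: all letters of `x` doubled, then `10`, then `y`. -/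
def pair (x y : List Bool) : List Bool := (x.flatMap fun b => [b, b]) ++ [true, false] ++ y

/-- The class `𝒞/ℱ`: all languages `{x : ⟨x, f(|x|)⟩ ∈ B}` with `B` in `𝒞` and `f` in `ℱ`. -/
def WithAdvice (𝒞 : Set Lang) (ℱ : Set (ℕ → List Bool)) : Set Lang :=
  {A | ∃ B ∈ 𝒞, ∃ f ∈ ℱ, A = {x | pair x (f x.length) ∈ B}}

theorem pair_injective : ∀ {x y x' y' : List Bool}, pair x y = pair x' y' → x = x' ∧ y = y' := by
  intro x
  induction x with
  | nil =>
    intro y x' y' h
    cases x' with
    | nil => simpa [pair] using h
    | cons b x' => cases b <;> simp [pair] at h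
  | cons b x ih =>
    intro y x' y' h
    cases x' with
    | nil => cases b <;> simp [pair] at h
    | cons b' x' =>
      have h' : b = b' ∧ pair x y = pair x' y' := by
        simp only [pair, List.flatMap_cons, List.cons_append, List.append_assoc,
          List.nil_append, List.cons.injEq] at h ⊢
        exact ⟨h.1, h.2.2⟩
      obtain ⟨h1, h2⟩ := ih h'.2
      exact ⟨by rw [h'.1, h1], h2⟩

theorem length_pair (x y : List Bool) : (pair x y).length = 2 * x.length + y.length + 2 := by
  have : ∀ x : List Bool, (x.flatMap fun b => [b, b]).length = 2 * x.length := by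
    intro x
    induction x with
    | nil => rfl
    | cons b x ih => rw [List.flatMap_cons, List.length_append, ih, List.length_cons]; simp; ring
  unfold pair
  rw [List.length_append, List.length_append, this]
  simp
  ring

theorem nexp_pairRel : NEXP O fun e : Fin 3 → List Bool => e 2 = pair (e 0) (e 1) := by
  refine (nexp_subst (O := O) (fun b => [b, b]) (fun b => [b]) [true, false]).congr fun e => ?_
  unfold pair
  have : (e 1).flatMap (fun b => [b]) = e 1 := by simp
  rw [this]

theorem nexp_cat : NEXP O fun e : Fin 3 → List Bool => e 2 = e 0 ++ e 1 := by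
  refine (nexp_subst (O := O) (fun b => [b]) (fun b => [b]) []).congr fun e => ?_
  simp

theorem app1 (e : Fin 1 → List Bool) (z : List Bool) : app e z 0 = e 0 ∧ app e z 1 = z :=
  ⟨rfl, rfl⟩

theorem app2 (e : Fin 2 → List Bool) (z : List Bool) :
    app e z 0 = e 0 ∧ app e z 1 = e 1 ∧ app e z 2 = z := ⟨rfl, rfl, rfl⟩

theorem app3 (e : Fin 3 → List Bool) (z : List Bool) :
    app e z 0 = e 0 ∧ app e z 1 = e 1 ∧ app e z 2 = e 2 ∧ app e z 3 = z := ⟨rfl, rfl, rfl, rfl⟩

theorem nexp_mem {L : Lang} (hL : L ∈ NEXPLang O) {k : ℕ} (i : Fin k) :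
    NEXP O fun e : Fin k → List Bool => e i ∈ L :=
  NEXP.reindex (R := fun e : Fin 1 → List Bool => e 0 ∈ L) hL fun _ => i

theorem nexp_pair_mem {B : Lang} (hB : B ∈ NEXPLang O) {k : ℕ} (i j : Fin k) :
    NEXP O fun e : Fin k → List Bool => pair (e i) (e j) ∈ B := by
  have h1 : NEXP O fun e : Fin 2 → List Bool => ∃ z, app e z 2 = pair (app e z 0) (app e z 1) ∧
      app e z 2 ∈ B := by
    refine NEXP.exists (R := fun e : Fin 3 → List Bool => e 2 = pair (e 0) (e 1) ∧ e 2 ∈ B)
      (nexp_pairRel.and (nexp_mem hB 2)) (g := fun n => 3 * n + 2)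
      (((PolyB.const 3).mul PolyB.id).add (PolyB.const 2)) ?_
    rintro e z ⟨h, -⟩
    simp only [(app2 e z).1, (app2 e z).2.1, (app2 e z).2.2] at h
    have e0 := len_le_size e 0
    have e1 := len_le_size e 1
    rw [h, length_pair]
    show _ ≤ 3 * size e + 2
    omega
  have h2 : NEXP O fun e : Fin 2 → List Bool => pair (e 0) (e 1) ∈ B := by
    refine h1.congr fun e => ?_
    simp only [fun z => (app2 e z).1, fun z => (app2 e z).2.1, fun z => (app2 e z).2.2]
    constructor
    · rintro ⟨z, rfl, h⟩; exact h
    · intro h; exact ⟨_, rfl, h⟩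
  exact (NEXP.reindex h2 ![i, j]).congr fun e => by simp

theorem rel_of_nexp {C : List Bool → List Bool → Prop}
    (hC : NEXP O fun e : Fin 2 → List Bool => C (e 0) (e 1)) :
    ∃ B ∈ NEXPLang O, ∀ x y, pair x y ∈ B ↔ C x y := by
  refine ⟨{z | ∃ x y, z = pair x y ∧ C x y}, ?_, fun x y => ⟨?_, fun h => ⟨x, y, rfl, h⟩⟩⟩
  · have h1 : NEXP O fun e : Fin 2 → List Bool => ∃ z, app e z 0 = pair (app e z 1) (app e z 2) ∧
        C (app e z 1) (app e z 2) := by
      refine NEXP.exists (R := fun e : Fin 3 → List Bool => e 0 = pair (e 1) (e 2) ∧ C (e 1) (e 2))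
        (((nexp_pairRel (O := O)).reindex ![1, 2, 0]).congr (fun e => ?_) |>.and
          ((hC.reindex ![1, 2]).congr fun e => ?_)) (g := fun n => n) PolyB.id ?_
      · simp
      · simp
      · rintro e z ⟨h, -⟩
        simp only [(app2 e z).1, (app2 e z).2.1, (app2 e z).2.2] at h
        have e0 := len_le_size e 0
        rw [h, length_pair] at e0
        omega
    have h2 : NEXP O fun e : Fin 1 → List Bool => ∃ z, ∃ w, app (app e z) w 0 =
        pair (app (app e z) w 1) (app (app e z) w 2) ∧ C (app (app e z) w 1) (app (app e z) w 2) := by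
      refine NEXP.exists (R := fun e : Fin 2 → List Bool => ∃ z, app e z 0 =
        pair (app e z 1) (app e z 2) ∧ C (app e z 1) (app e z 2)) h1 (g := fun n => n) PolyB.id ?_
      rintro e z ⟨w, h, -⟩
      have e1 : app (app e z) w 0 = e 0 := rfl
      have e2 : app (app e z) w 1 = z := rfl
      have e3 : app (app e z) w 2 = w := rfl
      rw [e1, e2, e3] at h
      have e0 := len_le_size e 0
      rw [h, length_pair] at e0
      omega
    exact h2
  · rintro ⟨x', y', h1, h2⟩
    obtain ⟨rfl, rfl⟩ := pair_injective h1
    exact h2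

theorem NEXP.finite_exists {k : ℕ} {ι : Type} (s : Finset ι) {R : ι → (Fin k → List Bool) → Prop}
    (h : ∀ i ∈ s, NEXP O (R i)) : NEXP O fun e => ∃ i ∈ s, R i e := by
  classical
  induction s using Finset.induction_on with
  | empty =>
    refine nexp_of_prog (.pop k true) (T := fun n => n) PolyB.id ?_ ?_
    · rintro e t σ' ⟨-, l, h1, -⟩
      have h2 : init e k = [] := quiet_init e k le_rfl
      rw [h2] at h1
      simp at h1
    · rintro e ⟨i, hi, -⟩
      simp at hi
  | insert a s ha ih =>
    refine ((h a (Finset.mem_insert_self _ _)).or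
      (ih fun i hi => h i (Finset.mem_insert_of_mem hi))).congr fun e => ?_
    simp

theorem pad_injective : ∀ {j j' : ℕ} {a a' : List Bool},
    a ++ true :: List.replicate j false = a' ++ true :: List.replicate j' false → a = a' := by
  have key : ∀ {j j' : ℕ} {a a' : List Bool},
      List.replicate j false ++ true :: a = List.replicate j' false ++ true :: a' → a = a' := by
    intro j
    induction j with
    | zero =>
      intro j' a a' h
      cases j' with
      | zero => simpa using h
      | succ j' => simp [List.replicate_succ] at h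
    | succ j ih =>
      intro j' a a' h
      cases j' with
      | zero => simp [List.replicate_succ] at h
      | succ j' =>
        simp only [List.replicate_succ, List.cons_append, List.cons.injEq, true_and] at h
        exact ih h
  intro j j' a a' h
  have h' := congrArg List.reverse h
  simp only [List.reverse_append, List.reverse_cons, List.reverse_replicate,
    List.append_assoc, List.cons_append, List.nil_append] at h'
  have := key h'
  simpa using congrArg List.reverse this

end Pool.Agent.LibNexp
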