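import Pool.Agent.LibNexp.Defs

namespace Pool.Agent.LibNexp

open Function

variable {O : List Bool → Bool}

/-- All stacks used by a program are below `regs`. -/
def Prog.regs : Prog → ℕ
  | .push r _ => r + 1
  | .pop r _ => r + 1
  | .empty r => r + 1
  | .query r _ => r + 1
  | .seq p q => max p.regs q.regs
  | .alt p q => max p.regs q.regs
  | .star p => p.regs

/-- Renumbering of the stacks by a shift. -/
def Prog.shift (k : ℕ) : Prog → Prog
  | .push r b => .push (r + k) b
  | .pop r b => .pop (r + k) b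
  | .empty r => .empty (r + k)
  | .query r b => .query (r + k) b
  | .seq p q => .seq (p.shift k) (q.shift k)
  | .alt p q => .alt (p.shift k) (q.shift k)
  | .star p => .star (p.shift k)

theorem Iter.single {R : ℕ → State → State → Prop} {t : ℕ} {σ σ' : State} (h : R t σ σ') :
    Iter R t σ σ' := by
  have := Iter.cons h (Iter.nil σ')
  simpa using this

theorem Iter.trans {R : ℕ → State → State → Prop} {t t' : ℕ} {σ τ σ' : State}
    (h : Iter R t σ τ) (h' : Iter R t' τ σ') : Iter R (t + t') σ σ' := by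
  induction h with
  | nil σ => simpa using h'
  | cons h1 _ ih => rw [add_assoc]; exact Iter.cons h1 (ih h')

theorem run_out {p : Prog} : ∀ {t : ℕ} {σ σ' : State}, Run O p t σ σ' →
    ∀ r, p.regs ≤ r → σ' r = σ r := by
  induction p with
  | push r b =>
    rintro t σ σ' ⟨-, rfl⟩ r' hr'
    simp only [Prog.regs] at hr'
    rw [update_of_ne (by omega)]
  | pop r b =>
    rintro t σ σ' ⟨-, l, -, rfl⟩ r' hr'
    simp only [Prog.regs] at hr'
    rw [update_of_ne (by omega)]
  | empty r => rintro t σ σ' ⟨-, -, rfl⟩ r' _; rfl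
  | query r b => rintro t σ σ' ⟨-, -, rfl⟩ r' _; rfl
  | seq p q ihp ihq =>
    rintro t σ σ' ⟨t1, t2, τ, -, h1, h2⟩ r hr
    simp only [Prog.regs, max_le_iff] at hr
    rw [ihq h2 r hr.2, ihp h1 r hr.1]
  | alt p q ihp ihq =>
    rintro t σ σ' (h | h) r hr
    · simp only [Prog.regs, max_le_iff] at hr
      exact ihp h r hr.1
    · simp only [Prog.regs, max_le_iff] at hr
      exact ihq h r hr.2
  | star p ih =>
    intro t σ σ' h r hr
    simp only [Prog.regs] at hr
    change Iter (Run O p) t σ σ' at h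
    induction h with
    | nil σ => rfl
    | cons h1 _ ih' => rw [ih', ih h1 r hr]

theorem run_len {p : Prog} : ∀ {t : ℕ} {σ σ' : State}, Run O p t σ σ' →
    ∀ r, (σ' r).length ≤ (σ r).length + t := by
  induction p with
  | push r b =>
    rintro t σ σ' ⟨rfl, rfl⟩ r'
    by_cases h : r' = r
    · subst h; simp
    · rw [update_of_ne h]; omega
  | pop r b =>
    rintro t σ σ' ⟨rfl, l, hl, rfl⟩ r'
    by_cases h : r' = r
    · subst h; rw [hl]; simp; omega
    · rw [update_of_ne h]; omega
  | empty r => rintro t σ σ' ⟨-, -, rfl⟩ r'; omega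
  | query r b => rintro t σ σ' ⟨-, -, rfl⟩ r'; omega
  | seq p q ihp ihq =>
    rintro t σ σ' ⟨t1, t2, τ, rfl, h1, h2⟩ r
    have := ihp h1 r
    have := ihq h2 r
    omega
  | alt p q ihp ihq =>
    rintro t σ σ' (h | h) r
    · exact ihp h r
    · exact ihq h r
  | star p ih =>
    intro t σ σ' h r
    change Iter (Run O p) t σ σ' at h
    induction h with
    | nil σ => omega
    | cons h1 _ ih' => have := ih h1 r; omega

/-- The part of a state above `k`. -/
def high (k : ℕ) (σ : State) : State := fun r => σ (r + k)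

theorem high_update (k r : ℕ) (σ : State) (l : List Bool) :
    high k (update σ (r + k) l) = update (high k σ) r l := by
  funext r'
  unfold high
  by_cases h : r' = r
  · subst h; simp
  · rw [update_of_ne h, update_of_ne (by omega)]

theorem eq_update_of_high {k r : ℕ} {σ σ' : State} {l : List Bool}
    (h1 : ∀ r' < k, σ' r' = σ r') (h2 : high k σ' = update (high k σ) r l) :
    σ' = update σ (r + k) l := by
  funext r'
  by_cases h : r' < k
  · rw [update_of_ne (by omega), h1 r' h]
  · obtain ⟨s, rfl⟩ : ∃ s, r' = s + k := ⟨r' - k, by omega⟩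
    have := congrFun h2 s
    rw [← high_update] at this
    exact this

theorem eq_of_high {k : ℕ} {σ σ' : State}
    (h1 : ∀ r' < k, σ' r' = σ r') (h2 : high k σ' = high k σ) : σ' = σ := by
  funext r'
  by_cases h : r' < k
  · exact h1 r' h
  · obtain ⟨s, rfl⟩ : ∃ s, r' = s + k := ⟨r' - k, by omega⟩
    exact congrFun h2 s

theorem run_shift {k : ℕ} {p : Prog} : ∀ {t : ℕ} {σ σ' : State},
    Run O (p.shift k) t σ σ' ↔
      (∀ r < k, σ' r = σ r) ∧ Run O p t (high k σ) (high k σ') := by
  induction p with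
  | push r b =>
    intro t σ σ'
    constructor
    · rintro ⟨rfl, rfl⟩
      exact ⟨fun r' h => update_of_ne (by omega) _ _, rfl, by rw [high_update]; rfl⟩
    · rintro ⟨h1, rfl, h2⟩
      exact ⟨rfl, eq_update_of_high h1 h2⟩
  | pop r b =>
    intro t σ σ'
    constructor
    · rintro ⟨rfl, l, hl, rfl⟩
      exact ⟨fun r' h => update_of_ne (by omega) _ _, rfl, l, hl, high_update _ _ _ _⟩
    · rintro ⟨h1, rfl, l, hl, h2⟩
      exact ⟨rfl, l, hl, eq_update_of_high h1 h2⟩
  | empty r =>
    intro t σ σ'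
    constructor
    · rintro ⟨rfl, h, rfl⟩
      exact ⟨fun _ _ => rfl, rfl, h, rfl⟩
    · rintro ⟨h1, rfl, h, h2⟩
      exact ⟨rfl, h, eq_of_high h1 h2⟩
  | query r b =>
    intro t σ σ'
    constructor
    · rintro ⟨rfl, h, rfl⟩
      exact ⟨fun _ _ => rfl, rfl, h, rfl⟩
    · rintro ⟨h1, rfl, h, h2⟩
      exact ⟨rfl, h, eq_of_high h1 h2⟩
  | seq p q ihp ihq =>
    intro t σ σ'
    constructor
    · rintro ⟨t1, t2, τ, rfl, h1, h2⟩
      obtain ⟨a1, a2⟩ := ihp.1 h1
      obtain ⟨b1, b2⟩ := ihq.1 h2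
      exact ⟨fun r hr => by rw [b1 r hr, a1 r hr], t1, t2, _, rfl, a2, b2⟩
    · rintro ⟨h1, t1, t2, τ, rfl, h2, h3⟩
      set τ' : State := fun r => if r < k then σ r else τ (r - k) with hτ'
      have hh : high k τ' = τ := by
        funext r
        simp [high, hτ']
      refine ⟨t1, t2, τ', rfl, ihp.2 ⟨fun r hr => by simp [hτ', hr], by rw [hh]; exact h2⟩,
        ihq.2 ⟨fun r hr => by simp [hτ', hr, h1 r hr], by rw [hh]; exact h3⟩⟩
  | alt p q ihp ihq =>
    intro t σ σ'
    constructor
    · rintro (h | h)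
      · obtain ⟨a, b⟩ := ihp.1 h
        exact ⟨a, Or.inl b⟩
      · obtain ⟨a, b⟩ := ihq.1 h
        exact ⟨a, Or.inr b⟩
    · rintro ⟨a, b | b⟩
      · exact Or.inl (ihp.2 ⟨a, b⟩)
      · exact Or.inr (ihq.2 ⟨a, b⟩)
  | star p ih =>
    intro t σ σ'
    constructor
    · intro h
      change Iter (Run O (p.shift k)) t σ σ' at h
      induction h with
      | nil σ => exact ⟨fun _ _ => rfl, Iter.nil _⟩
      | cons h1 _ ih' =>
        obtain ⟨a1, a2⟩ := ih.1 h1
        obtain ⟨b1, b2⟩ := ih'
        exact ⟨fun r hr => by rw [b1 r hr, a1 r hr], Iter.cons a2 b2⟩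
    · rintro ⟨h1, h2⟩
      change Iter (Run O p) t (high k σ) (high k σ') at h2
      change Iter (Run O (p.shift k)) t σ σ'
      generalize hρ : high k σ = ρ at h2
      generalize hρ' : high k σ' = ρ' at h2
      induction h2 generalizing σ with
      | nil _ =>
        have : σ' = σ := eq_of_high h1 (by rw [hρ, hρ'])
        subst this
        exact Iter.nil _
      | @cons t t' _ τ _ h3 _ ih' =>
        set τ' : State := fun r => if r < k then σ r else τ (r - k) with hτ'
        have hh : high k τ' = τ := by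
          funext r
          simp [high, hτ']
        refine Iter.cons (ih.2 ⟨fun r hr => by simp [hτ', hr], by rw [hh, hρ]; exact h3⟩)
          (ih' (fun r hr => by simp [hτ', hr, h1 r hr]) hh hρ')

/-! ### Loops draining a stack -/

theorem iter_drain {r c : ℕ} {F : Bool → State → State}
    (hF1 : ∀ b σ, F b σ r = σ r) (hF2 : ∀ b σ x, F b (update σ r x) = update (F b σ) r x)
    {R : ℕ → State → State → Prop}
    (hR : ∀ t σ σ', R t σ σ' ↔ ∃ b l, σ r = b :: l ∧ t = c ∧ σ' = F b (update σ r l)) :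
    ∀ (t : ℕ) (σ σ' : State), Iter R t σ σ' ↔ ∃ l l', σ r = l ++ l' ∧ t = c * l.length ∧
      σ' = update (l.foldl (fun τ b => F b τ) σ) r l' := by
  intro t σ σ'
  constructor
  · intro h
    induction h with
    | nil σ => exact ⟨[], σ r, rfl, rfl, by simp⟩
    | cons h1 _ ih =>
      obtain ⟨b, l0, h2, rfl, rfl⟩ := (hR _ _ _).1 h1
      obtain ⟨l, l', h3, rfl, rfl⟩ := ih
      rw [hF1, update_self] at h3
      refine ⟨b :: l, l', by rw [h2, h3]; rfl, by simp [mul_add]; ring, ?_⟩
      rw [hF2, List.foldl_cons]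
      have key : ∀ (l : List Bool) (τ : State) (x : List Bool),
          l.foldl (fun τ b => F b τ) (update τ r x) = update (l.foldl (fun τ b => F b τ) τ) r x := by
        intro l
        induction l with
        | nil => intro τ x; rfl
        | cons b l ih => intro τ x; rw [List.foldl_cons, List.foldl_cons, hF2, ih]
      rw [key, update_idem]
  · rintro ⟨l, l', h1, rfl, rfl⟩
    induction l generalizing σ with
    | nil =>
      have : update σ r l' = σ := by
        rw [List.nil_append] at h1; rw [← h1]; simp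
      simp only [List.foldl_nil, this]
      exact Iter.nil _
    | cons b l ih =>
      have e : c * (b :: l).length = c + c * l.length := by simp [mul_add]; ring
      rw [e]
      refine Iter.cons ((hR _ _ _).2 ⟨b, l ++ l', by rw [h1]; rfl, rfl, rfl⟩) ?_
      have h2 : F b (update σ r (l ++ l')) r = l ++ l' := by rw [hF1, update_self]
      have := ih _ h2
      have key : ∀ (l : List Bool) (τ : State) (x : List Bool),
          l.foldl (fun τ b => F b τ) (update τ r x) = update (l.foldl (fun τ b => F b τ) τ) r x := by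
        intro l
        induction l with
        | nil => intro τ x; rfl
        | cons b l ih => intro τ x; rw [List.foldl_cons, List.foldl_cons, hF2, ih]
      rw [hF2, key, update_idem] at this
      rw [List.foldl_cons]
      convert this using 1
      rw [hF2]

/-! ### Basic programs -/

/-- Pop any bit. -/
def popAny (r : ℕ) : Prog := .alt (.pop r false) (.pop r true)

theorem run_popAny {r t : ℕ} {σ σ' : State} : Run O (popAny r) t σ σ' ↔
    ∃ b l, σ r = b :: l ∧ t = 1 ∧ σ' = update σ r l := by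
  constructor
  · rintro (⟨h1, l, h2, h3⟩ | ⟨h1, l, h2, h3⟩)
    · exact ⟨false, l, h2, h1, h3⟩
    · exact ⟨true, l, h2, h1, h3⟩
  · rintro ⟨b, l, h1, h2, h3⟩
    cases b
    · exact Or.inl ⟨h2, l, h1, h3⟩
    · exact Or.inr ⟨h2, l, h1, h3⟩

/-- Empty a stack. -/
def clear (r : ℕ) : Prog := .seq (.star (popAny r)) (.empty r)

theorem run_clear {r t : ℕ} {σ σ' : State} : Run O (clear r) t σ σ' ↔
    t = (σ r).length + 1 ∧ σ' = update σ r [] := by
  have key : ∀ (l : List Bool) (τ : State), l.foldl (fun (τ : State) (_ : Bool) => τ) τ = τ := by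
    intro l
    induction l with
    | nil => intro τ; rfl
    | cons b l ih => intro τ; rw [List.foldl_cons, ih]
  have h := iter_drain (r := r) (c := 1) (F := fun _ σ => σ) (fun _ _ => rfl)
    (fun _ _ _ => rfl) (R := Run O (popAny r)) (fun t σ σ' => run_popAny)
  constructor
  · rintro ⟨t1, t2, τ, rfl, h1, rfl, h2, rfl⟩
    obtain ⟨l, l', h3, rfl, rfl⟩ := (h _ _ _).1 h1
    rw [key] at *
    rw [update_self] at h2
    subst h2
    rw [List.append_nil] at h3
    exact ⟨by rw [h3, one_mul], rfl⟩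
  · rintro ⟨rfl, rfl⟩
    refine ⟨(σ r).length, 1, update σ r [], rfl, ?_, rfl, by simp, rfl⟩
    exact (h _ _ _).2 ⟨σ r, [], by simp, by simp, by rw [key]⟩

/-- Pop a bit from `r` and push it on `d`. -/
def mvBit (r d : ℕ) : Prog :=
  .alt (.seq (.pop r false) (.push d false)) (.seq (.pop r true) (.push d true))

theorem run_mvBit {r d t : ℕ} {σ σ' : State} : Run O (mvBit r d) t σ σ' ↔
    ∃ b l, σ r = b :: l ∧ t = 2 ∧
      σ' = update (update σ r l) d (b :: (update σ r l) d) := by
  constructor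
  · rintro (⟨t1, t2, τ, rfl, ⟨rfl, l, h1, rfl⟩, rfl, rfl⟩ | ⟨t1, t2, τ, rfl, ⟨rfl, l, h1, rfl⟩, rfl, rfl⟩)
    · exact ⟨false, l, h1, rfl, rfl⟩
    · exact ⟨true, l, h1, rfl, rfl⟩
  · rintro ⟨b, l, h1, rfl, rfl⟩
    cases b
    · exact Or.inl ⟨1, 1, _, rfl, ⟨rfl, l, h1, rfl⟩, rfl, rfl⟩
    · exact Or.inr ⟨1, 1, _, rfl, ⟨rfl, l, h1, rfl⟩, rfl, rfl⟩

theorem foldl_push {d : ℕ} : ∀ (l : List Bool) (σ : State),
    l.foldl (fun τ b => update τ d (b :: τ d)) σ = update σ d (l.reverse ++ σ d) := by
  intro l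
  induction l with
  | nil => intro σ; simp
  | cons b l ih => intro σ; rw [List.foldl_cons, ih]; simp

/-- Move the content of `r` to `d` (reversing it). -/
def mv (r d : ℕ) : Prog := .seq (.star (mvBit r d)) (.empty r)

theorem run_mv {r d t : ℕ} (hrd : r ≠ d) {σ σ' : State} : Run O (mv r d) t σ σ' ↔
    t = 2 * (σ r).length + 1 ∧ σ' = update (update σ r []) d ((σ r).reverse ++ σ d) := by
  have h := iter_drain (r := r) (c := 2) (F := fun b σ => update σ d (b :: σ d))
    (fun b σ => update_of_ne hrd _ _)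
    (fun b σ x => by rw [update_of_ne (Ne.symm hrd), update_comm hrd])
    (R := Run O (mvBit r d)) (fun t σ σ' => run_mvBit)
  constructor
  · rintro ⟨t1, t2, τ, rfl, h1, rfl, h2, rfl⟩
    obtain ⟨l, l', h3, rfl, rfl⟩ := (h _ _ _).1 h1
    rw [foldl_push] at *
    rw [update_self] at h2
    subst h2
    rw [List.append_nil] at h3
    exact ⟨by rw [h3], by rw [h3, update_comm hrd]⟩
  · rintro ⟨rfl, rfl⟩
    refine ⟨2 * (σ r).length, 1, _, rfl, ?_, rfl, ?_, rfl⟩
    · exact (h _ _ _).2 ⟨σ r, [], by simp, rfl, by rw [foldl_push, update_comm hrd]⟩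
    · rw [update_of_ne hrd]; simp

/-- Pop a bit from `r` and push it on `d` and on `d'`. -/
def mvBit2 (r d d' : ℕ) : Prog :=
  .alt (.seq (.pop r false) (.seq (.push d false) (.push d' false)))
    (.seq (.pop r true) (.seq (.push d true) (.push d' true)))

/-- Effect of pushing a bit on two stacks. -/
def push2 (d d' : ℕ) (b : Bool) (σ : State) : State :=
  update (update σ d (b :: σ d)) d' (b :: (update σ d (b :: σ d)) d')

theorem run_mvBit2 {r d d' t : ℕ} {σ σ' : State} : Run O (mvBit2 r d d') t σ σ' ↔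
    ∃ b l, σ r = b :: l ∧ t = 3 ∧ σ' = push2 d d' b (update σ r l) := by
  constructor
  · rintro (⟨t1, t2, τ, rfl, ⟨rfl, l, h1, rfl⟩, t3, t4, τ', rfl, ⟨rfl, rfl⟩, rfl, rfl⟩ |
      ⟨t1, t2, τ, rfl, ⟨rfl, l, h1, rfl⟩, t3, t4, τ', rfl, ⟨rfl, rfl⟩, rfl, rfl⟩)
    · exact ⟨false, l, h1, rfl, rfl⟩
    · exact ⟨true, l, h1, rfl, rfl⟩
  · rintro ⟨b, l, h1, rfl, rfl⟩
    cases b
    · exact Or.inl ⟨1, 2, _, rfl, ⟨rfl, l, h1, rfl⟩, 1, 1, _, rfl, ⟨rfl, rfl⟩, rfl, rfl⟩
    · exact Or.inr ⟨1, 2, _, rfl, ⟨rfl, l, h1, rfl⟩, 1, 1, _, rfl, ⟨rfl, rfl⟩, rfl, rfl⟩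

theorem foldl_push2 {d d' : ℕ} (hd : d ≠ d') : ∀ (l : List Bool) (σ : State),
    l.foldl (fun τ b => push2 d d' b τ) σ =
      update (update σ d (l.reverse ++ σ d)) d' (l.reverse ++ σ d') := by
  intro l
  induction l with
  | nil =>
    intro σ
    funext r
    by_cases h1 : r = d'
    · subst h1; simp
    · by_cases h2 : r = d
      · subst h2; simp [h1]
      · simp [h1]
  | cons b l ih =>
    intro σ
    rw [List.foldl_cons, ih]
    funext r
    unfold push2
    by_cases h1 : r = d'
    · subst h1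
      have : r ≠ d := fun h => hd h.symm
      simp [this]
    · by_cases h2 : r = d
      · subst h2; simp [h1]
      · simp [h1, h2]

/-- Copy the content of `r` on top of `d`, using the empty stack `tmp`. -/
def copy (r d tmp : ℕ) : Prog := .seq (mv r tmp) (.seq (.star (mvBit2 tmp r d)) (.empty tmp))

theorem run_copy {r d tmp t : ℕ} (hrd : r ≠ d) (hrt : r ≠ tmp) (hdt : d ≠ tmp)
    {σ σ' : State} (htmp : σ tmp = []) : Run O (copy r d tmp) t σ σ' ↔
    t = 5 * (σ r).length + 2 ∧ σ' = update σ d (σ r ++ σ d) := by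
  have h := iter_drain (r := tmp) (c := 3) (F := fun b σ => push2 r d b σ)
    (fun b σ => by
      unfold push2
      rw [update_of_ne (Ne.symm hdt), update_of_ne (Ne.symm hrt)])
    (fun b σ x => by
      unfold push2
      funext s
      by_cases h1 : s = tmp
      · subst h1; simp [Ne.symm hrt, Ne.symm hdt]
      · by_cases h2 : s = d
        · subst h2; simp [h1, Ne.symm hrd]
        · by_cases h3 : s = r
          · subst h3; simp [h1, h2]
          · simp [h1, h2, h3])
    (R := Run O (mvBit2 tmp r d)) (fun t σ σ' => run_mvBit2)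
  have hstate : update (update (update (update (update σ r []) tmp ((σ r).reverse ++ σ tmp)) r
      (((σ r).reverse ++ σ tmp).reverse ++
        (update (update σ r []) tmp ((σ r).reverse ++ σ tmp)) r)) d
      (((σ r).reverse ++ σ tmp).reverse ++
        (update (update σ r []) tmp ((σ r).reverse ++ σ tmp)) d)) tmp [] =
      update σ d (σ r ++ σ d) := by
    rw [htmp]
    funext s
    by_cases h1 : s = tmp
    · subst h1; simp [Ne.symm hdt, htmp]
    · by_cases h2 : s = d
      · subst h2; simp [h1, Ne.symm hrd]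
      · by_cases h3 : s = r
        · subst h3; simp [h1, h2]
        · simp [h1, h2, h3]
  constructor
  · rintro ⟨t1, t2, τ, rfl, h1, t3, t4, τ', rfl, h2, rfl, h3, rfl⟩
    rw [run_mv hrt] at h1
    obtain ⟨rfl, rfl⟩ := h1
    obtain ⟨l, l', h4, rfl, rfl⟩ := (h _ _ _).1 h2
    rw [update_self] at h3
    subst h3
    rw [update_self, List.append_nil] at h4
    subst h4
    rw [foldl_push2 hrd]
    refine ⟨?_, hstate⟩
    rw [htmp]; simp; ring
  · rintro ⟨rfl, rfl⟩
    refine ⟨2 * (σ r).length + 1, 3 * (σ r).length + 1, _, by ring, (run_mv hrt).2 ⟨rfl, rfl⟩,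
      3 * (σ r).length, 1, _, rfl, (h _ _ _).2 ⟨(σ r).reverse ++ σ tmp, [], by simp, by simp [htmp], rfl⟩,
      rfl, by simp, ?_⟩
    rw [foldl_push2 hrd]
    exact hstate.symm

end Pool.Agent.LibNexp
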