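import Pool.Agent.LibNexp.Basic

namespace Pool.Agent.LibNexp

open Function

variable {O : List Bool → Bool}

/-- `Quiet b σ`: all stacks from `b` on are empty. -/
def Quiet (b : ℕ) (σ : State) : Prop := ∀ r, b ≤ r → σ r = []

/-- A program testing a property of the stacks below `b`, using the stacks from `b` on as
scratch space. -/
def IsTest (O : List Bool → Bool) (b : ℕ) (Q : State → Prop) (T : State → ℕ) (p : Prog) : Prop :=
  ∀ σ, Quiet b σ → (∀ t σ', Run O p t σ σ' → σ' = σ ∧ Q σ) ∧
    (Q σ → ∃ t, t ≤ T σ ∧ Run O p t σ σ)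

/-- Clear the stacks `b, ..., b + m - 1`. -/
def clearRange (b : ℕ) : ℕ → Prog
  | 0 => .star (.empty 0)
  | m + 1 => .seq (clear (b + m)) (clearRange b m)

theorem run_star_empty {r t : ℕ} {σ σ' : State} (h : Run O (.star (.empty r)) t σ σ') :
    σ' = σ := by
  change Iter _ t σ σ' at h
  induction h with
  | nil σ => rfl
  | cons h1 _ ih => rw [ih]; exact h1.2.2

theorem clearRange_sound {b : ℕ} : ∀ {m t : ℕ} {σ σ' : State},
    Run O (clearRange b m) t σ σ' → ∀ r, σ' r = if b ≤ r ∧ r < b + m then [] else σ r := by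
  intro m
  induction m with
  | zero =>
    intro t σ σ' h r
    rw [run_star_empty h, if_neg (by omega)]
  | succ m ih =>
    rintro t σ σ' ⟨t1, t2, τ, -, h1, h2⟩ r
    rw [run_clear] at h1
    rw [ih h2 r, h1.2]
    by_cases hr : r = b + m
    · subst hr; simp
    · rw [update_of_ne hr]
      by_cases h3 : b ≤ r ∧ r < b + m
      · rw [if_pos h3, if_pos (by omega)]
      · rw [if_neg h3, if_neg (by omega)]

theorem clearRange_complete {b : ℕ} : ∀ {m L : ℕ} {σ : State},
    (∀ r, b ≤ r → (σ r).length ≤ L) → ∃ t σ', t ≤ m * (L + 1) ∧ Run O (clearRange b m) t σ σ' := by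
  intro m
  induction m with
  | zero => intro L σ _; exact ⟨0, σ, by simp, Iter.nil σ⟩
  | succ m ih =>
    intro L σ hL
    obtain ⟨t, σ', ht, h⟩ := ih (L := L) (σ := update σ (b + m) []) (by
      intro r hr
      by_cases h : r = b + m
      · subst h; simp
      · rw [update_of_ne h]; exact hL r hr)
    refine ⟨(σ (b + m)).length + 1 + t, σ', ?_, _, _, _, rfl, run_clear.2 ⟨rfl, rfl⟩, h⟩
    have := hL (b + m) (by omega)
    rw [Nat.succ_mul]
    omega

/-- Copy the stacks listed by `rs` to `b, b + 1, ...` with scratch stack `tmp`. -/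
def copyAll (b tmp : ℕ) : List ℕ → Prog
  | [] => .star (.empty 0)
  | r :: rs => .seq (copy r b tmp) (copyAll (b + 1) tmp rs)

/-- The state after copying. -/
def copied (b : ℕ) (rs : List ℕ) (σ : State) : State := fun r =>
  if h : b ≤ r ∧ r < b + rs.length then σ (rs[r - b]'(by omega)) else σ r

theorem copied_cons {b r : ℕ} {rs : List ℕ} {σ : State} (hr : r < b) (hrs : ∀ s ∈ rs, s < b) :
    copied (b + 1) rs (update σ b (σ r)) = copied b (r :: rs) σ := by
  funext s
  unfold copied
  by_cases h1 : b + 1 ≤ s ∧ s < b + 1 + rs.length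
  · have h2 : b ≤ s ∧ s < b + (r :: rs).length := by simp; omega
    rw [dif_pos h1, dif_pos h2]
    have h3 : (r :: rs)[s - b]'(by simp; omega) = rs[s - (b + 1)]'(by omega) := by
      have : s - b = (s - (b + 1)) + 1 := by omega
      simp only [this, List.getElem_cons_succ]
    rw [h3, update_of_ne]
    have := hrs _ (List.getElem_mem (l := rs) (n := s - (b + 1)) (by omega))
    omega
  · rw [dif_neg h1]
    by_cases h2 : s = b
    · subst h2
      simp
    · rw [update_of_ne h2, dif_neg]
      simp only [List.length_cons]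
      omega

theorem copyAll_spec {tmp : ℕ} : ∀ {rs : List ℕ} {b : ℕ} {σ : State},
    (∀ s ∈ rs, s < b) → b + rs.length ≤ tmp → Quiet b σ →
    (∀ t σ', Run O (copyAll b tmp rs) t σ σ' → σ' = copied b rs σ) ∧
    Run O (copyAll b tmp rs) ((rs.map fun s => 5 * (σ s).length + 2).sum) σ (copied b rs σ) := by
  intro rs
  induction rs with
  | nil =>
    intro b σ _ _ _
    have : copied b [] σ = σ := by
      funext r; unfold copied; rw [dif_neg]; simp
    rw [this]
    exact ⟨fun t σ' h => run_star_empty h, Iter.nil σ⟩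
  | cons r rs ih =>
    intro b σ hrs htmp hq
    have hr : r < b := hrs r (by simp)
    simp only [List.length_cons] at htmp
    have hcopy := fun (t : ℕ) (τ : State) => run_copy (O := O) (r := r) (d := b) (tmp := tmp)
      (t := t) (σ := σ) (σ' := τ) (by omega) (by omega) (by omega) (hq tmp (by omega))
    have hσb : σ b = [] := hq b le_rfl
    have hq' : Quiet (b + 1) (update σ b (σ r)) := by
      intro s hs
      rw [update_of_ne (by omega)]
      exact hq s (by omega)
    have hrs' : ∀ s ∈ rs, s < b := fun s hs => hrs s (by simp [hs])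
    have ih' := ih (b := b + 1) (σ := update σ b (σ r)) (fun s hs => by
      have := hrs' s hs
      omega) (by omega) hq'
    rw [copied_cons hr hrs'] at ih'
    constructor
    · rintro t σ' ⟨t1, t2, τ, -, h1, h2⟩
      rw [hcopy, hσb, List.append_nil] at h1
      obtain ⟨-, rfl⟩ := h1
      exact ih'.1 _ _ h2
    · refine ⟨5 * (σ r).length + 2, _, _, rfl, (hcopy _ _).2 ⟨rfl, by rw [hσb, List.append_nil]⟩, ?_⟩
      have e : (rs.map fun s => 5 * (σ s).length + 2) =
          rs.map fun s => 5 * (update σ b (σ r) s).length + 2 := by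
        apply List.map_congr_left
        intro s hs
        rw [update_of_ne (by have := hrs' s hs; omega)]
      rw [e]
      exact ih'.2

/-- Call the program `p` on the stacks listed by `rs`. -/
def call (b : ℕ) (rs : List ℕ) (p : Prog) : Prog :=
  .seq (copyAll b (b + rs.length) rs)
    (.seq (p.shift b) (clearRange b (max p.regs rs.length)))

theorem high_copied {k b : ℕ} {rs : Fin k → ℕ} {σ : State}
    (hq : Quiet b σ) : high b (copied b (List.ofFn rs) σ) = init fun j => σ (rs j) := by
  funext s
  unfold high copied init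
  by_cases h : s < k
  · rw [dif_pos h, dif_pos (by simp; omega)]
    simp
  · rw [dif_neg h, dif_neg (by simp; omega)]
    exact hq _ (by omega)

theorem call_sound {k b : ℕ} {rs : Fin k → ℕ} (hrs : ∀ j, rs j < b) {p : Prog}
    {t : ℕ} {σ σ' : State} (hq : Quiet b σ) (h : Run O (call b (List.ofFn rs) p) t σ σ') :
    σ' = σ ∧ ∃ t' τ, Run O p t' (init fun j => σ (rs j)) τ := by
  obtain ⟨t1, t2, τ1, -, h1, t3, t4, τ2, -, h2, h3⟩ := h
  have hrs' : ∀ s ∈ List.ofFn rs, s < b := by
    intro s hs
    rw [List.mem_ofFn] at hs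
    obtain ⟨j, rfl⟩ := hs
    exact hrs j
  have e1 := (copyAll_spec (O := O) hrs' le_rfl hq).1 _ _ h1
  subst e1
  rw [run_shift, high_copied hq] at h2
  obtain ⟨h4, h5⟩ := h2
  refine ⟨?_, _, _, h5⟩
  have h6 := clearRange_sound h3
  funext r
  rw [h6 r]
  by_cases hr : r < b
  · rw [if_neg (by omega), h4 r hr]
    unfold copied
    rw [dif_neg (by omega)]
  · rw [hq r (by omega)]
    by_cases hr2 : r < b + max p.regs (List.ofFn rs).length
    · rw [if_pos (by omega)]
    · rw [if_neg (by omega)]
      have h7 := run_out h5 (r - b) (by omega)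
      unfold high at h7
      rw [Nat.sub_add_cancel (by omega)] at h7
      rw [h7]
      unfold init
      rw [dif_neg]
      simp only [List.length_ofFn] at hr2
      omega

theorem length_init_le {k : ℕ} (e : Fin k → List Bool) (r : ℕ) :
    (init e r).length ≤ size e := by
  unfold init size
  split_ifs with h
  · exact Finset.single_le_sum (f := fun i => (e i).length) (fun _ _ => Nat.zero_le _)
      (Finset.mem_univ _)
  · simp

theorem call_complete {k b : ℕ} {rs : Fin k → ℕ} (hrs : ∀ j, rs j < b) {p : Prog}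
    {t : ℕ} {σ τ : State} (hq : Quiet b σ) (h : Run O p t (init fun j => σ (rs j)) τ) :
    ∃ t', t' ≤ (p.regs + k + 6) * (size (fun j => σ (rs j)) + t + 1) + 2 * k ∧
      Run O (call b (List.ofFn rs) p) t' σ σ := by
  set e : Fin k → List Bool := fun j => σ (rs j) with he
  have hrs' : ∀ s ∈ List.ofFn rs, s < b := by
    intro s hs
    rw [List.mem_ofFn] at hs
    obtain ⟨j, rfl⟩ := hs
    exact hrs j
  have h1 := (copyAll_spec (O := O) hrs' le_rfl hq).2
  set τ' : State := fun r => if r < b then σ r else τ (r - b) with hτ'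
  have hh : high b τ' = τ := by
    funext r
    simp [high, hτ']
  have h2 : Run O (p.shift b) t (copied b (List.ofFn rs) σ) τ' := by
    rw [run_shift, high_copied hq, hh]
    refine ⟨fun r hr => ?_, h⟩
    unfold copied
    rw [dif_neg (by omega)]
    simp [hτ', hr]
  have hlen : ∀ r, b ≤ r → (τ' r).length ≤ size e + t := by
    intro r hr
    simp only [hτ', if_neg (not_lt.2 hr)]
    have := run_len h (r - b)
    have := length_init_le e (r - b)
    omega
  obtain ⟨t3, σ', ht3, h3⟩ := clearRange_complete (O := O)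
    (m := max p.regs (List.ofFn rs).length) hlen
  have hfin : Run O (call b (List.ofFn rs) p) _ σ σ' := ⟨_, _, _, rfl, h1, _, _, _, rfl, h2, h3⟩
  have hσ' := (call_sound hrs hq hfin).1
  rw [hσ'] at hfin
  refine ⟨_, ?_, hfin⟩
  have hsum : ((List.ofFn rs).map fun s => 5 * (σ s).length + 2).sum = 5 * size e + 2 * k := by
    rw [List.map_ofFn, List.sum_ofFn]
    simp only [Function.comp_apply]
    rw [Finset.sum_add_distrib, ← Finset.mul_sum]
    simp [size, he]
    ring
  have hmax : max p.regs (List.ofFn rs).length ≤ p.regs + k := by simp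
  have : max p.regs (List.ofFn rs).length * (size e + t + 1) ≤ (p.regs + k) * (size e + t + 1) :=
    Nat.mul_le_mul_right _ hmax
  rw [hsum]
  nlinarith

/-- A relation recognised in time `T` can be tested. -/
theorem isTest_call {k b : ℕ} {T : ℕ → ℕ} {R : (Fin k → List Bool) → Prop}
    (hR : NTime O T R) {rs : Fin k → ℕ} (hrs : ∀ j, rs j < b) :
    ∃ K p, IsTest O b (fun σ => R fun j => σ (rs j))
      (fun σ => K * (size (fun j => σ (rs j)) + T (size fun j => σ (rs j)) + 1)) p := by
  obtain ⟨p, hp⟩ := hR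
  refine ⟨p.regs + k + 6 + 2 * k, call b (List.ofFn rs) p, fun σ hq => ⟨fun t σ' h => ?_, fun h => ?_⟩⟩
  · obtain ⟨h1, t', τ, h2⟩ := call_sound hrs hq h
    exact ⟨h1, (hp _).1 _ _ h2⟩
  · obtain ⟨t, τ, ht, h1⟩ := (hp _).2 h
    obtain ⟨t', ht', h2⟩ := call_complete hrs hq h1
    refine ⟨t', le_trans ht' ?_, h2⟩
    nlinarith

end Pool.Agent.LibNexp
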