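import Pool.Agent.LibNexp.Coding

/-!
One stage of the construction of an oracle for which a given number of advice values suffices
and no smaller number does.
-/

namespace Pool.Agent.LibNexp

open Function

variable {en : ℕ → Prog × ℕ} {V : ℕ} {ν : ℕ → ℕ}

theorem acc_use' {O : List Bool → Bool} {p : Prog} {T : ℕ} {z : List Bool} (h : Acc O p T z) :
    ∃ Q : Finset (List Bool), Q.card ≤ T ∧ (∀ s ∈ Q, s.length ≤ z.length + T) ∧
      ∀ O' : List Bool → Bool, (∀ s ∈ Q, O' s = O s) → Acc O' p T z := by
  classical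
  obtain ⟨Q, hQ, h1⟩ := acc_use h
  refine ⟨Q.filter fun s => s.length ≤ z.length + T, le_trans (Finset.card_filter_le _ _) hQ,
    fun s hs => (Finset.mem_filter.1 hs).2, fun O' hO' => ?_⟩
  have h2 := h1 (fun s => if s.length ≤ z.length + T then O' s else O s) (by
    intro s hs
    split_ifs with h3
    · exact hO' s (Finset.mem_filter.2 ⟨hs, h3⟩)
    · rfl)
  refine acc_agree (fun s hs => ?_) h2
  rw [if_pos hs]

theorem not_isCode_true (s : List Bool) : ¬ IsCode en (true :: s) := by
  rintro ⟨N, x, r, w, h, -⟩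
  simp [cd] at h

theorem xs_append (n i : ℕ) (w : List Bool) : ∃ l, xs n i ++ w = true :: l :=
  ⟨_, by unfold xs; rw [List.replicate_succ, List.cons_append, List.cons_append]⟩

theorem census_eq {O : List Bool → Bool} {n j : ℕ} (hj : j ≤ V - 1)
    (h : ∀ i, i < V - 1 → (xs n i ∈ WitLang O ↔ i < j)) : census V O n = j := by
  classical
  unfold census
  have : (Finset.range (V - 1)).filter (fun i => xs n i ∈ WitLang O) = Finset.range j := by
    ext i
    simp only [Finset.mem_filter, Finset.mem_range]
    constructor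
    · rintro ⟨h1, h2⟩; exact (h i h1).1 h2
    · intro h1; exact ⟨by omega, (h i (by omega)).2 h1⟩
  rw [this, Finset.card_range]

theorem chain2 (hν : ∀ k, V ≤ ν k) (hmono : ∀ k, lev ν k < lev ν (k + 1)) {k : ℕ} {p : Prog}
    {T S : ℕ} {A : Finset (List Bool)} (hT : V * T < 2 ^ (2 ^ ν k))
    (hS : S < lev ν (k + 1))
    (hAS : ∀ a ∈ A, ∀ x : List Bool, x.length = ν k → (pair x a).length + T ≤ S)
    {O₀ : List Bool → Bool} (hgood : Good en V ν O₀)
    (hcon : ∀ O, Good en V ν O → (∀ s, s.length < lev ν k → O s = O₀ s) →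
      ∃ a ∈ A, ¬ Wrong O p T (ν k) a) (j : ℕ) (hj : j ≤ V - 1) :
    ∃ (O : List Bool → Bool) (Q B : Finset (List Bool)),
      (∀ s, s.length < lev ν k → O s = O₀ s) ∧ Good en V ν O ∧ Q.card ≤ j * T ∧
      (∀ s ∈ Q, s.length ≤ S) ∧ B ⊆ A ∧ B.card = j ∧
      (∀ i, i < V - 1 → (xs (ν k) i ∈ WitLang O ↔ i < j)) ∧
      (∀ N x r w, w.length = qlen en N x.length → lev ν k ≤ qlen en N x.length →
        qlen en N x.length < lev ν (k + 1) → j < r → O (cd N x r w) = false) ∧
      (∀ O' : List Bool → Bool, (∀ s ∈ Q, O' s = O s) → (∀ i, i < j → xs (ν k) i ∈ WitLang O') →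
        ∀ a ∈ B, Wrong O' p T (ν k) a) := by
  classical
  have hlen : ∀ {i : ℕ}, i < V - 1 → (xs (ν k) i).length = ν k := fun {i} hi =>
    length_xs (by have := hν k; omega)
  induction j with
  | zero =>
    set P : List Bool → Bool := fun s => if s.length < lev ν k then O₀ s else false with hP
    obtain ⟨O, h1, h2⟩ := comp (en := en) hν P ∅ (lev ν k)
    have hP1 : ∀ s, s.length < lev ν k → P s = O₀ s := fun s hs => by simp only [hP, if_pos hs]
    have hP0 : ∀ s, lev ν k ≤ s.length → P s = false := fun s hs => by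
      simp only [hP, if_neg (not_lt.2 hs)]
    have hwit : ∀ i, i < V - 1 → (xs (ν k) i ∈ WitLang O ↔ i < 0) := by
      intro i hi
      constructor
      · rintro ⟨w, hw, h⟩
        exfalso
        obtain ⟨l, hl⟩ := xs_append (ν k) i w
        rw [h1 _ (Or.inr (Or.inr (by rw [hl]; exact not_isCode_true l))),
          hP0 _ (by rw [List.length_append, hw, hlen hi]; exact le_rfl)] at h
        exact absurd h (by simp)
      · intro h; omega
    refine ⟨O, ∅, ∅, fun s hs => by rw [h1 s (Or.inl hs), hP1 s hs], ?_, by simp, by simp, by simp,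
      by simp, hwit, ?_, by simp⟩
    · refine good_comp hν hgood h1 h2 hP1 (by simp) (fun s hs => ?_) (by simp) (by simp)
      by_cases h3 : (false :: s).length < lev ν k
      · rw [hP1 _ h3] at hs; exact hgood.codes s hs
      · rw [hP0 _ (not_lt.1 h3)] at hs; exact absurd hs (by simp)
    · intro N x r w hw h3 h4 h5
      by_contra hne
      rw [Bool.not_eq_false] at hne
      have h6 := (val_cd ((h2 _ (by have := length_lt_cd N x r w; omega) (by simp)
        ⟨N, x, r, w, rfl, hw⟩).1 hne)).1
      rw [tag_eq hmono h3 h4, census_eq hj hwit] at h6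
      omega
  | succ j ih =>
    obtain ⟨O, Q, B, h1, h2, h3, h4, h5, h6, h7, h8, h9⟩ := ih (by omega)
    obtain ⟨a, haA, hwa⟩ := hcon O h2 h1
    have haB : a ∉ B := fun h => hwa (h9 O (fun _ _ => rfl) (fun i hi => (h7 i (by omega)).2 hi) a h)
    set x := xs (ν k) j with hx
    have hxn : x.length = ν k := hlen (by omega)
    have hxW : x ∉ WitLang O := fun h => by have := (h7 j (by omega)).1 h; omega
    have hacc : Acc O p T (pair x a) := by
      by_contra hna
      exact hwa ⟨x, hxn, fun h => hna (h.1 hxW)⟩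
    obtain ⟨Q', hQ', hQS, hQ'2⟩ := acc_use' hacc
    set F := Q ∪ Q' with hFdef
    have hFcard : F.card ≤ (j + 1) * T := by
      refine le_trans (Finset.card_union_le _ _) ?_
      rw [Nat.succ_mul]
      omega
    have hFcard2 : F.card < 2 ^ (2 ^ ν k) := by
      have : (j + 1) * T ≤ V * T := Nat.mul_le_mul_right _ (by omega)
      omega
    have hFS : ∀ s ∈ F, s.length ≤ S := by
      intro s hs
      rcases Finset.mem_union.1 hs with hs | hs
      · exact h4 s hs
      · exact le_trans (hQS s hs) (hAS a haA x hxn)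
    obtain ⟨w, hw, hwF⟩ : ∃ w ∈ strs (2 ^ ν k), x ++ w ∉ F := by
      by_contra hcon2
      push Not at hcon2
      have hc := Finset.card_le_card_of_injOn (fun w => x ++ w) hcon2
        (fun w _ w' _ h => List.append_cancel_left h)
      rw [card_strs] at hc
      omega
    have hwn := mem_strs.1 hw
    obtain ⟨l, hl⟩ := xs_append (ν k) j w
    rw [← hx] at hl
    have hlev : (x ++ w).length = lev ν k := by rw [List.length_append, hxn, hwn]; rfl
    set P : List Bool → Bool := update O (x ++ w) true with hP
    have hPne : ∀ s, s ≠ x ++ w → P s = O s := fun s hs => update_of_ne hs _ _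
    obtain ⟨O₂, g1, g2⟩ := comp (en := en) hν P F (lev ν k)
    have hP1 : ∀ s, s.length < lev ν k → P s = O s := fun s hs => hPne s (by
      rintro rfl; omega)
    have hP2 : ∀ s ∈ F, P s = O s := fun s hs => hPne s (by rintro rfl; exact hwF hs)
    have hO2F : ∀ s ∈ F, O₂ s = O s := fun s hs => by rw [g1 s (Or.inr (Or.inl hs)), hP2 s hs]
    have hwit : ∀ i, i < V - 1 → (xs (ν k) i ∈ WitLang O₂ ↔ i < j + 1) := by
      intro i hi
      have key : ∀ v : List Bool, O₂ (xs (ν k) i ++ v) = P (xs (ν k) i ++ v) := by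
        intro v
        obtain ⟨l', hl'⟩ := xs_append (ν k) i v
        exact g1 _ (Or.inr (Or.inr (by rw [hl']; exact not_isCode_true l')))
      constructor
      · rintro ⟨v, hv, h⟩
        rw [key] at h
        by_cases he : xs (ν k) i ++ v = x ++ w
        · have : xs (ν k) i = xs (ν k) j := (List.append_inj he (by rw [hlen hi, hxn])).1
          have := xs_injective this
          omega
        · rw [hPne _ he] at h
          have := (h7 i hi).1 ⟨v, hv, h⟩
          omega
      · intro h
        rcases Nat.lt_or_ge i j with h10 | h10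
        · obtain ⟨v, hv, h11⟩ := (h7 i hi).2 h10
          refine ⟨v, hv, ?_⟩
          rw [key]
          by_cases he : xs (ν k) i ++ v = x ++ w
          · rw [he, hP, update_self]
          · rw [hPne _ he, h11]
        · have : i = j := by omega
          subst this
          exact ⟨w, by rw [hwn, hlen hi], by rw [key, hP, ← hx, update_self]⟩
    have hcensus := census_eq (V := V) (j := j + 1) (by omega) hwit
    have hgood2 : Good en V ν O₂ := by
      refine good_comp hν h2 g1 g2 hP1 hP2 (fun s hs => ?_) ?_ ?_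
      · rw [hPne _ (by rw [hl]; simp)] at hs
        exact h2.codes s hs
      · intro N y r v hmem hv hq hr
        have h10 : qlen en N y.length < lev ν (k + 1) := by
          have := hFS _ hmem
          have := length_lt_cd N y r v
          omega
        rw [tag_eq hmono hq h10, hcensus] at hr
        rw [hP2 _ hmem]
        exact h8 N y r v hv hq h10 (by omega)
      · have : 2 ^ (2 ^ ν k) ≤ 2 ^ lev ν k := Nat.pow_le_pow_right (by norm_num)
          (Nat.le_add_left _ _)
        omega
    refine ⟨O₂, F, insert a B, fun s hs => ?_, hgood2, hFcard, hFS, Finset.insert_subset haA h5,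
      by rw [Finset.card_insert_of_notMem haB, h6], hwit, ?_, ?_⟩
    · rw [g1 s (Or.inl hs), hP1 s hs, h1 s hs]
    · intro N y r v hv h10 h11 h12
      by_cases hmem : cd N y r v ∈ F
      · rw [hO2F _ hmem]
        exact h8 N y r v hv h10 h11 (by omega)
      · by_contra hne
        rw [Bool.not_eq_false] at hne
        have h13 := (val_cd ((g2 _ (by have := length_lt_cd N y r v; omega) hmem
          ⟨N, y, r, v, rfl, hv⟩).1 hne)).1
        rw [tag_eq hmono h10 h11, hcensus] at h13
        omega
    · intro O' hO' hX' b hb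
      have hag : ∀ s ∈ F, O' s = O s := fun s hs => by rw [hO' s hs, hO2F s hs]
      rw [Finset.mem_insert] at hb
      rcases hb with rfl | hb
      · refine ⟨x, hxn, fun h => ?_⟩
        have h10 : Acc O' p T (pair x b) :=
          hQ'2 O' fun s hs => hag s (Finset.mem_union_right _ hs)
        exact h.2 h10 (hX' j (by omega))
      · exact h9 O' (fun s hs => hag s (Finset.mem_union_left _ hs))
          (fun i hi => hX' i (by omega)) b hb

/-- One stage. -/
theorem stage (hν : ∀ k, V ≤ ν k) (hmono : ∀ k, lev ν k < lev ν (k + 1)) {k : ℕ} {p : Prog}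
    {T S : ℕ} {A : Finset (List Bool)} (hT : V * T < 2 ^ (2 ^ ν k))
    (hS : S < lev ν (k + 1))
    (hAS : ∀ a ∈ A, ∀ x : List Bool, x.length = ν k → (pair x a).length + T ≤ S)
    (hA : A.card < V) {O₀ : List Bool → Bool} (hgood : Good en V ν O₀) :
    ∃ O, Good en V ν O ∧ (∀ s, s.length < lev ν k → O s = O₀ s) ∧
      ∀ a ∈ A, Wrong O p T (ν k) a := by
  classical
  by_contra hcon
  push Not at hcon
  obtain ⟨O, Q, B, h1, h2, h3, h4, h5, h6, h7, h8, h9⟩ :=
    chain2 hν hmono hT hS hAS hgood hcon (V - 1) le_rfl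
  have hB : B = A := Finset.eq_of_subset_of_card_le h5 (by omega)
  obtain ⟨a, ha, hwa⟩ := hcon O h2 h1
  exact hwa (h9 O (fun _ _ => rfl) (fun i hi => (h7 i hi).2 hi) a (by rw [hB]; exact ha))

end Pool.Agent.LibNexp
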