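import Pool.Agent.LibNexp.Growth

namespace Pool.Agent.LibNexp

open Function

variable {O : List Bool → Bool}

theorem EP.comp {T g : ℕ → ℕ} (hT : EP T) (hg : PolyB g) : EP fun n => T (g n) := by
  obtain ⟨f, ⟨c, hc⟩, hTf⟩ := hT
  exact ⟨fun n => g n ^ c + c, hg.comp_pow c, fun n =>
    le_trans (hTf _) (Nat.pow_le_pow_right (by norm_num) (hc _))⟩

theorem IsTest.seq {b : ℕ} {Q₁ Q₂ : State → Prop} {T₁ T₂ : State → ℕ} {p₁ p₂ : Prog}
    (h₁ : IsTest O b Q₁ T₁ p₁) (h₂ : IsTest O b Q₂ T₂ p₂) :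
    IsTest O b (fun σ => Q₁ σ ∧ Q₂ σ) (fun σ => T₁ σ + T₂ σ) (.seq p₁ p₂) := by
  intro σ hq
  constructor
  · rintro t σ' ⟨t1, t2, τ, -, h3, h4⟩
    obtain ⟨rfl, h5⟩ := (h₁ σ hq).1 _ _ h3
    obtain ⟨rfl, h6⟩ := (h₂ τ hq).1 _ _ h4
    exact ⟨rfl, h5, h6⟩
  · rintro ⟨h5, h6⟩
    obtain ⟨t1, h3, h4⟩ := (h₁ σ hq).2 h5
    obtain ⟨t2, h7, h8⟩ := (h₂ σ hq).2 h6
    exact ⟨t1 + t2, Nat.add_le_add h3 h7, t1, t2, σ, rfl, h4, h8⟩

theorem IsTest.alt {b : ℕ} {Q₁ Q₂ : State → Prop} {T₁ T₂ : State → ℕ} {p₁ p₂ : Prog}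
    (h₁ : IsTest O b Q₁ T₁ p₁) (h₂ : IsTest O b Q₂ T₂ p₂) :
    IsTest O b (fun σ => Q₁ σ ∨ Q₂ σ) (fun σ => T₁ σ + T₂ σ) (.alt p₁ p₂) := by
  intro σ hq
  constructor
  · rintro t σ' (h3 | h3)
    · obtain ⟨rfl, h5⟩ := (h₁ σ hq).1 _ _ h3
      exact ⟨rfl, Or.inl h5⟩
    · obtain ⟨rfl, h5⟩ := (h₂ σ hq).1 _ _ h3
      exact ⟨rfl, Or.inr h5⟩
  · rintro (h5 | h5)
    · obtain ⟨t1, h3, h4⟩ := (h₁ σ hq).2 h5
      exact ⟨t1, le_trans h3 (Nat.le_add_right _ _), Or.inl h4⟩
    · obtain ⟨t1, h3, h4⟩ := (h₂ σ hq).2 h5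
      exact ⟨t1, le_trans h3 (Nat.le_add_left _ _), Or.inr h4⟩

theorem NEXP.and {k : ℕ} {R₁ R₂ : (Fin k → List Bool) → Prop} (h₁ : NEXP O R₁)
    (h₂ : NEXP O R₂) : NEXP O fun e => R₁ e ∧ R₂ e := by
  obtain ⟨T₁, hT₁, -, h₁⟩ := isTest_nexp h₁
  obtain ⟨T₂, hT₂, -, h₂⟩ := isTest_nexp h₂
  obtain ⟨p₁, hp₁⟩ := h₁ k (fun j => j) (fun j => j.2)
  obtain ⟨p₂, hp₂⟩ := h₂ k (fun j => j) (fun j => j.2)
  refine nexp_of_test (hp₁.seq hp₂) (fun e => ?_) (hT₁.add hT₂) (fun e => ?_)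
  · simp only [init_apply]
  · simp only [init_apply]; exact le_rfl

theorem NEXP.or {k : ℕ} {R₁ R₂ : (Fin k → List Bool) → Prop} (h₁ : NEXP O R₁)
    (h₂ : NEXP O R₂) : NEXP O fun e => R₁ e ∨ R₂ e := by
  obtain ⟨T₁, hT₁, -, h₁⟩ := isTest_nexp h₁
  obtain ⟨T₂, hT₂, -, h₂⟩ := isTest_nexp h₂
  obtain ⟨p₁, hp₁⟩ := h₁ k (fun j => j) (fun j => j.2)
  obtain ⟨p₂, hp₂⟩ := h₂ k (fun j => j) (fun j => j.2)
  refine nexp_of_test (hp₁.alt hp₂) (fun e => ?_) (hT₁.add hT₂) (fun e => ?_)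
  · simp only [init_apply]
  · simp only [init_apply]; exact le_rfl

theorem NEXP.reindex {k m : ℕ} {R : (Fin k → List Bool) → Prop} (h : NEXP O R)
    (f : Fin k → Fin m) : NEXP O fun e : Fin m → List Bool => R fun j => e (f j) := by
  obtain ⟨T, hT, hmono, h⟩ := isTest_nexp h
  obtain ⟨p, hp⟩ := h m (fun j => f j) (fun j => (f j).2)
  refine nexp_of_test (T' := fun n => T (k * n)) hp (fun e => ?_)
    (hT.comp ((PolyB.const k).mul PolyB.id)) (fun e => ?_)
  · simp only [init_apply]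
  · simp only [init_apply]
    exact hmono (size_comp_le e f)

theorem NEXP.congr {k : ℕ} {R R' : (Fin k → List Bool) → Prop} (h : NEXP O R)
    (hR : ∀ e, R e ↔ R' e) : NEXP O R' := by
  have : R = R' := funext fun e => propext (hR e)
  rwa [← this]

/-- Push any string on a stack. -/
def guess (r : ℕ) : Prog := .star (.alt (.push r false) (.push r true))

theorem run_guess {r t : ℕ} {σ σ' : State} : Run O (guess r) t σ σ' ↔
    ∃ z : List Bool, t = z.length ∧ σ' = update σ r (z ++ σ r) := by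
  constructor
  · intro h
    change Iter _ t σ σ' at h
    induction h with
    | nil σ => exact ⟨[], rfl, by simp⟩
    | cons h1 _ ih =>
      obtain ⟨z, rfl, rfl⟩ := ih
      rcases h1 with ⟨rfl, rfl⟩ | ⟨rfl, rfl⟩
      · exact ⟨z ++ [false], by simp; ring, by simp⟩
      · exact ⟨z ++ [true], by simp; ring, by simp⟩
  · rintro ⟨z, rfl, rfl⟩
    change Iter _ _ _ _
    induction z using List.reverseRecOn generalizing σ with
    | nil => simpa using Iter.nil (R := Run O (.alt (.push r false) (.push r true))) σ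
    | append_singleton z b ih =>
      have h1 : Run O (.alt (.push r false) (.push r true)) 1 σ (update σ r (b :: σ r)) := by
        cases b
        · exact Or.inl ⟨rfl, rfl⟩
        · exact Or.inr ⟨rfl, rfl⟩
      have h2 := Iter.cons h1 (ih (σ := update σ r (b :: σ r)))
      simp only [update_self, update_idem] at h2
      convert h2 using 1
      · simp; ring
      · simp

/-- Appending an input. -/
abbrev app {k : ℕ} (e : Fin k → List Bool) (z : List Bool) : Fin (k + 1) → List Bool :=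
  Fin.snoc (α := fun _ => List Bool) e z

theorem size_app {k : ℕ} (e : Fin k → List Bool) (z : List Bool) :
    size (app e z) = size e + z.length := by
  unfold size app
  rw [Fin.sum_univ_castSucc]
  simp

theorem update_init {k : ℕ} (e : Fin k → List Bool) (z : List Bool) :
    update (init e) k z = init (app e z) := by
  funext r
  unfold init app
  by_cases h : r = k
  · subst h
    rw [update_self, dif_pos (by omega)]
    simp [Fin.snoc]
  · rw [update_of_ne h]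
    by_cases h1 : r < k
    · rw [dif_pos h1, dif_pos (by omega)]
      simp [Fin.snoc, h1]
    · rw [dif_neg h1, dif_neg (by omega)]

theorem NEXP.exists {k : ℕ} {R : (Fin (k + 1) → List Bool) → Prop} (h : NEXP O R)
    {g : ℕ → ℕ} (hg : PolyB g) (hbound : ∀ e z, R (app e z) → z.length ≤ g (size e)) :
    NEXP O fun e : Fin k → List Bool => ∃ z, R (app e z) := by
  obtain ⟨T, hT, hmono, h⟩ := isTest_nexp h
  obtain ⟨p, hp⟩ := h (k + 1) (fun j => j) (fun j => j.2)
  rw [nexp_iff]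
  refine ⟨fun n => g n + T (n + g n), (EP.of_poly hg).add (hT.comp (PolyB.id.add hg)),
    .seq (guess k) p, fun e => ?_⟩
  have hσ : ∀ z, update (init e) k (z ++ init e k) = init (app e z) := by
    intro z
    have : init e k = [] := quiet_init e k le_rfl
    rw [this, List.append_nil, update_init]
  constructor
  · rintro t σ' ⟨t1, t2, τ, -, h1, h2⟩
    rw [run_guess] at h1
    obtain ⟨z, -, rfl⟩ := h1
    rw [hσ] at h2
    have h3 := (hp _ (quiet_init _)).1 _ _ h2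
    refine ⟨z, ?_⟩
    have h4 := h3.2
    simpa only [init_apply] using h4
  · rintro ⟨z, hz⟩
    have hz' := hbound e z hz
    obtain ⟨t, ht, h1⟩ := (hp _ (quiet_init (app e z))).2 (by simpa only [init_apply] using hz)
    refine ⟨z.length + t, init (app e z), ?_, z.length, t, init (app e z), rfl, ?_, h1⟩
    · simp only [init_apply] at ht
      have h3 := hmono (show size (app e z) ≤ size e + g (size e) by rw [size_app]; omega)
      exact Nat.add_le_add hz' (le_trans ht h3)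
    · rw [run_guess]
      exact ⟨z, rfl, (hσ z).symm⟩

end Pool.Agent.LibNexp
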