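import Mathlib

/-!
Nondeterministic programs over finitely many stacks of bits, with oracle queries, their
running time, and the classes of relations they recognise.
-/

namespace Pool.Agent.LibNexp

/-- Nondeterministic programs: the control is a regular expression over the basic
actions on stacks `0, 1, 2, ...` of bits. -/
inductive Prog : Type
  /-- push the bit `b` on stack `r` -/
  | push (r : ℕ) (b : Bool) : Prog
  /-- pop the bit `b` from stack `r`; possible only if the top bit is `b` -/
  | pop (r : ℕ) (b : Bool) : Prog
  /-- possible only if stack `r` is empty; changes nothing -/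
  | empty (r : ℕ) : Prog
  /-- possible only if the oracle answers `b` on the content of stack `r` -/
  | query (r : ℕ) (b : Bool) : Prog
  /-- sequential composition -/
  | seq (p q : Prog) : Prog
  /-- nondeterministic choice -/
  | alt (p q : Prog) : Prog
  /-- nondeterministic iteration, any finite number of times -/
  | star (p : Prog) : Prog
  deriving Countable

/-- Contents of the stacks; the top of a stack is the head of the list. -/
abbrev State := ℕ → List Bool

/-- Finite iteration of a timed relation. -/
inductive Iter (R : ℕ → State → State → Prop) : ℕ → State → State → Prop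
  | nil (σ : State) : Iter R 0 σ σ
  | cons {t t' : ℕ} {σ τ σ' : State} : R t σ τ → Iter R t' τ σ' → Iter R (t + t') σ σ'

/-- `Run O p t σ σ'`: with oracle `O`, the program `p` can lead from `σ` to `σ'` in
exactly `t` basic actions. -/
def Run (O : List Bool → Bool) : Prog → ℕ → State → State → Prop
  | .push r b => fun t σ σ' => t = 1 ∧ σ' = Function.update σ r (b :: σ r)
  | .pop r b => fun t σ σ' => t = 1 ∧ ∃ l, σ r = b :: l ∧ σ' = Function.update σ r l
  | .empty r => fun t σ σ' => t = 1 ∧ σ r = [] ∧ σ' = σ
  | .query r b => fun t σ σ' => t = 1 ∧ O (σ r) = b ∧ σ' = σ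
  | .seq p q => fun t σ σ' => ∃ t₁ t₂ τ, t = t₁ + t₂ ∧ Run O p t₁ σ τ ∧ Run O q t₂ τ σ'
  | .alt p q => fun t σ σ' => Run O p t σ σ' ∨ Run O q t σ σ'
  | .star p => Iter (Run O p)

/-- Input strings, at most as many as there are arguments, on the first stacks; all
other stacks are empty. -/
def init {k : ℕ} (e : Fin k → List Bool) : State := fun r =>
  if h : r < k then e ⟨r, h⟩ else []

/-- Total length of the input strings. -/
def size {k : ℕ} (e : Fin k → List Bool) : ℕ := ∑ i, (e i).length

/-- `NTime O T R`: some program with oracle `O` recognises the relation `R` between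
strings in nondeterministic time `T`: every terminating run starts in an input in `R`,
and on every input in `R` there is a terminating run with at most `T (size)` actions. -/
def NTime (O : List Bool → Bool) {k : ℕ} (T : ℕ → ℕ) (R : (Fin k → List Bool) → Prop) : Prop :=
  ∃ p : Prog, ∀ e : Fin k → List Bool,
    (∀ t σ', Run O p t (init e) σ' → R e) ∧
    (R e → ∃ t σ', t ≤ T (size e) ∧ Run O p t (init e) σ')

/-- Nondeterministic exponential time (exponent polynomial in the length). -/
def NEXP (O : List Bool → Bool) {k : ℕ} (R : (Fin k → List Bool) → Prop) : Prop :=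
  ∃ c : ℕ, NTime O (fun n => 2 ^ (n ^ c + c)) R

/-- Nondeterministic exponential time with linear exponent. -/
def NE (O : List Bool → Bool) {k : ℕ} (R : (Fin k → List Bool) → Prop) : Prop :=
  ∃ c : ℕ, NTime O (fun n => 2 ^ (c * n + c)) R

end Pool.Agent.LibNexp
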