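import Pool.Agent.LibNexp.Law

/-!
The law for advice of length exactly `n - 1`.
-/

namespace Pool.Agent.LibNexp

open Function

variable {O : List Bool → Bool}

theorem nexp_lt (k : ℕ) {m : ℕ} (i : Fin m) :
    NEXP O fun e : Fin m → List Bool => (e i).length < k := by
  refine (NEXP.finite_exists (Finset.range k) (R := fun r e => ∃ j, (e i).length = 0 * j + r ∧
    (e i).length = 0 * j + r) fun r _ => ?_).congr fun e => ?_
  · refine ((nexp_len (O := O) 0 0 r r).reindex ![i, i]).congr fun e => ?_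
    simp
  · simp

theorem exact_step {k : ℕ} (h1 : ∀ L ∈ NEXPLang O,
      Lᶜ ∈ WithAdvice (NEXPLang O) (Exactly fun n => n - 1)) {L : Lang} (hL : L ∈ NEXPLang O)
    (h : Lᶜ ∈ WithAdvice (NEXPLang O) (Exactly fun n => n - k)) :
    Lᶜ ∈ WithAdvice (NEXPLang O) (Exactly fun n => n - (k + 1)) := by
  obtain ⟨B, hB, f, hf, hfB⟩ := h
  have hfB' : ∀ x, x ∉ L ↔ pair x (f x.length) ∈ B := fun x => by
    have := Set.ext_iff.1 hfB x
    simpa using this
  have hlen : NEXP O fun e : Fin 2 → List Bool =>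
      ∃ j, (e 0).length = 1 * j + k ∧ (e 1).length = 1 * j + 0 := nexp_len 1 1 k 0
  have hU : {a | ∃ y, (∃ j, y.length = 1 * j + k ∧ a.length = 1 * j + 0) ∧
      y ∈ L ∧ pair y a ∈ B} ∈ NEXPLang O := by
    refine (NEXP.exists (R := fun e : Fin 2 → List Bool =>
      (∃ j, (e 1).length = 1 * j + k ∧ (e 0).length = 1 * j + 0) ∧ e 1 ∈ L ∧ pair (e 1) (e 0) ∈ B)
      ((hlen.reindex ![1, 0]).congr (fun e => ?_) |>.and
        ((nexp_mem hL 1).and (nexp_pair_mem hB 1 0)))
      (g := fun n => n + k) (PolyB.id.add (PolyB.const k)) ?_).congr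
      fun e => Iff.rfl
    · simp
    · rintro e z ⟨⟨j, h3, h4⟩, -⟩
      simp only [(app1 e z).1, (app1 e z).2] at h3 h4
      have e0 := len_le_size e 0
      show _ ≤ size e + k
      omega
  obtain ⟨B1, hB1, g, hg, hgB⟩ := h1 _ hU
  have hgB' : ∀ a, (¬ ∃ y, (∃ j, y.length = 1 * j + k ∧ a.length = 1 * j + 0) ∧
      y ∈ L ∧ pair y a ∈ B) ↔ pair a (g a.length) ∈ B1 := fun a => by
    have := Set.ext_iff.1 hgB a
    simpa using this
  have hC : NEXP O fun e : Fin 2 → List Bool =>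
      (∃ z, (∃ j, (e 0).length = 1 * j + k ∧ z.length = 1 * j + 0) ∧
        pair (e 0) z ∈ B ∧ pair z (e 1) ∈ B1) ∨ ((e 0).length < k ∧ pair (e 0) (e 1) ∈ B) := by
    refine NEXP.or ?_ ((nexp_lt k 0).and (nexp_pair_mem hB 0 1))
    refine (NEXP.exists (R := fun e : Fin 3 → List Bool =>
      (∃ j, (e 0).length = 1 * j + k ∧ (e 2).length = 1 * j + 0) ∧ pair (e 0) (e 2) ∈ B ∧
        pair (e 2) (e 1) ∈ B1)
      ((hlen.reindex ![0, 2]).congr (fun e => ?_) |>.and
        ((nexp_pair_mem hB 0 2).and (nexp_pair_mem hB1 2 1)))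
      (g := fun n => n) PolyB.id ?_).congr fun e => Iff.rfl
    · simp
    · rintro e z ⟨⟨j, h3, h4⟩, -⟩
      simp only [(app2 e z).1, (app2 e z).2.2] at h3 h4
      have e0 := len_le_size e 0
      show _ ≤ size e
      omega
  obtain ⟨D, hD, hDC⟩ := rel_of_nexp (C := fun x b =>
      (∃ z, (∃ j, x.length = 1 * j + k ∧ z.length = 1 * j + 0) ∧
        pair x z ∈ B ∧ pair z b ∈ B1) ∨ (x.length < k ∧ pair x b ∈ B)) hC
  have hf0 : ∀ n, (f n).length = n - k := hf
  have hg0 : ∀ n, (g n).length = n - 1 := hg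
  refine ⟨D, hD, fun n => if n < k then [] else g (n - k), fun n => ?_, ?_⟩
  · show (if n < k then [] else g (n - k)).length = n - (k + 1)
    split_ifs with h2
    · simp; omega
    · rw [hg0]; omega
  · ext x
    show x ∉ L ↔ pair x _ ∈ D
    rw [hDC, hfB' x]
    beta_reduce
    by_cases hx : x.length < k
    · rw [if_pos hx]
      have e1 : f x.length = [] := List.length_eq_zero_iff.1 (by rw [hf0]; omega)
      rw [e1]
      constructor
      · exact fun h => Or.inr ⟨hx, h⟩
      · rintro (⟨z, ⟨j, h2, h3⟩, -⟩ | ⟨-, h⟩)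
        · omega
        · exact h
    · rw [if_neg hx]
      constructor
      · intro h2
        refine Or.inl ⟨f x.length, ⟨x.length - k, by omega, by rw [hf0]; omega⟩, h2, ?_⟩
        have h3 := (hgB' (f x.length)).1 (by
          rintro ⟨y, ⟨j, hy1, hy2⟩, hyL, hyB⟩
          rw [hf0] at hy2
          have : y.length = x.length := by omega
          rw [← this, ← hfB'] at hyB
          exact hyB hyL)
        rwa [hf0] at h3
      · rintro (⟨z, ⟨j, h2, h3⟩, h4, h5⟩ | ⟨h2, -⟩)
        · have e1 : x.length - k = z.length := by omega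
          rw [e1] at h5
          rw [← hfB']
          exact fun hxL => (hgB' z).2 h5 ⟨x, ⟨j, h2, h3⟩, hxL, h4⟩
        · exact absurd h2 hx

theorem exact_law (h1 : ∀ L ∈ NEXPLang O,
    Lᶜ ∈ WithAdvice (NEXPLang O) (Exactly fun n => n - 1)) (k : ℕ) (hk : 1 ≤ k) :
    ∀ L ∈ NEXPLang O, Lᶜ ∈ WithAdvice (NEXPLang O) (Exactly fun n => n - k) := by
  induction k, hk using Nat.le_induction with
  | base => exact h1
  | succ k _ ih => exact fun L hL => exact_step h1 hL (ih L hL)

end Pool.Agent.LibNexp
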