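import Pool.Agent.LibNexp.Call

namespace Pool.Agent.LibNexp

variable {O : List Bool → Bool}

/-- Polynomially bounded functions. -/
def PolyB (f : ℕ → ℕ) : Prop := ∃ c, ∀ n, f n ≤ n ^ c + c

/-- Functions bounded by an exponential of a polynomial. -/
def EP (T : ℕ → ℕ) : Prop := ∃ f, PolyB f ∧ ∀ n, T n ≤ 2 ^ f n

theorem PolyB.mono {f g : ℕ → ℕ} (hg : PolyB g) (h : ∀ n, f n ≤ g n) : PolyB f := by
  obtain ⟨c, hc⟩ := hg
  exact ⟨c, fun n => le_trans (h n) (hc n)⟩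

theorem PolyB.const (a : ℕ) : PolyB fun _ => a := ⟨a, fun _ => Nat.le_add_left _ _⟩

theorem PolyB.id : PolyB fun n => n := ⟨1, fun n => by simp⟩

theorem PolyB.mul {f g : ℕ → ℕ} (hf : PolyB f) (hg : PolyB g) : PolyB fun n => f n * g n := by
  obtain ⟨a, ha⟩ := hf
  obtain ⟨b, hb⟩ := hg
  refine ⟨a + b + (a + 1) * (b + 1), fun n => ?_⟩
  have h1 := ha n
  have h2 := hb n
  rcases Nat.lt_or_ge n 2 with hn | hn
  · have e1 : n ^ a ≤ 1 := pow_le_one₀ (Nat.zero_le _) (by omega)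
    have e2 : n ^ b ≤ 1 := pow_le_one₀ (Nat.zero_le _) (by omega)
    calc f n * g n ≤ (a + 1) * (b + 1) := Nat.mul_le_mul (by omega) (by omega)
      _ ≤ _ := by omega
  · have e1 : n ^ a + a ≤ (a + 1) * n ^ a := by
      have : 1 ≤ n ^ a := Nat.one_le_pow _ _ (by omega)
      nlinarith
    have e2 : n ^ b + b ≤ (b + 1) * n ^ b := by
      have : 1 ≤ n ^ b := Nat.one_le_pow _ _ (by omega)
      nlinarith
    have e3 : (a + 1) * (b + 1) ≤ n ^ ((a + 1) * (b + 1)) :=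
      le_trans (Nat.lt_two_pow_self).le (Nat.pow_le_pow_left hn _)
    calc f n * g n ≤ ((a + 1) * n ^ a) * ((b + 1) * n ^ b) :=
          Nat.mul_le_mul (le_trans h1 e1) (le_trans h2 e2)
      _ = ((a + 1) * (b + 1)) * n ^ (a + b) := by rw [pow_add]; ring
      _ ≤ n ^ ((a + 1) * (b + 1)) * n ^ (a + b) := Nat.mul_le_mul_right _ e3
      _ = n ^ (a + b + (a + 1) * (b + 1)) := by rw [← pow_add]; congr 1; ring
      _ ≤ _ := Nat.le_add_right _ _

theorem PolyB.succ {f : ℕ → ℕ} (hf : PolyB f) : PolyB fun n => f n + 1 := by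
  obtain ⟨a, ha⟩ := hf
  refine ⟨a + 2, fun n => ?_⟩
  have h1 := ha n
  show f n + 1 ≤ _
  rcases Nat.eq_zero_or_pos n with rfl | hn
  · have h2 : (0 : ℕ) ^ a ≤ 1 := pow_le_one₀ (le_refl _) (by omega)
    rw [zero_pow (show a + 2 ≠ 0 by omega), zero_add]
    generalize (0 : ℕ) ^ a = u at h1 h2
    omega
  · have e : n ^ a ≤ n ^ (a + 2) := Nat.pow_le_pow_right hn (by omega)
    omega

theorem PolyB.add {f g : ℕ → ℕ} (hf : PolyB f) (hg : PolyB g) : PolyB fun n => f n + g n := by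
  refine (hf.succ.mul hg.succ).mono fun n => ?_
  nlinarith

theorem PolyB.pow {f : ℕ → ℕ} (hf : PolyB f) (k : ℕ) : PolyB fun n => f n ^ k := by
  induction k with
  | zero => simpa using PolyB.const 1
  | succ k ih => simpa [pow_succ] using ih.mul hf

theorem PolyB.comp_pow {g : ℕ → ℕ} (hg : PolyB g) (c : ℕ) : PolyB fun n => g n ^ c + c :=
  (hg.pow c).add (PolyB.const c)

theorem EP.mono {f g : ℕ → ℕ} (hg : EP g) (h : ∀ n, f n ≤ g n) : EP f := by
  obtain ⟨u, hu, hgu⟩ := hg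
  exact ⟨u, hu, fun n => le_trans (h n) (hgu n)⟩

theorem EP.pow2 {f : ℕ → ℕ} (hf : PolyB f) : EP fun n => 2 ^ f n := ⟨f, hf, fun _ => le_rfl⟩

theorem EP.of_poly {f : ℕ → ℕ} (hf : PolyB f) : EP f :=
  ⟨f, hf, fun _ => Nat.lt_two_pow_self.le⟩

theorem EP.mul {f g : ℕ → ℕ} (hf : EP f) (hg : EP g) : EP fun n => f n * g n := by
  obtain ⟨u, hu, hfu⟩ := hf
  obtain ⟨v, hv, hgv⟩ := hg
  exact ⟨_, hu.add hv, fun n => by rw [pow_add]; exact Nat.mul_le_mul (hfu n) (hgv n)⟩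

theorem EP.add {f g : ℕ → ℕ} (hf : EP f) (hg : EP g) : EP fun n => f n + g n := by
  obtain ⟨u, hu, hfu⟩ := hf
  obtain ⟨v, hv, hgv⟩ := hg
  refine ⟨_, (hu.add hv).add (PolyB.const 1), fun n => ?_⟩
  have h1 := hfu n
  have h2 := hgv n
  show f n + g n ≤ _
  have e1 : 2 ^ u n ≤ 2 ^ (u n + v n) := Nat.pow_le_pow_right (by norm_num) (by omega)
  have e2 : 2 ^ v n ≤ 2 ^ (u n + v n) := Nat.pow_le_pow_right (by norm_num) (by omega)
  rw [pow_succ]
  omega

theorem EP.const (a : ℕ) : EP fun _ => a := EP.of_poly (PolyB.const a)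

theorem NTime.mono {k : ℕ} {T T' : ℕ → ℕ} {R : (Fin k → List Bool) → Prop}
    (h : NTime O T R) (hT : ∀ n, T n ≤ T' n) : NTime O T' R := by
  obtain ⟨p, hp⟩ := h
  refine ⟨p, fun e => ⟨(hp e).1, fun he => ?_⟩⟩
  obtain ⟨t, σ', ht, hr⟩ := (hp e).2 he
  exact ⟨t, σ', le_trans ht (hT _), hr⟩

theorem nexp_iff {k : ℕ} {R : (Fin k → List Bool) → Prop} :
    NEXP O R ↔ ∃ T, EP T ∧ NTime O T R := by
  constructor
  · rintro ⟨c, hc⟩
    exact ⟨_, EP.pow2 ((PolyB.id.pow c).add (PolyB.const c)), hc⟩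
  · rintro ⟨T, ⟨f, ⟨c, hc⟩, hT⟩, h⟩
    exact ⟨c, h.mono fun n => le_trans (hT n) (Nat.pow_le_pow_right (by norm_num) (hc n))⟩

theorem quiet_init {k : ℕ} (e : Fin k → List Bool) : Quiet k (init e) := by
  intro r hr
  unfold init
  rw [dif_neg (by omega)]

theorem init_apply {k : ℕ} (e : Fin k → List Bool) (j : Fin k) : init e j = e j := by
  unfold init
  simp

/-- A test on the input gives membership in the class. -/
theorem nexp_of_test {k : ℕ} {R : (Fin k → List Bool) → Prop} {Q : State → Prop}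
    {T : State → ℕ} {p : Prog} (hp : IsTest O k Q T p) (hQ : ∀ e, Q (init e) ↔ R e)
    {T' : ℕ → ℕ} (hT' : EP T') (hT : ∀ e : Fin k → List Bool, T (init e) ≤ T' (size e)) :
    NEXP O R := by
  rw [nexp_iff]
  refine ⟨T', hT', p, fun e => ⟨fun t σ' h => ?_, fun he => ?_⟩⟩
  · exact (hQ e).1 ((hp _ (quiet_init e)).1 _ _ h).2
  · obtain ⟨t, ht, h⟩ := (hp _ (quiet_init e)).2 ((hQ e).2 he)
    exact ⟨t, _, le_trans ht (hT e), h⟩

/-- Programs testing a relation in the class. -/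
theorem isTest_nexp {k : ℕ} {R : (Fin k → List Bool) → Prop} (hR : NEXP O R) :
    ∃ T : ℕ → ℕ, EP T ∧ Monotone T ∧ ∀ (b : ℕ) (rs : Fin k → ℕ), (∀ j, rs j < b) →
      ∃ p, IsTest O b (fun σ => R fun j => σ (rs j)) (fun σ => T (size fun j => σ (rs j))) p := by
  obtain ⟨c, hc⟩ := hR
  obtain ⟨q, hq⟩ := hc
  refine ⟨fun n => (q.regs + k + 6 + 2 * k) * (n + 2 ^ (n ^ c + c) + 1), ?_, ?_, fun b rs hrs => ?_⟩
  · exact (EP.const _).mul (((EP.of_poly PolyB.id).add (EP.pow2 (PolyB.id.comp_pow c))).add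
      (EP.const 1))
  · intro a b hab
    simp only
    gcongr
    norm_num
  · refine ⟨call b (List.ofFn rs) q, fun σ hquiet => ⟨fun t σ' h => ?_, fun h => ?_⟩⟩
    · obtain ⟨h1, t', τ, h2⟩ := call_sound hrs hquiet h
      exact ⟨h1, (hq _).1 _ _ h2⟩
    · obtain ⟨t, τ, ht, h1⟩ := (hq _).2 h
      obtain ⟨t', ht', h2⟩ := call_complete hrs hquiet h1
      refine ⟨t', le_trans ht' ?_, h2⟩
      simp only at ht ⊢
      nlinarith

theorem size_comp_le {k m : ℕ} (e : Fin m → List Bool) (f : Fin k → Fin m) :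
    size (fun j => e (f j)) ≤ k * size e := by
  unfold size
  refine le_trans (Finset.sum_le_card_nsmul _ _ (∑ i, (e i).length) fun j _ =>
    Finset.single_le_sum (f := fun i => (e i).length) (fun _ _ => Nat.zero_le _)
      (Finset.mem_univ _)) ?_
  simp

end Pool.Agent.LibNexp
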