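import Pool.Agent.LibNexp.Chain

/-!
The limit of the stages.
-/

namespace Pool.Agent.LibNexp

open Function Filter

/-- The time bound used at length `n` for a requirement. -/
def tb (c α n : ℕ) : ℕ := 2 ^ ((2 * n + 2 + α) ^ c + c)

/-- The bound for the length of the strings asked. -/
def sb (c α n : ℕ) : ℕ := 2 * n + 2 + α + tb c α n

theorem exists_stage_length (V c α m : ℕ) : ∃ n, m ≤ n ∧ V ≤ n ∧ V * tb c α n < 2 ^ (2 ^ n) := by
  obtain ⟨n, h1, h2, h3, h4⟩ := ((eventually_large c).and ((eventually_ge_atTop m).and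
    ((eventually_ge_atTop V).and (eventually_ge_atTop α)))).exists
  refine ⟨n, h2, h3, ?_⟩
  have h5 : (2 * n + 2 + α) ^ c ≤ (3 * n + 2) ^ c := Nat.pow_le_pow_left (by omega) c
  have h6 : V < 2 ^ n := lt_of_le_of_lt h3 Nat.lt_two_pow_self
  calc V * tb c α n ≤ 2 ^ n * 2 ^ ((2 * n + 2 + α) ^ c + c) := Nat.mul_le_mul_right _ h6.le
    _ = 2 ^ (n + ((2 * n + 2 + α) ^ c + c)) := (pow_add _ _ _).symm
    _ < 2 ^ (2 ^ n) := Nat.pow_lt_pow_right (by norm_num) (by omega)

theorem exists_lengths (V : ℕ) (c α : ℕ → ℕ) : ∃ ν : ℕ → ℕ, (∀ k, V ≤ ν k) ∧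
    (∀ k, V * tb (c k) (α k) (ν k) < 2 ^ (2 ^ ν k)) ∧
    (∀ k, sb (c k) (α k) (ν k) < ν (k + 1)) := by
  choose f h1 h2 h3 using fun k m => exists_stage_length V (c k) (α k) m
  refine ⟨fun k => Nat.rec (f 0 0) (fun k prev => f (k + 1) (sb (c k) (α k) prev + 1)) k, ?_, ?_, ?_⟩
  · intro k
    cases k with
    | zero => exact h2 _ _
    | succ k => exact h2 _ _
  · intro k
    cases k with
    | zero => exact h3 _ _
    | succ k => exact h3 _ _
  · intro k
    exact h1 _ _

theorem lev_lt {c α ν : ℕ → ℕ} (h : ∀ k, sb (c k) (α k) (ν k) < ν (k + 1)) (k : ℕ) :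
    lev ν k < lev ν (k + 1) := by
  have h1 := h k
  have h2 : ν k < ν (k + 1) := by unfold sb at h1; omega
  have h3 : 2 ^ ν k ≤ 2 ^ ν (k + 1) := Nat.pow_le_pow_right (by norm_num) h2.le
  unfold lev
  omega

theorem exists_good {en : ℕ → Prog × ℕ} {V : ℕ} {ν : ℕ → ℕ} (hν : ∀ k, V ≤ ν k) :
    ∃ O, Good en V ν O := by
  obtain ⟨O, h1, h2⟩ := comp (en := en) hν (fun _ => false) ∅ 0
  refine ⟨O, ⟨?_, ?_, ?_⟩⟩
  · intro N x r w hw hO _
    exact (val_cd ((h2 _ (Nat.zero_le _) (by simp) ⟨N, x, r, w, rfl, hw⟩).1 hO)).2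
  · intro N x hN
    refine ⟨List.replicate (qlen en N x.length) false, by simp, ?_⟩
    rw [h2 _ (Nat.zero_le _) (by simp) ⟨N, x, _, _, rfl, by simp⟩]
    exact ⟨N, x, _, _, rfl, by simp, rfl, hN⟩
  · intro s hs
    by_contra hcode
    rw [h1 _ (Or.inr (Or.inr hcode))] at hs
    exact absurd hs (by simp)

theorem length_cd (N : ℕ) (x : List Bool) (r : ℕ) (w : List Bool) :
    (cd N x r w).length = N + 2 * x.length + r + w.length + 5 := by
  unfold cd
  simp only [List.length_cons, List.length_append, length_pair, List.length_replicate]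
  ring

theorem exists_oracle (en : ℕ → Prog × ℕ) {V : ℕ} (c α ν : ℕ → ℕ) (p : ℕ → Prog)
    (A : ℕ → Finset (List Bool)) (hA : ∀ k, (A k).card < V)
    (hα : ∀ k, ∀ a ∈ A k, a.length ≤ α k) (hν : ∀ k, V ≤ ν k)
    (hT : ∀ k, V * tb (c k) (α k) (ν k) < 2 ^ (2 ^ ν k))
    (hS : ∀ k, sb (c k) (α k) (ν k) < ν (k + 1)) :
    ∃ O, Good en V ν O ∧ ∀ k, ∀ a ∈ A k, Wrong O (p k) (tb (c k) (α k) (ν k)) (ν k) a := by
  have hmono := lev_lt hS
  have hAS : ∀ k, ∀ a ∈ A k, ∀ x : List Bool, x.length = ν k →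
      (pair x a).length + tb (c k) (α k) (ν k) ≤ sb (c k) (α k) (ν k) := by
    intro k a ha x hx
    have := hα k a ha
    rw [length_pair, hx]
    unfold sb
    omega
  have hSlev : ∀ k, sb (c k) (α k) (ν k) < lev ν (k + 1) := fun k =>
    lt_of_lt_of_le (hS k) (Nat.le_add_right _ _)
  have hstep : ∀ (k : ℕ) (O₀ : {O // Good en V ν O}), ∃ O : {O // Good en V ν O},
      (∀ s, s.length < lev ν k → O.1 s = O₀.1 s) ∧
      ∀ a ∈ A k, Wrong O.1 (p k) (tb (c k) (α k) (ν k)) (ν k) a := by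
    intro k O₀
    obtain ⟨O, h1, h2, h3⟩ := stage hν hmono (p := p k) (hT k) (hSlev k) (hAS k) (hA k) O₀.2
    exact ⟨⟨O, h1⟩, h2, h3⟩
  choose st hst1 hst2 using hstep
  obtain ⟨Ob, hOb⟩ := exists_good (en := en) hν
  set G : ℕ → {O // Good en V ν O} := fun k => Nat.rec ⟨Ob, hOb⟩ (fun k prev => st k prev) k with hG
  have hG1 : ∀ k, G (k + 1) = st k (G k) := fun k => rfl
  have hag : ∀ k d, ∀ s : List Bool, s.length < lev ν k → (G (k + 1 + d)).1 s = (G k).1 s := by
    intro k d
    induction d with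
    | zero => intro s hs; rw [add_zero, hG1]; exact hst1 k _ s hs
    | succ d ih =>
      intro s hs
      rw [show k + 1 + (d + 1) = (k + 1 + d) + 1 by ring, hG1,
        hst1 _ _ s (lt_of_lt_of_le hs (lev_mono hmono (by omega))), ih s hs]
  have hag2 : ∀ k k', k ≤ k' → ∀ s : List Bool, s.length < lev ν k → (G k').1 s = (G k).1 s := by
    intro k k' hkk s hs
    rcases Nat.eq_or_lt_of_le hkk with rfl | h
    · rfl
    · obtain ⟨d, rfl⟩ : ∃ d, k' = k + 1 + d := ⟨k' - (k + 1), by omega⟩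
      exact hag k d s hs
  set O : List Bool → Bool := fun s => (G (s.length + 1)).1 s with hO
  have hOG : ∀ k, ∀ s : List Bool, s.length < lev ν k → O s = (G k).1 s := by
    intro k s hs
    have h1 : s.length < lev ν (s.length + 1) := by
      have := le_lev hmono (s.length + 1)
      omega
    rcases Nat.le_total k (s.length + 1) with h | h
    · exact hag2 _ _ h s hs
    · exact (hag2 _ _ h s h1).symm
  refine ⟨O, ⟨?_, ?_, ?_⟩, ?_⟩
  · intro N x r w hw h1 h2
    have h3 : ∀ s : List Bool, s.length ≤ (cd N x r w).length →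
        O s = (G ((cd N x r w).length + 1)).1 s := fun s hs => hOG ((cd N x r w).length + 1) s (by
      have := le_lev hmono ((cd N x r w).length + 1)
      omega)
    have h4 : ∀ s : List Bool, s.length ≤ qlen en N x.length →
        O s = (G ((cd N x r w).length + 1)).1 s := fun s hs => h3 s (by
      have := length_lt_cd N x r w
      omega)
    rw [tag_agree hν h4] at h2
    rw [accN_agree h4]
    rw [h3 _ le_rfl] at h1
    exact (G ((cd N x r w).length + 1)).2.sound N x r w hw h1 h2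
  · intro N x hN
    set M := qlen en N x.length with hM
    have h4 : ∀ k, M + 1 ≤ k → ∀ s : List Bool, s.length ≤ M → O s = (G k).1 s := fun k hk s hs =>
      hOG _ s (by
        have := le_lev hmono k
        omega)
    set K := N + 2 * x.length + tag V ν O M + M + 6 with hK
    have hKM : M + 1 ≤ K := by omega
    rw [accN_agree (h4 K hKM)] at hN
    obtain ⟨w, hw, h1⟩ := (G K).2.complete N x hN
    refine ⟨w, hw, ?_⟩
    rw [← tag_agree hν (h4 K hKM)] at h1
    rw [hOG K]
    · exact h1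
    · rw [length_cd, hw]
      have := le_lev hmono K
      omega
  · intro s hs
    exact (G ((false :: s).length + 1)).2.codes s hs
  · intro k a ha
    have h1 := hst2 k (G k) a ha
    rw [← hG1] at h1
    have h2 : ∀ s : List Bool, s.length < lev ν (k + 1) → (G (k + 1)).1 s = O s :=
      fun s hs => (hOG _ s hs).symm
    obtain ⟨x, hx, h3⟩ := h1
    refine ⟨x, hx, fun h4 => h3 ?_⟩
    have e1 : x ∈ WitLang (G (k + 1)).1 ↔ x ∈ WitLang O := witLang_agree fun s hs => h2 s (by
      rw [hx] at hs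
      have := hmono k
      unfold lev at this ⊢
      omega)
    have e2 : Acc (G (k + 1)).1 (p k) (tb (c k) (α k) (ν k)) (pair x a) ↔
        Acc O (p k) (tb (c k) (α k) (ν k)) (pair x a) := by
      have h5 : ∀ s : List Bool, s.length ≤ (pair x a).length + tb (c k) (α k) (ν k) →
          (G (k + 1)).1 s = O s := fun s hs => h2 s (by
        have := hAS k a ha x hx
        have := hSlev k
        omega)
      exact ⟨acc_agree h5, acc_agree fun s hs => (h5 s hs).symm⟩
    rw [e1, e2]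
    exact h4

end Pool.Agent.LibNexp
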