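import Pool.Agent.LibNexp.PowFinal

/-!
The law for logarithmic advice.
-/

namespace Pool.Agent.LibNexp

variable {O : List Bool → Bool}

/-- `C log (n + 1) + O(1)` bits of advice suffice to complement. -/
def Lg (O : List Bool → Bool) (C : ℝ) : Prop :=
  ∀ L ∈ NEXPLang O, ∃ c : ℝ, Lᶜ ∈ WithAdvice (NEXPLang O)
    {f | ∀ n : ℕ, ((f n).length : ℝ) ≤ C * Real.log ((n : ℝ) + 1) + c}

theorem Lg.law {C : ℝ} (h : Lg O C) {ε : ℝ} (hε : 0 < ε) : Lg O ε := by
  set D : ℝ := max C 0 with hD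
  have hD0 : 0 ≤ D := le_max_right _ _
  have hlog : ∀ n : ℕ, 0 ≤ Real.log ((n : ℝ) + 1) := fun n => Real.log_nonneg (one_le_base n)
  set s : ℕ → ℕ := fun n => ⌊D * Real.log ((n : ℝ) + 1)⌋₊ with hs
  have hmono : Monotone s := by
    intro a b hab
    refine Nat.floor_mono (mul_le_mul_of_nonneg_left (Real.log_le_log ?_ ?_) hD0)
    · have := one_le_base a; linarith
    · have : (a : ℝ) ≤ b := by exact_mod_cast hab
      linarith
  have hbound : ∀ n : ℕ, (s n : ℝ) ≤ (2 * D) * ((n : ℝ) + 1) ^ ((1 : ℝ) / 2) := by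
    intro n
    have h1 : (s n : ℝ) ≤ D * Real.log ((n : ℝ) + 1) := Nat.floor_le (mul_nonneg hD0 (hlog n))
    have h2 : Real.log ((n : ℝ) + 1) ≤ ((n : ℝ) + 1) ^ ((1 : ℝ) / 2) / (1 / 2) :=
      Real.log_le_rpow_div (by have := one_le_base n; linarith) (by norm_num)
    have h3 := mul_le_mul_of_nonneg_left h2 hD0
    have h4 : D * (((n : ℝ) + 1) ^ ((1 : ℝ) / 2) / (1 / 2)) =
        (2 * D) * ((n : ℝ) + 1) ^ ((1 : ℝ) / 2) := by ring
    linarith
  have hH : ∀ L ∈ NEXPLang O, ∃ c : ℕ, Lᶜ ∈ WithAdvice (NEXPLang O) (AtMost fun n => s n + c) := by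
    intro L hL
    obtain ⟨c, hc⟩ := h L hL
    refine ⟨⌈|c|⌉₊ + 1, WithAdvice.mono (fun f hf n => ?_) hc⟩
    have h1 : ((f n).length : ℝ) ≤ C * Real.log ((n : ℝ) + 1) + c := hf n
    have h2 : C * Real.log ((n : ℝ) + 1) ≤ D * Real.log ((n : ℝ) + 1) :=
      mul_le_mul_of_nonneg_right (le_max_left _ _) (hlog n)
    have h3 : D * Real.log ((n : ℝ) + 1) < s n + 1 := Nat.lt_floor_add_one _
    have h4 : |c| ≤ ⌈|c|⌉₊ := Nat.le_ceil _
    have h5 := le_abs_self c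
    have h6 : ((f n).length : ℝ) ≤ ((s n + (⌈|c|⌉₊ + 1) : ℕ) : ℝ) := by
      push_cast
      linarith
    exact_mod_cast h6
  obtain ⟨N, hN⟩ := exists_nat_gt (D / ε)
  have hN0 : (0 : ℝ) < N := lt_of_le_of_lt (div_nonneg hD0 hε.le) hN
  have hN1 : 1 ≤ N := by
    have : 0 < N := by exact_mod_cast hN0
    omega
  have hDN : D * (1 / N) ≤ ε := by
    rw [div_lt_iff₀ hε] at hN
    rw [mul_one_div, div_le_iff₀ hN0]
    linarith
  intro L hL
  obtain ⟨c, hc⟩ := general_pow_law (O := O) hmono (α := 1 / 2) (by norm_num) hbound hH hN1 L hL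
  refine ⟨D * Real.log (c + 3) + c, WithAdvice.mono (fun f hf n => ?_) hc⟩
  obtain ⟨t, ht1, ht2⟩ := exists_root hN1 n
  have h1 : (f n).length ≤ s (t + c) + c := hf n t ht1.le
  have h2 : (s (t + c) : ℝ) ≤ D * Real.log (((t + c : ℕ) : ℝ) + 1) :=
    Nat.floor_le (mul_nonneg hD0 (hlog _))
  have h3 : (1 : ℝ) ≤ ((n : ℝ) + 1) ^ ((1 : ℝ) / N) :=
    Real.one_le_rpow (one_le_base n) (by positivity)
  have h4 : ((t + c : ℕ) : ℝ) + 1 ≤ (c + 3) * ((n : ℝ) + 1) ^ ((1 : ℝ) / N) := by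
    push_cast
    have h5 : (c : ℝ) + 1 ≤ (c + 1) * ((n : ℝ) + 1) ^ ((1 : ℝ) / N) :=
      le_mul_of_one_le_right (by positivity) h3
    linarith
  have h5 : Real.log (((t + c : ℕ) : ℝ) + 1) ≤ Real.log (c + 3) + (1 / N) * Real.log ((n : ℝ) + 1) := by
    refine le_trans (Real.log_le_log (by positivity) h4) ?_
    rw [Real.log_mul (by positivity) (by positivity), Real.log_rpow (by positivity)]
  have h6 : ((f n).length : ℝ) ≤ s (t + c) + c := by exact_mod_cast h1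
  have h7 := mul_le_mul_of_nonneg_left h5 hD0
  have h8 : D * (1 / N) * Real.log ((n : ℝ) + 1) ≤ ε * Real.log ((n : ℝ) + 1) :=
    mul_le_mul_of_nonneg_right hDN (hlog n)
  show ((f n).length : ℝ) ≤ ε * Real.log ((n : ℝ) + 1) + (D * Real.log (c + 3) + c)
  have h9 : D * (Real.log (c + 3) + 1 / N * Real.log ((n : ℝ) + 1)) =
      D * Real.log (c + 3) + D * (1 / N) * Real.log ((n : ℝ) + 1) := by ring
  linarith

end Pool.Agent.LibNexp
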