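import Pool.Agent.LibNexp.PowLaw

/-!
The law for powers.
-/

namespace Pool.Agent.LibNexp

open Function

variable {O : List Bool → Bool}

/-- `O(n ^ η)` bits of advice suffice to complement. -/
def Pw (O : List Bool → Bool) (η : ℝ) : Prop :=
  ∀ L ∈ NEXPLang O, ∃ c : ℝ,
    Lᶜ ∈ WithAdvice (NEXPLang O) {f | ∀ n : ℕ, ((f n).length : ℝ) ≤ c * ((n : ℝ) + 1) ^ η}

theorem one_le_base (n : ℕ) : (1 : ℝ) ≤ (n : ℝ) + 1 := by
  have := Nat.cast_nonneg (α := ℝ) n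
  linarith

theorem Pw.mono {η η' : ℝ} (h : Pw O η) (hη : η ≤ η') : Pw O η' := by
  intro L hL
  obtain ⟨c, hc⟩ := h L hL
  refine ⟨|c|, WithAdvice.mono (fun f hf n => ?_) hc⟩
  have h1 : ((f n).length : ℝ) ≤ c * ((n : ℝ) + 1) ^ η := hf n
  have h2 : ((n : ℝ) + 1) ^ η ≤ ((n : ℝ) + 1) ^ η' :=
    Real.rpow_le_rpow_of_exponent_le (one_le_base n) hη
  have h3 : 0 ≤ ((n : ℝ) + 1) ^ η := Real.rpow_nonneg (by have := one_le_base n; linarith) _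
  calc ((f n).length : ℝ) ≤ c * ((n : ℝ) + 1) ^ η := h1
    _ ≤ |c| * ((n : ℝ) + 1) ^ η := mul_le_mul_of_nonneg_right (le_abs_self c) h3
    _ ≤ |c| * ((n : ℝ) + 1) ^ η' := mul_le_mul_of_nonneg_left h2 (abs_nonneg c)

/-- Advice of length `O(n ^ (K' / K))` at lengths which are `K`-th powers. -/
theorem Pw.at_pow {K K' : ℕ} (hK : 1 ≤ K) (h : Pw O ((K' : ℝ) / K)) :
    ∀ L ∈ NEXPLang O, ∃ c : ℕ, Lᶜ ∈ WithAdvice (NEXPLang O)
      {f | ∀ t, (f (t ^ K)).length ≤ c * t ^ K' + c} := by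
  intro L hL
  obtain ⟨c, hc⟩ := h L hL
  refine ⟨⌈|c| * 2 ^ K'⌉₊, WithAdvice.mono (fun f hf t => ?_) hc⟩
  have h1 : ((f (t ^ K)).length : ℝ) ≤ c * (((t ^ K : ℕ) : ℝ) + 1) ^ ((K' : ℝ) / K) := hf (t ^ K)
  have hK0 : (K : ℝ) ≠ 0 := by positivity
  have h2 : (((t ^ K : ℕ) : ℝ) + 1) ^ ((K' : ℝ) / K) ≤ 2 ^ K' * (t ^ K' + 1) := by
    rcases Nat.eq_zero_or_pos t with rfl | ht
    · rw [zero_pow (by omega)]
      simp only [Nat.cast_zero, zero_add, Real.one_rpow]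
      have h3 : (1 : ℝ) ≤ 2 ^ K' := one_le_pow₀ (by norm_num)
      have h4 : (0 : ℝ) ≤ 0 ^ K' := pow_nonneg le_rfl _
      nlinarith
    · have ht1 : (1 : ℝ) ≤ t := by exact_mod_cast ht
      have h3 : ((t ^ K : ℕ) : ℝ) + 1 ≤ (2 * t : ℝ) ^ K := by
        push_cast
        rw [mul_pow]
        have h4 : (1 : ℝ) ≤ (t : ℝ) ^ K := one_le_pow₀ ht1
        have h5 : (2 : ℝ) ≤ 2 ^ K := by
          calc (2 : ℝ) = 2 ^ 1 := by norm_num
            _ ≤ 2 ^ K := pow_le_pow_right₀ (by norm_num) hK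
        nlinarith
      calc (((t ^ K : ℕ) : ℝ) + 1) ^ ((K' : ℝ) / K) ≤ ((2 * t : ℝ) ^ K) ^ ((K' : ℝ) / K) :=
            Real.rpow_le_rpow (by positivity) h3 (by positivity)
        _ = (2 * t : ℝ) ^ K' := by
            rw [← Real.rpow_natCast (2 * (t : ℝ)) K, ← Real.rpow_mul (by positivity),
              mul_div_cancel₀ _ hK0, Real.rpow_natCast]
        _ = 2 ^ K' * t ^ K' := mul_pow _ _ _
        _ ≤ 2 ^ K' * (t ^ K' + 1) := by
            have : (0 : ℝ) < 2 ^ K' := by positivity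
            nlinarith
  have h3 : ((f (t ^ K)).length : ℝ) ≤ |c| * (2 ^ K' * (t ^ K' + 1)) := by
    have h4 : (0 : ℝ) ≤ (((t ^ K : ℕ) : ℝ) + 1) ^ ((K' : ℝ) / K) := by positivity
    calc ((f (t ^ K)).length : ℝ) ≤ c * (((t ^ K : ℕ) : ℝ) + 1) ^ ((K' : ℝ) / K) := h1
      _ ≤ |c| * (((t ^ K : ℕ) : ℝ) + 1) ^ ((K' : ℝ) / K) :=
          mul_le_mul_of_nonneg_right (le_abs_self c) h4
      _ ≤ _ := mul_le_mul_of_nonneg_left h2 (abs_nonneg c)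
  have h5 : |c| * 2 ^ K' ≤ ⌈|c| * 2 ^ K'⌉₊ := Nat.le_ceil _
  have h6 : ((f (t ^ K)).length : ℝ) ≤ ((⌈|c| * 2 ^ K'⌉₊ * t ^ K' + ⌈|c| * 2 ^ K'⌉₊ : ℕ) : ℝ) := by
    push_cast
    have h7 : (0 : ℝ) ≤ (t : ℝ) ^ K' + 1 := by positivity
    have := mul_le_mul_of_nonneg_right h5 h7
    nlinarith
  exact_mod_cast h6

theorem exists_root {K : ℕ} (hK : 1 ≤ K) (n : ℕ) : ∃ t : ℕ, n < t ^ K ∧
    (t : ℝ) ≤ 2 * ((n : ℝ) + 1) ^ ((1 : ℝ) / K) := by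
  classical
  have hex : ∃ t, n < (t + 1) ^ K :=
    ⟨n, lt_of_lt_of_le (Nat.lt_succ_self n) (Nat.le_self_pow (by omega) _)⟩
  refine ⟨Nat.find hex + 1, Nat.find_spec hex, ?_⟩
  have hK0 : (K : ℝ) ≠ 0 := by positivity
  have h0 : (1 : ℝ) ≤ ((n : ℝ) + 1) ^ ((1 : ℝ) / K) := Real.one_le_rpow (one_le_base n) (by positivity)
  have h1 : (Nat.find hex : ℝ) ≤ ((n : ℝ) + 1) ^ ((1 : ℝ) / K) := by
    rcases Nat.eq_zero_or_pos (Nat.find hex) with h | h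
    · rw [h]; push_cast; linarith
    · have h2 := Nat.find_min hex (m := Nat.find hex - 1) (by omega)
      rw [Nat.sub_add_cancel h] at h2
      push Not at h2
      have h3 : ((Nat.find hex : ℝ)) ^ K ≤ (n : ℝ) + 1 := by
        have : ((Nat.find hex ^ K : ℕ) : ℝ) ≤ n := by exact_mod_cast h2
        push_cast at this
        linarith
      calc (Nat.find hex : ℝ) = ((Nat.find hex : ℝ) ^ K) ^ ((1 : ℝ) / K) := by
            rw [← Real.rpow_natCast _ K, ← Real.rpow_mul (by positivity), mul_one_div_cancel hK0,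
              Real.rpow_one]
        _ ≤ _ := Real.rpow_le_rpow (by positivity) h3 (by positivity)
  push_cast
  linarith

theorem Pw.step {K : ℕ} (hK : 2 ≤ K) {η : ℝ} (hη : 0 ≤ η) (h1 : Pw O (((K : ℝ) - 1) / K))
    (h2 : Pw O η) : Pw O (η * (((K : ℝ) - 1) / K)) := by
  intro L hL
  have hcast : (((K - 1 : ℕ)) : ℝ) = (K : ℝ) - 1 := by
    rw [Nat.cast_sub (by omega)]; simp
  have hK0 : (0 : ℝ) < K := by positivity
  have h3 := Pw.at_pow (O := O) (K := K) (K' := K - 1) (by omega) (by rw [hcast]; exact h1)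
  obtain ⟨s, ⟨C, hC⟩, c, hc⟩ := pow_step (O := O) hL (K := K) (K' := K - 1) (by omega) (by omega) h3
    (𝒮 := {s | ∃ C : ℕ, s = fun n : ℕ => C * ⌈((n : ℝ) + 1) ^ η⌉₊}) (by
      rintro s ⟨C, rfl⟩ a b hab
      refine Nat.mul_le_mul_left _ (Nat.ceil_mono ?_)
      refine Real.rpow_le_rpow (by have := one_le_base a; linarith) ?_ hη
      have : (a : ℝ) ≤ b := by exact_mod_cast hab
      linarith) (by
      intro U hU
      obtain ⟨c, hc⟩ := h2 U hU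
      refine ⟨_, ⟨⌈|c|⌉₊, rfl⟩, WithAdvice.mono (fun f hf n => ?_) hc⟩
      have h4 : ((f n).length : ℝ) ≤ c * ((n : ℝ) + 1) ^ η := hf n
      have h5 : ((n : ℝ) + 1) ^ η ≤ ⌈((n : ℝ) + 1) ^ η⌉₊ := Nat.le_ceil _
      have h6 : |c| ≤ ⌈|c|⌉₊ := Nat.le_ceil _
      have h7 : (0 : ℝ) ≤ ((n : ℝ) + 1) ^ η := by positivity
      have h8 : ((f n).length : ℝ) ≤ ((⌈|c|⌉₊ * ⌈((n : ℝ) + 1) ^ η⌉₊ : ℕ) : ℝ) := by
        push_cast
        calc ((f n).length : ℝ) ≤ c * ((n : ℝ) + 1) ^ η := h4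
          _ ≤ |c| * ((n : ℝ) + 1) ^ η := mul_le_mul_of_nonneg_right (le_abs_self c) h7
          _ ≤ _ := mul_le_mul h6 h5 h7 (by positivity)
      exact_mod_cast h8)
  -- the bound
  set ρ : ℝ := ((K : ℝ) - 1) / K with hρ
  refine ⟨2 * C * ((c + 1 : ℕ) * 2 ^ (K - 1) + (c : ℝ) + 1) ^ η, WithAdvice.mono (fun f hf n => ?_) hc⟩
  obtain ⟨t, ht1, ht2⟩ := exists_root (K := K) (by omega) n
  have h4 : (f n).length ≤ s (c * t ^ (K - 1) + c) := hf n t ht1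
  rw [hC] at h4
  set X : ℝ := ((n : ℝ) + 1) ^ ρ with hX
  have hX1 : 1 ≤ X := Real.one_le_rpow (one_le_base n) (div_nonneg (by
    have : (2 : ℝ) ≤ K := by exact_mod_cast hK
    linarith) hK0.le)
  have h5 : ((t : ℝ)) ^ (K - 1) ≤ 2 ^ (K - 1) * X := by
    calc ((t : ℝ)) ^ (K - 1) ≤ (2 * ((n : ℝ) + 1) ^ ((1 : ℝ) / K)) ^ (K - 1) :=
          pow_le_pow_left₀ (by positivity) ht2 _
      _ = 2 ^ (K - 1) * X := by
          rw [mul_pow, ← Real.rpow_natCast (((n : ℝ) + 1) ^ ((1 : ℝ) / K)) (K - 1),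
            ← Real.rpow_mul (by positivity), hcast, hX, hρ]
          congr 2
          ring
  have h6 : (((c * t ^ (K - 1) + c : ℕ) : ℝ)) + 1 ≤ ((c + 1 : ℕ) * 2 ^ (K - 1) + (c : ℝ) + 1) * X := by
    push_cast
    have h7 : (c : ℝ) * (t : ℝ) ^ (K - 1) ≤ c * (2 ^ (K - 1) * X) :=
      mul_le_mul_of_nonneg_left h5 (by positivity)
    have h8 : (c : ℝ) ≤ c * X := le_mul_of_one_le_right (by positivity) hX1
    have h9 : (0 : ℝ) ≤ 2 ^ (K - 1) * X := by positivity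
    nlinarith
  set A : ℝ := (c + 1 : ℕ) * 2 ^ (K - 1) + (c : ℝ) + 1 with hA
  have hA1 : 1 ≤ A := by
    have : (0 : ℝ) ≤ (c + 1 : ℕ) * 2 ^ (K - 1) := by positivity
    have : (0 : ℝ) ≤ (c : ℝ) := by positivity
    rw [hA]
    linarith
  have h10 : ((((c * t ^ (K - 1) + c : ℕ) : ℝ)) + 1) ^ η ≤ A ^ η * X ^ η := by
    rw [← Real.mul_rpow (by linarith) (by linarith)]
    exact Real.rpow_le_rpow (by positivity) h6 hη
  have h11 : (⌈((((c * t ^ (K - 1) + c : ℕ) : ℝ)) + 1) ^ η⌉₊ : ℝ) ≤ 2 * (A ^ η * X ^ η) := by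
    have h12 := Nat.ceil_lt_add_one (a := ((((c * t ^ (K - 1) + c : ℕ) : ℝ)) + 1) ^ η) (by positivity)
    have h13 : 1 ≤ A ^ η * X ^ η := one_le_mul_of_one_le_of_one_le
      (Real.one_le_rpow hA1 hη) (Real.one_le_rpow hX1 hη)
    linarith
  have h14 : ((f n).length : ℝ) ≤ C * ⌈((((c * t ^ (K - 1) + c : ℕ) : ℝ)) + 1) ^ η⌉₊ := by
    exact_mod_cast h4
  have h15 : X ^ η = ((n : ℝ) + 1) ^ (η * ρ) := by
    rw [hX, ← Real.rpow_mul (by positivity), mul_comm]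
  show ((f n).length : ℝ) ≤ 2 * C * A ^ η * ((n : ℝ) + 1) ^ (η * ρ)
  rw [← h15]
  have h16 : (C : ℝ) * ⌈((((c * t ^ (K - 1) + c : ℕ) : ℝ)) + 1) ^ η⌉₊ ≤
      C * (2 * (A ^ η * X ^ η)) := mul_le_mul_of_nonneg_left h11 (by positivity)
  calc ((f n).length : ℝ) ≤ _ := h14
    _ ≤ _ := h16
    _ = _ := by ring

theorem Pw.law {α : ℝ} (hα : α < 1) (h : Pw O α) {ε : ℝ} (hε : 0 < ε) : Pw O ε := by
  obtain ⟨q, hq⟩ : ∃ q : ℕ, 2 ≤ q ∧ α ≤ ((q : ℝ) - 1) / q := by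
    obtain ⟨m, hm⟩ := exists_nat_gt (1 / (1 - α))
    refine ⟨m + 2, by omega, ?_⟩
    have h1 : 0 < 1 - α := by linarith
    have h2 : (0 : ℝ) < ((m + 2 : ℕ) : ℝ) := by positivity
    rw [le_div_iff₀ h2]
    have h3 : 1 < m * (1 - α) := by rwa [div_lt_iff₀ h1] at hm
    push_cast
    nlinarith
  set ρ : ℝ := ((q : ℝ) - 1) / q with hρ
  have hq0 : (2 : ℝ) ≤ q := by exact_mod_cast hq.1
  have hρ0 : 0 ≤ ρ := div_nonneg (by linarith) (by linarith)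
  have hρ1 : ρ < 1 := by rw [hρ, div_lt_one (by linarith)]; linarith
  have h1 : Pw O ρ := h.mono hq.2
  have h2 : ∀ j, Pw O (ρ ^ (j + 1)) := by
    intro j
    induction j with
    | zero => simpa using h1
    | succ j ih =>
      rw [pow_succ]
      exact Pw.step hq.1 (pow_nonneg hρ0 _) h1 ih
  obtain ⟨j, hj⟩ := exists_pow_lt_of_lt_one hε hρ1
  exact (h2 j).mono (le_trans (pow_le_pow_of_le_one hρ0 hρ1.le (Nat.le_succ j)) hj.le)

/-- The general form of the law for powers. -/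
theorem general_pow_law {s : ℕ → ℕ} (hs : Monotone s) {α c : ℝ} (hα : α < 1)
    (hsα : ∀ n : ℕ, (s n : ℝ) ≤ c * ((n : ℝ) + 1) ^ α)
    (h : ∀ L ∈ NEXPLang O, ∃ c : ℕ, Lᶜ ∈ WithAdvice (NEXPLang O) (AtMost fun n => s n + c))
    {N : ℕ} (hN : 1 ≤ N) : ∀ L ∈ NEXPLang O, ∃ c : ℕ,
      Lᶜ ∈ WithAdvice (NEXPLang O) {f | ∀ n t, n ≤ t ^ N → (f n).length ≤ s (t + c) + c} := by
  have h1 : Pw O (max α 0) := by
    intro L hL
    obtain ⟨c1, hc1⟩ := h L hL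
    refine ⟨|c| + c1, WithAdvice.mono (fun f hf n => ?_) hc1⟩
    have h2 : (f n).length ≤ s n + c1 := hf n
    have h3 : ((f n).length : ℝ) ≤ s n + c1 := by exact_mod_cast h2
    have h4 := hsα n
    have h5 : ((n : ℝ) + 1) ^ α ≤ ((n : ℝ) + 1) ^ (max α 0) :=
      Real.rpow_le_rpow_of_exponent_le (one_le_base n) (le_max_left _ _)
    have h6 : 1 ≤ ((n : ℝ) + 1) ^ (max α 0) := Real.one_le_rpow (one_le_base n) (le_max_right _ _)
    have h7 : (0 : ℝ) ≤ ((n : ℝ) + 1) ^ α := by positivity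
    have h8 : c * ((n : ℝ) + 1) ^ α ≤ |c| * ((n : ℝ) + 1) ^ (max α 0) :=
      mul_le_mul (le_abs_self c) h5 h7 (abs_nonneg c)
    have h9 : (c1 : ℝ) ≤ c1 * ((n : ℝ) + 1) ^ (max α 0) := le_mul_of_one_le_right (by positivity) h6
    show ((f n).length : ℝ) ≤ (|c| + c1) * ((n : ℝ) + 1) ^ (max α 0)
    linarith
  have h2 : Pw O (((1 : ℕ) : ℝ) / ((N + 1 : ℕ) : ℝ)) :=
    h1.law (max_lt hα (by norm_num)) (by positivity)
  intro L hL
  obtain ⟨s', ⟨c1, hc1⟩, c2, hc2⟩ := pow_step (O := O) hL (K := N + 1) (K' := 1) (by omega) le_rfl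
    (Pw.at_pow (by omega) h2) (𝒮 := {s' | ∃ c : ℕ, s' = fun n => s n + c}) (by
      rintro s' ⟨c, rfl⟩ a b hab
      exact Nat.add_le_add_right (hs hab) c) (by
      intro U hU
      obtain ⟨c, hc⟩ := h U hU
      exact ⟨_, ⟨c, rfl⟩, hc⟩)
  set d := c2 + 1 with hd
  refine ⟨(d * (d ^ N + 2) + c2) + c1, WithAdvice.mono (fun f hf n T hnT => ?_) hc2⟩
  have h3 : ∀ n t, n < t ^ (N + 1) → (f n).length ≤ s' (c2 * t ^ 1 + c2) := hf
  rw [hc1] at h3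
  have hd0 : 0 < d := by omega
  obtain ⟨u, hTu, hTu'⟩ : ∃ u, T < d * (u + 1) ∧ d * u ≤ T :=
    ⟨T / d, Nat.lt_mul_div_succ T hd0, Nat.mul_div_le T d⟩
  have hlt : n < (u + (d ^ N + 1)) ^ (N + 1) := by
    calc n ≤ T ^ N := hnT
      _ ≤ (d * (u + 1)) ^ N := Nat.pow_le_pow_left hTu.le _
      _ = d ^ N * (u + 1) ^ N := mul_pow _ _ _
      _ < (u + (d ^ N + 1)) * (u + (d ^ N + 1)) ^ N := by
          have e1 : (u + 1) ^ N ≤ (u + (d ^ N + 1)) ^ N := Nat.pow_le_pow_left (by omega) _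
          have e2 : 0 < (u + (d ^ N + 1)) ^ N := Nat.pow_pos (by omega)
          have e3 : d ^ N < u + (d ^ N + 1) := by omega
          exact Nat.mul_lt_mul_of_lt_of_le e3 e1 e2
      _ = _ := by rw [pow_succ]; ring
  have h4 := h3 n _ hlt
  refine le_trans h4 ?_
  have h5 : c2 * (u + (d ^ N + 1)) ^ 1 + c2 ≤ T + (d * (d ^ N + 2) + c2 + c1) := by
    rw [pow_one]
    have e1 : d * u ≤ T := hTu'
    have e2 : c2 * (u + (d ^ N + 1)) = c2 * u + c2 * (d ^ N + 1) := by ring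
    have e3 : c2 * u ≤ d * u := Nat.mul_le_mul_right _ (by omega)
    have e4 : c2 * (d ^ N + 1) ≤ d * (d ^ N + 2) := Nat.mul_le_mul (by omega) (by omega)
    omega
  have h6 := hs h5
  show s (c2 * (u + (d ^ N + 1)) ^ 1 + c2) + c1 ≤ s (T + (d * (d ^ N + 2) + c2 + c1)) + _
  omega

end Pool.Agent.LibNexp
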